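import Pool.Agent.V7H34.NT.Glue

/-!
# The rank of the class group and the divisors
-/

set_option autoImplicit false
set_option linter.all false

namespace Pool.Agent.V7H34.NT

open MvPolynomial IsDedekindDomain

theorem alg_inv' {D L : Type} [CommRing D] [Field L] [Algebra D L] (a : Dˣ) :
    algebraMap D L ((a⁻¹ : Dˣ) : D) = (algebraMap D L a)⁻¹ :=
  eq_inv_of_mul_eq_one_left (by rw [← map_mul, Units.inv_mul, map_one])

section
variable {R B D K L : Type} [CommRing R] [IsDomain R] [CommRing B] [IsDomain B] [Field K] [Field L]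
  [Algebra K L] [Algebra R K] [IsFractionRing R K] [Algebra B L] [IsFractionRing B L] [Algebra R B]
  [CommRing D] [IsDedekindDomain D] [Algebra D L] [IsFractionRing D L] [Algebra B D]
  [IsScalarTower B D L]

/-- the ring of the generic fibre -/
abbrev GenLoc (R B D : Type) [CommRing R] [CommRing B] [CommRing D] [Algebra R B] [Algebra B D] :
    Prop := IsLocalization (Algebra.algebraMapSubmonoid B (nonZeroDivisors R)) D

theorem unit_D (hD : GenLoc R B D) {r : R} (hr : r ≠ 0) :
    IsUnit (algebraMap B D (algebraMap R B r)) := by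
  have := hD
  exact IsLocalization.map_units (M := Algebra.algebraMapSubmonoid B (nonZeroDivisors R)) D
    ⟨algebraMap R B r, ⟨r, mem_nonZeroDivisors_of_ne_zero hr, rfl⟩⟩

theorem K_sub (hD : GenLoc R B D)
    (hRB : ∀ r : R, algebraMap B L (algebraMap R B r) = algebraMap K L (algebraMap R K r)) (c : K) :
    ∃ d : D, algebraMap D L d = algebraMap K L c := by
  obtain ⟨x, y, hy, hxy⟩ := IsFractionRing.div_surjective (A := R) c
  obtain ⟨u, hu⟩ := unit_D hD (nonZeroDivisors.ne_zero hy)
  refine ⟨algebraMap B D (algebraMap R B x) * ((u⁻¹ : Dˣ) : D), ?_⟩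
  rw [map_mul, alg_inv', hu, ← IsScalarTower.algebraMap_apply B D L,
    ← IsScalarTower.algebraMap_apply B D L, hRB, hRB, ← hxy, map_div₀, div_eq_mul_inv]

theorem locD_iff (hD : GenLoc R B D)
    (hRB : ∀ r : R, algebraMap B L (algebraMap R B r) = algebraMap K L (algebraMap R K r)) {g : B}
    (z : L) : z ∈ loc D (L := L) (algebraMap B D g) ↔
      ∃ r : R, r ≠ 0 ∧ algebraMap K L (algebraMap R K r) * z ∈ loc B (L := L) g := by
  have h0 : ∀ {r : R}, r ≠ 0 → algebraMap B L (algebraMap R B r) ≠ 0 := by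
    intro r hr
    rw [hRB, Ne, map_eq_zero_iff _ (algebraMap K L).injective, IsFractionRing.to_map_eq_zero_iff]
    exact hr
  have h1 := mem_loc_iff (B := B) (D := D) (L := L)
    (Algebra.algebraMapSubmonoid B (nonZeroDivisors R)) (by
      rintro _ ⟨r, hr, rfl⟩
      exact h0 (nonZeroDivisors.ne_zero hr)) (g := g) z
  rw [h1]
  constructor
  · rintro ⟨_, ⟨r, hr, rfl⟩, h⟩
    exact ⟨r, nonZeroDivisors.ne_zero hr, by rw [← hRB]; exact h⟩
  · rintro ⟨r, hr, h⟩
    exact ⟨algebraMap R B r, ⟨r, mem_nonZeroDivisors_of_ne_zero hr, rfl⟩, by rw [hRB]; exact h⟩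

theorem dv_K (hD : GenLoc R B D)
    (hRB : ∀ r : R, algebraMap B L (algebraMap R B r) = algebraMap K L (algebraMap R K r))
    (v : HeightOneSpectrum D) (c : Additive Kˣ) : dv (L := L) v (jj K L c) = 0 := by
  have key : ∀ c : Additive Kˣ, 0 ≤ dv (L := L) v (jj K L c) := by
    intro c
    obtain ⟨d, hd⟩ := K_sub hD hRB (c.toMul : K)
    exact dv_nonneg (a := d) (by rw [jj_val, hd])
  have h1 := key c
  have h2 := key (-c)
  rw [map_neg, map_neg] at h2
  omega

/-- **The units of the generic fibre lie in a localization.** -/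
theorem exists_units (hD : GenLoc R B D)
    (hRB : ∀ r : R, algebraMap B L (algebraMap R B r) = algebraMap K L (algebraMap R K r)) {g : B}
    (hg : g ≠ 0) : ∃ ρ : R, ρ ≠ 0 ∧ ∀ N : R, N ≠ 0 → ρ ∣ N →
      (unitsIn (loc D (L := L) (algebraMap B D g))).map (dvg (algebraMap B D g)) ≤
      (unitsIn (loc B (L := L) (g * algebraMap R B N))).map (dvg (algebraMap B D g)) := by
  classical
  have hgD : algebraMap B D g ≠ 0 := by
    intro h0
    have h1 := congrArg (algebraMap D L) h0
    rw [map_zero, ← IsScalarTower.algebraMap_apply, IsFractionRing.to_map_eq_zero_iff] at h1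
    exact hg h1
  have hfin := finite_Pg hgD
  let _ := Fintype.ofFinite (Pg (algebraMap B D g))
  have hfg : ((unitsIn (loc D (L := L) (algebraMap B D g))).map (dvg (algebraMap B D g))).FG :=
    IsNoetherian.noetherian _
  obtain ⟨G, hG⟩ := hfg
  have hsub : ∀ e ∈ G, e ∈ (unitsIn (loc D (L := L) (algebraMap B D g))).map
      (dvg (algebraMap B D g)) := fun e he => by
    rw [← hG]
    exact Submodule.subset_span he
  choose! u hu hue using hsub
  have h1 : ∀ e ∈ G, ∃ r : R, r ≠ 0 ∧
      algebraMap K L (algebraMap R K r) * ((u e).toMul : L) ∈ loc B (L := L) g :=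
    fun e he => (locD_iff hD hRB _).1 (hu e he).1
  have h2 : ∀ e ∈ G, ∃ r : R, r ≠ 0 ∧
      algebraMap K L (algebraMap R K r) * ((u e).toMul : L)⁻¹ ∈ loc B (L := L) g :=
    fun e he => (locD_iff hD hRB _).1 (hu e he).2
  choose! r hr0 hr using h1
  choose! s hs0 hs using h2
  refine ⟨∏ e ∈ G, (r e * s e), Finset.prod_ne_zero_iff.2 fun e he => mul_ne_zero (hr0 e he) (hs0 e he),
    fun N hN hρ => ?_⟩
  have hinj : Function.Injective (algebraMap R B) := by
    intro a b h
    apply IsFractionRing.injective R K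
    apply (algebraMap K L).injective
    rw [← hRB, ← hRB, h]
  have hN0 : algebraMap B L (g * algebraMap R B N) ≠ 0 := by
    rw [Ne, IsFractionRing.to_map_eq_zero_iff]
    exact mul_ne_zero hg ((map_ne_zero_iff _ hinj).2 hN)
  have key : ∀ (t : R) (z : L), t ∣ N →
      algebraMap K L (algebraMap R K t) * z ∈ loc B (L := L) g →
      z ∈ loc B (L := L) (g * algebraMap R B N) := by
    intro t z ht hz
    have ht0 : algebraMap K L (algebraMap R K t) ≠ 0 := by
      rw [Ne, map_eq_zero_iff _ (algebraMap K L).injective, IsFractionRing.to_map_eq_zero_iff]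
      rintro rfl
      exact hN (zero_dvd_iff.1 ht)
    have h3 : z = (algebraMap B L (algebraMap R B t))⁻¹ *
        (algebraMap K L (algebraMap R K t) * z) := by
      rw [hRB, ← mul_assoc, inv_mul_cancel₀ ht0, one_mul]
    rw [h3]
    refine mul_mem ?_ (loc_mono (dvd_mul_right _ _) hz)
    refine inv_mem_of_dvd hN0 (dvd_mul_of_dvd_right ?_ _)
    exact map_dvd _ ht
  rw [← hG, Submodule.span_le]
  intro e he
  have hd := (Finset.dvd_prod_of_mem (fun e => r e * s e) he).trans hρ
  refine ⟨u e, ⟨key (r e) _ ((dvd_mul_right _ _).trans hd) (hr e he),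
    key (s e) _ ((dvd_mul_left _ _).trans hd) (hs e he)⟩, hue e he⟩

end

section
variable {A M R B D K L : Type} {b : ℕ}
  [CommRing A] [IsDomain A] [Field M] [Algebra A M] [IsFractionRing A M]
  [Field K] [Field L] [Algebra K L]
  [Algebra (MvPolynomial (Fin (b + 1)) M) K] [IsFractionRing (MvPolynomial (Fin (b + 1)) M) K]
  [Algebra (MvPolynomial (Fin (b + 1)) A) K]
  [Algebra (MvPolynomial (Fin (b + 2)) M) L] [IsFractionRing (MvPolynomial (Fin (b + 2)) M) L]
  [Algebra (MvPolynomial (Fin (b + 2)) A) L]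
  [CommRing R] [IsDomain R] [Algebra R K] [IsFractionRing R K]
  [CommRing B] [IsDomain B] [Algebra B L] [IsFractionRing B L] [Algebra R B]
  [CommRing D] [IsDedekindDomain D] [Algebra D L] [IsFractionRing D L] [Algebra B D]
  [IsScalarTower B D L]

open Classical in
/-- **The rank of the class group.** -/
theorem rank_main (hc : Cst M K L b) (hY : Comp A M (b + 1) K) (hL : Comp A M (b + 2) L)
    (hD : GenLoc R B D)
    (hRB : ∀ r : R, algebraMap B L (algebraMap R B r) = algebraMap K L (algebraMap R K r))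
    (O : ValuationSubring L) (hO : ∀ a : D, algebraMap D L a ∈ O → ∃ c : K, algebraMap K L c =
      algebraMap D L a) {g : B} (hg : g ≠ 0) {N : R} (hN : N ≠ 0)
    {nY : MvPolynomial (Fin (b + 1)) A} {nΛ : MvPolynomial (Fin (b + 2)) A} (hnY : nY ≠ 0)
    (hnΛ : nΛ ≠ 0) (e₁ : loc B (L := L) (g * algebraMap R B N) = loc _ nΛ)
    (e₂ : loc R (L := K) N = loc _ nY) (hl : Lifts K L nY nΛ)
    (h5 : (unitsIn (loc D (L := L) (algebraMap B D g))).map (dvg (algebraMap B D g)) ≤
      (unitsIn (loc B (L := L) (g * algebraMap R B N))).map (dvg (algebraMap B D g)))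
    [Finite (Jt (MvPolynomial (Fin (b + 1)) M) (mp A M (b + 1) nY))]
    [Finite (Jt (MvPolynomial (Fin (b + 2)) M) (mp A M (b + 2) nΛ))] :
    Module.Finite ℤ (Additive (ClassGroup D)) ∧
    Module.finrank ℤ (Additive (ClassGroup D)) +
      Nat.card (Jt (MvPolynomial (Fin (b + 2)) M) (mp A M (b + 2) nΛ)) =
      Nat.card (Pg (algebraMap B D g)) +
        Nat.card (Jt (MvPolynomial (Fin (b + 1)) M) (mp A M (b + 1) nY)) := by
  have hI : Incl K L nY nΛ := incl_of hRB e₁ e₂
  have hgD : algebraMap B D g ≠ 0 := by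
    intro h0
    have h1 := congrArg (algebraMap D L) h0
    rw [map_zero, ← IsScalarTower.algebraMap_apply, IsFractionRing.to_map_eq_zero_iff] at h1
    exact hg h1
  have hinj : Function.Injective (algebraMap R B) := by
    intro a b h
    apply IsFractionRing.injective R K
    apply (algebraMap K L).injective
    rw [← hRB, ← hRB, h]
  have hN0 : algebraMap B L (g * algebraMap R B N) ≠ 0 := by
    rw [Ne, IsFractionRing.to_map_eq_zero_iff]
    exact mul_ne_zero hg ((map_ne_zero_iff _ hinj).2 hN)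
  have hBD : loc B (L := L) (g * algebraMap R B N) ≤ loc D (L := L) (algebraMap B D g) :=
    loc_le_loc hN0 (dvd_mul_right _ _) ⟨_, rfl, unit_D hD hN⟩
  have hKD : ∀ c : K, algebraMap K L c ∈ loc D (L := L) (algebraMap B D g) := by
    intro c
    obtain ⟨d, hd⟩ := K_sub hD hRB c
    rw [← hd]
    exact base_mem _ _
  have hle : loc (MvPolynomial (Fin (b + 2)) M) (L := L) (mp A M (b + 2) nΛ) ≤
      loc D (L := L) (algebraMap B D g) := by
    intro z hz
    obtain ⟨α, hα, h⟩ := (hL.mem_loc z).1 hz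
    rw [← e₁] at h
    have h1 := hBD h
    have hα0 : algebraMap (MvPolynomial (Fin (b + 2)) A) L (C α) ≠ 0 := by
      rw [Ne, map_eq_zero_iff _ hL.inj]
      exact fun h' => hα ((map_eq_zero_iff _ (C_injective _ _)).1 h')
    have h2 : z = algebraMap K L (algebraMap (MvPolynomial (Fin (b + 1)) A) K (C α))⁻¹ *
        (algebraMap (MvPolynomial (Fin (b + 2)) A) L (C α) * z) := by
      rw [map_inv₀, cst_A hc hY hL, ← mul_assoc, inv_mul_cancel₀ hα0, one_mul]
    rw [h2]
    exact mul_mem (hKD _) h1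
  have hmpY : mp A M (b + 1) nY ≠ 0 := (map_ne_zero_iff _ mp_inj).2 hnY
  have hmpΛ : mp A M (b + 2) nΛ ≠ 0 := (map_ne_zero_iff _ mp_inj).2 hnΛ
  have hmem := mem_base_iff hc hY hL hnY hI hl
  have hnΛL : algebraMap (MvPolynomial (Fin (b + 2)) A) L nΛ ≠ 0 := by
    rwa [Ne, map_eq_zero_iff _ hL.inj]
  obtain ⟨f1, f2⟩ := cls_formula (K := K) (L := L) (D := D) hgD hmpY hmpΛ (units_cst hc)
    (by
      intro c
      rw [mem_unitsIn, mem_unitsIn, jj_val, hmem, ← map_inv₀, hmem])
    (by
      intro x hx hx0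
      have h1 : ∀ v : HeightOneSpectrum D, dv v x = 0 := by
        intro v
        by_cases hv : algebraMap B D g ∈ v.asIdeal
        · have := congrFun hx0 ⟨v, hv⟩
          exact this
        · exact (mem_units_iff hgD).1 hx v hv
      obtain ⟨a, ha⟩ := mem_of_dv (D := D) fun v => (h1 v).ge
      obtain ⟨a', ha'⟩ := mem_of_dv (D := D) (x := -x) fun v => by rw [map_neg, h1 v, neg_zero]
      rw [toMul_neg, Units.val_inv_eq_inv_val] at ha'
      rcases O.mem_or_inv_mem (x.toMul : L) with hm | hm
      · rw [ha] at hm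
        obtain ⟨c, hc'⟩ := hO a hm
        have hc0 : c ≠ 0 := by
          rintro rfl
          rw [map_zero, ← ha] at hc'
          exact Units.ne_zero _ hc'.symm
        refine ⟨Additive.ofMul (Units.mk0 c hc0), ?_⟩
        apply Additive.toMul.injective
        apply Units.ext
        rw [jj_val, ha, ← hc']
        rfl
      · rw [ha'] at hm
        obtain ⟨c, hc'⟩ := hO a' hm
        have hc0 : c ≠ 0 := by
          rintro rfl
          rw [map_zero, ← ha'] at hc'
          exact inv_ne_zero (Units.ne_zero _) hc'.symm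
        refine ⟨-Additive.ofMul (Units.mk0 c hc0), ?_⟩
        apply Additive.toMul.injective
        apply Units.ext
        rw [map_neg, toMul_neg, Units.val_inv_eq_inv_val, jj_val]
        have h3 : algebraMap K L ((Additive.ofMul (Units.mk0 c hc0)).toMul : K) =
          algebraMap K L c := rfl
        rw [h3, hc', ← ha', inv_inv])
    (by
      intro c
      funext P
      exact dv_K hD hRB P.1 c)
    (fun x hx => ⟨hle hx.1, hle hx.2⟩)
    (by
      refine h5.trans (Submodule.map_mono ?_)
      rw [e₁]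
      exact fun x hx => ⟨hL.le _ hx.1, hL.le _ hx.2⟩)
    (fun a => hle (base_mem _ _))
    (by
      intro z hz
      obtain ⟨r, hr0, hr⟩ := (locD_iff hD hRB z).1 hz
      have h1 : algebraMap K L (algebraMap R K r) * z ∈ loc _ (L := L) nΛ := by
        rw [← e₁]
        exact loc_mono (dvd_mul_right _ _) hr
      have h2 : algebraMap K L (algebraMap R K r) ∈ loc _ (L := L) nΛ := by
        rw [← e₁, ← hRB]
        exact base_mem _ _
      obtain ⟨j, lam, hlam⟩ := h1
      obtain ⟨i, sig, hsig⟩ := h2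
      have hr1 : algebraMap K L (algebraMap R K r) ≠ 0 := by
        rw [Ne, map_eq_zero_iff _ (algebraMap K L).injective, IsFractionRing.to_map_eq_zero_iff]
        exact hr0
      have hs : algebraMap (MvPolynomial (Fin (b + 2)) M) L (mp A M (b + 2) (nΛ ^ j * sig)) =
          algebraMap (MvPolynomial (Fin (b + 2)) A) L nΛ ^ (j + i) *
            algebraMap K L (algebraMap R K r) := by
        rw [← hL, map_mul, map_pow, ← hsig, pow_add]
        ring
      refine ⟨mp A M (b + 2) (nΛ ^ i * lam), mp A M (b + 2) (nΛ ^ j * sig), ?_, ?_, ?_⟩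
      · rw [hs]
        exact mul_ne_zero (pow_ne_zero _ hnΛL) hr1
      · rw [hs, mul_inv, ← inv_pow, ← map_inv₀ (algebraMap K L)]
        refine mul_mem (pow_mem (hle ?_) _) (hKD _)
        exact hL.le _ (inv_mem_loc hnΛL)
      · rw [hs, ← hL, map_mul, map_pow, ← hlam, pow_add]
        ring)
  refine ⟨f1, ?_⟩
  rw [← Module.finrank_eq_rank] at f2
  exact_mod_cast f2

end

end Pool.Agent.V7H34.NT
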