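import Pool.Agent.V7H34.NT.Main

/-!
# The average for all the models
-/

set_option autoImplicit false
set_option linter.all false
set_option maxHeartbeats 1000000

namespace Pool.Agent.V7H34.NT

open NumberField IsDedekindDomain Filter Topology MvPolynomial
open Pool.Agent.R410.LW (FG frac_of_closure closure_spec)

theorem ft_generic {S : Type} [CommRing S] (i : Algebra ℤ S) (h : @Algebra.FiniteType ℤ S _ _ i) :
    Algebra.FiniteType ℤ S := by
  have : i = Ring.toIntAlgebra S := Subsingleton.elim _ _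
  subst this
  exact h

/-- a ring of coefficients which contains the integers of `k` -/
theorem exists_A {M : Type} [Field M] {k : Type} [Field k] [NumberField k] [Algebra k M]
    (hM : FG M) : ∃ (A : Type) (_ : CommRing A) (_ : IsDomain A) (_ : Algebra A M)
      (_ : Algebra.FiniteType ℤ A) (_ : IsFractionRing A M) (ρ : 𝓞 k →+* A),
      ∀ z : 𝓞 k, algebraMap A M (ρ z) = algebraMap k M z := by
  classical
  obtain ⟨G, hG⟩ := (inferInstance : Module.Finite ℤ (𝓞 k)).fg_top
  obtain ⟨S, hS⟩ := hM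
  set T : Finset M := S ∪ G.image (fun z : 𝓞 k => algebraMap k M z) with hT
  have hc : Subfield.closure ((T : Finset M) : Set M) = ⊤ := by
    rw [eq_top_iff, ← hS]
    refine Subfield.closure_mono ?_
    rw [hT, Finset.coe_union]
    exact Set.subset_union_left
  obtain ⟨h1, h2⟩ := closure_spec T hc
  have h3 : ∀ z : 𝓞 k, algebraMap k M z ∈ Algebra.adjoin ℤ (T : Set M) := by
    intro z
    have hz : z ∈ Submodule.span ℤ (G : Set (𝓞 k)) := by
      rw [hG]
      trivial
    induction hz using Submodule.span_induction with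
    | mem x hx =>
      exact Algebra.subset_adjoin (Finset.mem_coe.2 (Finset.mem_union_right _
        (Finset.mem_image_of_mem _ hx)))
    | zero =>
      have : algebraMap k M ((0 : 𝓞 k) : k) = 0 :=
        map_zero ((algebraMap k M).comp (algebraMap (𝓞 k) k))
      rw [this]
      exact Subalgebra.zero_mem _
    | add x y _ _ hx hy =>
      have : algebraMap k M ((x + y : 𝓞 k) : k) = algebraMap k M x + algebraMap k M y :=
        map_add ((algebraMap k M).comp (algebraMap (𝓞 k) k)) x y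
      rw [this]
      exact Subalgebra.add_mem _ hx hy
    | smul a x _ hx =>
      have : algebraMap k M ((a • x : 𝓞 k) : k) = a • algebraMap k M x :=
        map_zsmul ((algebraMap k M).comp (algebraMap (𝓞 k) k)) a x
      rw [this]
      exact Subalgebra.smul_mem _ hx a
  exact ⟨Algebra.adjoin ℤ (T : Set M), inferInstance, inferInstance, inferInstance,
    ft_generic _ h1, h2,
    ((algebraMap k M).comp (algebraMap (𝓞 k) k)).codRestrict
      (Algebra.adjoin ℤ (T : Set M)).toSubring h3, fun z => rfl⟩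

section
variable {k : Type} [Field k] [NumberField k] {M R B D K L : Type} {b d : ℕ}
  [Field M] [CharZero M] [Algebra k M]
  [Field K] [Field L] [CharZero K] [CharZero L] [Algebra K L]
  [Algebra (MvPolynomial (Fin (b + 1)) M) K] [IsFractionRing (MvPolynomial (Fin (b + 1)) M) K]
  [Algebra (MvPolynomial (Fin (b + 2)) M) L] [IsFractionRing (MvPolynomial (Fin (b + 2)) M) L]
  [CommRing R] [IsDomain R] [Algebra.FiniteType ℤ R] [Algebra R K] [IsFractionRing R K]
  [CommRing B] [IsDomain B] [Algebra.FiniteType ℤ B] [Algebra B L] [IsFractionRing B L] [Algebra R B]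
  [Algebra (𝓞 k) R]
  [CommRing D] [IsDedekindDomain D] [Algebra D L] [IsFractionRing D L] [Algebra B D]
  [IsScalarTower B D L]

/-- **The average for all the models.** -/
theorem all_models (hc : Cst M K L b) (hM : FG M) (hd : Algebra.trdeg ℚ M = d)
    (hD : GenLoc R B D)
    (hRB : ∀ r : R, algebraMap B L (algebraMap R B r) = algebraMap K L (algebraMap R K r))
    (hk : ∀ z : 𝓞 k, algebraMap R K (algebraMap (𝓞 k) R z) =
      algebraMap (MvPolynomial (Fin (b + 1)) M) K (C (algebraMap k M z)))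
    (O : ValuationSubring L) (hO : ∀ a : D, algebraMap D L a ∈ O → ∃ c : K, algebraMap K L c =
      algebraMap D L a) :
    Module.Finite ℤ (Additive (ClassGroup D)) ∧ ∃ N₀ : R, N₀ ≠ 0 ∧ ∀ N : R, N ≠ 0 → N₀ ∣ N →
      ∀ S : Finset (HeightOneSpectrum (𝓞 k)),
      Tendsto (fun T : ℝ => sumT S (avg (fun F _ ψ => sF B N F ψ) (d + b + 1)) T / T) atTop
        (𝓝 (-(Module.finrank ℤ (Additive (ClassGroup D)) : ℝ))) := by
  classical
  obtain ⟨A, iA, dA, aA, fA, frA, ρ, hρ⟩ := exists_A (k := k) hM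
  let _ : Algebra (MvPolynomial (Fin (b + 1)) A) K :=
    ((algebraMap (MvPolynomial (Fin (b + 1)) M) K).comp (mp A M (b + 1))).toAlgebra
  let _ : Algebra (MvPolynomial (Fin (b + 2)) A) L :=
    ((algebraMap (MvPolynomial (Fin (b + 2)) M) L).comp (mp A M (b + 2))).toAlgebra
  have hY : Comp A M (b + 1) K := fun p => rfl
  have hL : Comp A M (b + 2) L := fun p => rfl
  have hfrY : IsFractionRing (MvPolynomial (Fin (b + 1)) A) K := hY.frac
  have hfrΛ : IsFractionRing (MvPolynomial (Fin (b + 2)) A) L := hL.frac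
  have hftY := ft_trans (A := A) (S := MvPolynomial (Fin (b + 1)) A)
  have hftΛ := ft_trans (A := A) (S := MvPolynomial (Fin (b + 2)) A)
  have hftRB : Algebra.FiniteType R B := Algebra.FiniteType.of_restrictScalars_finiteType ℤ R B
  have hnR : IsNoetherianRing R := Algebra.FiniteType.isNoetherianRing ℤ R
  have hnB : IsNoetherianRing B := Algebra.FiniteType.isNoetherianRing ℤ B
  have hnA : IsNoetherianRing A := Algebra.FiniteType.isNoetherianRing ℤ A
  have hdK : Algebra.trdeg ℚ K = (d + b + 1 : ℕ) := by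
    rw [trdeg_mv (M := M) (n := b + 1) hd]
    rfl
  have hdL : Algebra.trdeg ℚ L = (d + b + 1 + 1 : ℕ) := by
    rw [trdeg_mv (M := M) (n := b + 2) hd]
    rfl
  have hinj : Function.Injective (algebraMap R B) := by
    intro a b h
    apply IsFractionRing.injective R K
    apply (algebraMap K L).injective
    rw [← hRB, ← hRB, h]
  obtain ⟨g, h, hg, hh, -, -, hgh⟩ := common (L := L) (A₁ := B) (A₂ := MvPolynomial (Fin (b + 2)) A)
    (u₀ := 1) one_ne_zero (v₀ := 1) one_ne_zero
  obtain ⟨r', s, hr', hs, -, -, hrs⟩ := common (L := K) (A₁ := R)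
    (A₂ := MvPolynomial (Fin (b + 1)) A) (u₀ := 1) one_ne_zero (v₀ := 1) one_ne_zero
  obtain ⟨ρ₁, hρ₁, l₁⟩ := lifts_of (R := R) (B := B) (K := K) (L := L) hRB hg
  obtain ⟨ρ₂, hρ₂, l₂⟩ := exists_units (R := R) (B := B) (K := K) (L := L) (D := D) hD hRB hg
  have hbB : ¬ Big B (d + b + 1 + 2) := by
    rw [big_frac L hdL]
    omega
  have hbR : Big R (d + b + 1) := (big_frac K hdK _).2 le_rfl
  obtain ⟨ρ₃, hρ₃, l₃⟩ := card_Pg (R := R) (B := B) (K := K) (L := L) (D := D) hD hRB hg hbB hbR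
  have hN₀ : r' * ρ₁ * ρ₂ * ρ₃ ≠ 0 := mul_ne_zero (mul_ne_zero (mul_ne_zero hr' hρ₁) hρ₂) hρ₃
  have key : ∀ N : R, N ≠ 0 → r' * ρ₁ * ρ₂ * ρ₃ ∣ N → Module.Finite ℤ (Additive (ClassGroup D)) ∧
      ∀ S : Finset (HeightOneSpectrum (𝓞 k)),
      Tendsto (fun T : ℝ => sumT S (avg (fun F _ ψ => sF B N F ψ) (d + b + 1)) T / T) atTop
        (𝓝 (-(Module.finrank ℤ (Additive (ClassGroup D)) : ℝ))) := by
    intro N hN hdvd
    have d1 : r' ∣ N := ((dvd_mul_right _ _).trans ((dvd_mul_right _ _).trans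
      (dvd_mul_right _ _))).trans hdvd
    have d2 : ρ₁ ∣ N := ((dvd_mul_left _ _).trans ((dvd_mul_right _ _).trans
      (dvd_mul_right _ _))).trans hdvd
    have d3 : ρ₂ ∣ N := ((dvd_mul_left _ _).trans (dvd_mul_right _ _)).trans hdvd
    have d4 : ρ₃ ∣ N := (dvd_mul_left _ _).trans hdvd
    have injL : ∀ {x : B}, x ≠ 0 → algebraMap B L x ≠ 0 := fun {x} h => by
      rwa [Ne, IsFractionRing.to_map_eq_zero_iff]
    have injK : ∀ {x : R}, x ≠ 0 → algebraMap R K x ≠ 0 := fun {x} h => by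
      rwa [Ne, IsFractionRing.to_map_eq_zero_iff]
    have injΛ : ∀ {x : MvPolynomial (Fin (b + 2)) A}, algebraMap _ L x ≠ 0 → x ≠ 0 :=
      fun {x} h h0 => h (by rw [h0, map_zero])
    have injY : ∀ {x : MvPolynomial (Fin (b + 1)) A}, algebraMap _ K x ≠ 0 → x ≠ 0 :=
      fun {x} h h0 => h (by rw [h0, map_zero])
    have hNB : algebraMap R B N ≠ 0 := (map_ne_zero_iff _ hinj).2 hN
    obtain ⟨nΛ, hnΛ, -, e₁⟩ := num (L := L) (A₁ := B) (A₂ := MvPolynomial (Fin (b + 2)) A)
      (injL hg) (by rwa [Ne, IsFractionRing.to_map_eq_zero_iff]) hgh (algebraMap R B N) (injL hNB)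
    obtain ⟨nY, hnY, -, e₂⟩ := num (L := K) (A₁ := R) (A₂ := MvPolynomial (Fin (b + 1)) A)
      (injK hr') (by rwa [Ne, IsFractionRing.to_map_eq_zero_iff]) hrs N (injK hN)
    rw [loc_mul_dvd (injK hN) d1] at e₂
    have hnΛ0 := injΛ hnΛ
    have hnY0 := injY hnY
    have hl : Lifts K L nY nΛ := l₁ N hN d2 (MvPolynomial (Fin (b + 1)) A)
      (MvPolynomial (Fin (b + 2)) A) hY.inj nY nΛ hnY0 e₁ e₂
    have hI : Incl K L nY nΛ := incl_of hRB e₁ e₂
    have hbA : Big A d := (big_frac M hd d).2 le_rfl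
    have hbA' : ¬ Big A (d + 1) := by
      rw [big_frac M hd]
      omega
    obtain ⟨-, fJY, cY⟩ := card_Vt (A := A) (M := M) (k := b) hbA hbA' hnY0
    obtain ⟨-, fJΛ, cΛ⟩ := card_Vt (A := A) (M := M) (k := b + 1) hbA hbA' hnΛ0
    have hfJY : Finite (Jt (MvPolynomial (Fin (b + 1)) M) (mp A M (b + 1) nY)) := fJY
    have hfJΛ : Finite (Jt (MvPolynomial (Fin (b + 2)) M) (mp A M (b + 2) nΛ)) := fJΛ
    obtain ⟨m1, m2⟩ := rank_main hc hY hL hD hRB O hO hg hN hnY0 hnΛ0 e₁ e₂ hl (l₂ N hN d3)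
    refine ⟨m1, fun S => ?_⟩
    have t := tau_main (k := k) hY hL hc hd hRB ρ (fun z => by
      rw [hk, hY, ← hρ]
      simp only [mp, map_C]) hg hN hnY0 hnΛ0 e₁ e₂ S
    have cW := card_Wt_eq hc hY hL hnY0 hnΛ0 hI hl d
    have cP := l₃ N hN d4
    convert t using 2
    rw [show d + b + 1 = d + (b + 1) from rfl, cΛ, cY, show d + (b + 1) = d + b + 1 from rfl, cP, cW]
    have m3 : (Module.finrank ℤ (Additive (ClassGroup D)) : ℝ) +
        Nat.card (Jt (MvPolynomial (Fin (b + 2)) M) (mp A M (b + 2) nΛ)) =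
        Nat.card (Pg (algebraMap B D g)) +
          Nat.card (Jt (MvPolynomial (Fin (b + 1)) M) (mp A M (b + 1) nY)) := by exact_mod_cast m2
    push_cast
    show -(Module.finrank ℤ (Additive (ClassGroup D)) : ℝ) =
      (Nat.card (Jt (MvPolynomial (Fin (b + 2)) M) (mp A M (b + 2) nΛ)) : ℝ) +
        Nat.card (Wt A d nY) - (Nat.card (Jt (MvPolynomial (Fin (b + 1)) M) (mp A M (b + 1) nY)) +
        Nat.card (Wt A d nY)) - Nat.card (Pg (algebraMap B D g))
    linear_combination -m3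
  exact ⟨(key _ hN₀ dvd_rfl).1, _, hN₀, fun N hN hdvd => (key N hN hdvd).2⟩

end

end Pool.Agent.V7H34.NT
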