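import Pool.Agent.R410.BS.Pln
import Pool.Agent.W385.CP.Poly

/-!
# Asymptotic values over the finite fields
-/

set_option autoImplicit false
set_option linter.all false

open Polynomial NumberField

namespace Pool.Agent.V7H34.NT

open Pool.Agent.R410.BS (landau_all)
open Pool.Agent.R410.LW (FG)

section
variable {κ : Type} [Fintype κ] (L : κ → Type) [∀ j, Field (L j)] [∀ j, NumberField (L j)]
  (a : κ → ℝ)

/-- the combination of the numbers of the homomorphisms to a finite field -/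
noncomputable def cF (F : Type) [CommRing F] : ℝ := ∑ j, a j * (Nat.card (𝓞 (L j) →+* F) : ℝ)

/-- a bound -/
noncomputable def cB : ℝ := ∑ j, |a j| * (Module.finrank ℤ (𝓞 (L j)) : ℝ)

theorem cF_le (F : Type) [Field F] [Finite F] : |cF L a F| ≤ cB L a := by
  unfold cF cB
  refine (Finset.abs_sum_le_sum_abs _ _).trans (Finset.sum_le_sum fun j _ => ?_)
  rw [abs_mul, Nat.abs_cast]
  refine mul_le_mul_of_nonneg_left ?_ (abs_nonneg _)
  exact_mod_cast (Pool.Agent.W385.CP.hom_int (L j) F).2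

end

/-- a function of the finite fields -/
abbrev Ff : Type 1 := ∀ (F : Type) [Field F] [Finite F], ℝ

/-- The value is asymptotically `q^e` times a combination, with the sum `r` of the coefficients, of the
numbers of the homomorphisms from rings of integers. -/
def Asy (T : Ff) (e : ℕ) (r : ℝ) : Prop :=
  ∃ (κ : Type) (_ : Fintype κ) (L : κ → Type) (_ : ∀ j, Field (L j)) (_ : ∀ j, NumberField (L j))
    (a : κ → ℝ), ∑ j, a j = r ∧ ∃ (C : ℝ) (N : ℕ), 0 ≤ C ∧ N ≠ 0 ∧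
      ∀ (F : Type) [Field F] [Finite F], ((N : ℕ) : F) ≠ 0 →
        |T F - cF L a F * (Nat.card F : ℝ) ^ e| * √(Nat.card F : ℝ) ≤ C * (Nat.card F : ℝ) ^ e

theorem Asy.near {T T' : Ff} {e : ℕ} {r : ℝ} (h : Asy T e r)
    (h' : ∃ (C : ℝ) (N : ℕ), 0 ≤ C ∧ N ≠ 0 ∧ ∀ (F : Type) [Field F] [Finite F], ((N : ℕ) : F) ≠ 0 →
      |T' F - T F| * √(Nat.card F : ℝ) ≤ C * (Nat.card F : ℝ) ^ e) : Asy T' e r := by
  obtain ⟨κ, i1, L, i2, i3, a, ha, C, N, hC, hN, h1⟩ := h
  obtain ⟨C', N', hC', hN', h2⟩ := h'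
  refine ⟨κ, i1, L, i2, i3, a, ha, C + C', N * N', add_nonneg hC hC', mul_ne_zero hN hN', ?_⟩
  intro F _ _ hF
  rw [Nat.cast_mul] at hF
  have e1 := h1 F (left_ne_zero_of_mul hF)
  have e2 := h2 F (right_ne_zero_of_mul hF)
  have hs : 0 ≤ √(Nat.card F : ℝ) := Real.sqrt_nonneg _
  calc |T' F - cF L a F * (Nat.card F : ℝ) ^ e| * √(Nat.card F : ℝ) ≤
      (|T' F - T F| + |T F - cF L a F * (Nat.card F : ℝ) ^ e|) * √(Nat.card F : ℝ) :=
        mul_le_mul_of_nonneg_right (abs_sub_le _ _ _) hs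
    _ ≤ (C + C') * (Nat.card F : ℝ) ^ e := by
        rw [add_mul, add_mul]
        linarith

theorem Asy.congr {T T' : Ff} {e : ℕ} {r : ℝ} (h : Asy T e r) (N : ℕ) (hN : N ≠ 0)
    (h' : ∀ (F : Type) [Field F] [Finite F], ((N : ℕ) : F) ≠ 0 → T' F = T F) : Asy T' e r := by
  refine h.near ⟨0, N, le_rfl, hN, fun F _ _ hF => ?_⟩
  rw [h' F hF, sub_self, abs_zero, zero_mul, zero_mul]

theorem Asy.zero (e : ℕ) : Asy (fun _ _ _ => 0) e 0 := by
  refine ⟨Empty, inferInstance, fun x => x.elim, fun x => x.elim, fun x => x.elim, fun x => x.elim,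
    by simp, 0, 1, le_rfl, one_ne_zero, fun F _ _ _ => ?_⟩
  unfold cF
  simp

theorem Asy.add {T T' : Ff} {e : ℕ} {r r' : ℝ} (h : Asy T e r) (h' : Asy T' e r') :
    Asy (fun F _ _ => T F + T' F) e (r + r') := by
  obtain ⟨κ, i1, L, i2, i3, a, ha, C, N, hC, hN, h1⟩ := h
  obtain ⟨κ', i1', L', i2', i3', a', ha', C', N', hC', hN', h2⟩ := h'
  let Ls : κ ⊕ κ' → Type := Sum.elim L L'
  let iLs : ∀ k, Field (Ls k) := fun k => match k with
    | Sum.inl z => i2 z
    | Sum.inr z => i2' z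
  have nLs : ∀ k, NumberField (Ls k) := fun k => match k with
    | Sum.inl z => i3 z
    | Sum.inr z => i3' z
  have hcF : ∀ (F : Type) [Field F], cF Ls (Sum.elim a a') F = cF L a F + cF L' a' F := by
    intro F _
    unfold cF
    rw [Fintype.sum_sum_type]
    rfl
  refine ⟨κ ⊕ κ', inferInstance, Ls, iLs, nLs, Sum.elim a a', ?_, C + C', N * N',
    add_nonneg hC hC', mul_ne_zero hN hN', ?_⟩
  · rw [Fintype.sum_sum_type]
    simp only [Sum.elim_inl, Sum.elim_inr]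
    rw [ha, ha']
  intro F _ _ hF
  rw [Nat.cast_mul] at hF
  have e1 := h1 F (left_ne_zero_of_mul hF)
  have e2 := h2 F (right_ne_zero_of_mul hF)
  rw [hcF]
  have hs : 0 ≤ √(Nat.card F : ℝ) := Real.sqrt_nonneg _
  have e3 : T F + T' F - (cF L a F + cF L' a' F) * (Nat.card F : ℝ) ^ e =
      (T F - cF L a F * (Nat.card F : ℝ) ^ e) + (T' F - cF L' a' F * (Nat.card F : ℝ) ^ e) := by ring
  rw [e3]
  calc _ ≤ (|T F - cF L a F * (Nat.card F : ℝ) ^ e| + |T' F - cF L' a' F * (Nat.card F : ℝ) ^ e|) *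
        √(Nat.card F : ℝ) := mul_le_mul_of_nonneg_right (abs_add_le _ _) hs
    _ ≤ (C + C') * (Nat.card F : ℝ) ^ e := by
        rw [add_mul, add_mul]
        linarith

theorem Asy.smul {T : Ff} {e : ℕ} {r : ℝ} (h : Asy T e r) (m : ℝ) :
    Asy (fun F _ _ => m * T F) e (m * r) := by
  obtain ⟨κ, i1, L, i2, i3, a, ha, C, N, hC, hN, h1⟩ := h
  refine ⟨κ, i1, L, i2, i3, fun j => m * a j, by rw [← Finset.mul_sum, ha], |m| * C, N,
    mul_nonneg (abs_nonneg _) hC, hN, ?_⟩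
  intro F _ _ hF
  have e1 := h1 F hF
  have e2 : cF L (fun j => m * a j) F = m * cF L a F := by
    unfold cF
    rw [Finset.mul_sum]
    exact Finset.sum_congr rfl fun j _ => by ring
  rw [e2, show m * T F - m * cF L a F * (Nat.card F : ℝ) ^ e =
    m * (T F - cF L a F * (Nat.card F : ℝ) ^ e) by ring, abs_mul, mul_assoc, mul_assoc]
  exact mul_le_mul_of_nonneg_left e1 (abs_nonneg _)

theorem Asy.neg {T : Ff} {e : ℕ} {r : ℝ} (h : Asy T e r) : Asy (fun F _ _ => -T F) e (-r) := by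
  have h1 := h.smul (-1)
  rw [show (-1 : ℝ) * r = -r by ring] at h1
  refine h1.congr 1 one_ne_zero fun F _ _ _ => ?_
  ring

theorem Asy.sum {ι : Type} (s : Finset ι) (T : ι → Ff) {e : ℕ} (r : ι → ℝ)
    (h : ∀ i ∈ s, Asy (T i) e (r i)) : Asy (fun F _ _ => ∑ i ∈ s, T i F) e (∑ i ∈ s, r i) := by
  classical
  induction s using Finset.induction_on with
  | empty =>
    rw [Finset.sum_empty]
    exact (Asy.zero e).congr 1 one_ne_zero fun F _ _ _ => Finset.sum_empty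
  | insert i s hi ih =>
    rw [Finset.sum_insert hi]
    refine ((h i (Finset.mem_insert_self _ _)).add (ih fun j hj =>
      h j (Finset.mem_insert_of_mem hj))).congr 1 one_ne_zero fun F _ _ _ => ?_
    exact Finset.sum_insert hi

theorem Asy.mulq {T : Ff} {e : ℕ} {r : ℝ} (h : Asy T e r) :
    Asy (fun F _ _ => (Nat.card F : ℝ) * T F) (e + 1) r := by
  obtain ⟨κ, i1, L, i2, i3, a, ha, C, N, hC, hN, h1⟩ := h
  refine ⟨κ, i1, L, i2, i3, a, ha, C, N, hC, hN, ?_⟩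
  intro F _ _ hF
  have e1 := h1 F hF
  have hq : (0 : ℝ) ≤ (Nat.card F : ℝ) := Nat.cast_nonneg _
  have e2 : (Nat.card F : ℝ) * T F - cF L a F * (Nat.card F : ℝ) ^ (e + 1) =
      (Nat.card F : ℝ) * (T F - cF L a F * (Nat.card F : ℝ) ^ e) := by ring
  rw [e2, abs_mul, abs_of_nonneg hq]
  calc (Nat.card F : ℝ) * |T F - cF L a F * (Nat.card F : ℝ) ^ e| * √(Nat.card F : ℝ) =
      (Nat.card F : ℝ) * (|T F - cF L a F * (Nat.card F : ℝ) ^ e| * √(Nat.card F : ℝ)) := by ring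
    _ ≤ (Nat.card F : ℝ) * (C * (Nat.card F : ℝ) ^ e) := mul_le_mul_of_nonneg_left e1 hq
    _ = _ := by ring

end Pool.Agent.V7H34.NT
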