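import Mathlib

/-!
# Dimensions of domains over the integers
-/

set_option autoImplicit false
set_option linter.all false

namespace Pool.Agent.V7H34.NT

open Cardinal Polynomial

/-- There are `e` elements which are algebraically independent over the integers. -/
def Big (A : Type) [CommRing A] (e : ℕ) : Prop := ∃ x : Fin e → A, AlgebraicIndependent ℤ x

section
variable {A B : Type} [CommRing A] [CommRing B]

theorem Big.map {e : ℕ} (h : Big A e) (f : A →+* B) (hf : Function.Injective f) : Big B e := by
  obtain ⟨x, hx⟩ := h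
  exact ⟨f.toIntAlgHom ∘ x, hx.map' (f := f.toIntAlgHom) hf⟩

theorem Big.congr {e : ℕ} (f : A ≃+* B) : Big A e ↔ Big B e :=
  ⟨fun h => h.map (f : A →+* B) f.injective, fun h => h.map (f.symm : B →+* A) f.symm.injective⟩

theorem Big.of_embedding {ι : Type} {e : ℕ} (j : Fin e ↪ ι) {x : ι → A}
    (hx : AlgebraicIndependent ℤ x) : Big A e := ⟨x ∘ j, hx.comp j j.injective⟩

theorem Big.mono {e e' : ℕ} (h : Big A e) (he : e' ≤ e) : Big A e' := by
  obtain ⟨x, hx⟩ := h
  exact Big.of_embedding (Fin.castLEEmb he) hx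

theorem Big.charZero {e : ℕ} (h : Big A e) : CharZero A := by
  obtain ⟨x, hx⟩ := h
  exact charZero_of_injective_algebraMap hx.algebraMap_injective

/-- A proper quotient of a domain is of smaller dimension. -/
theorem drop {p q : Ideal A} (hp : p.IsPrime) (hlt : p < q) {e : ℕ} (h : Big (A ⧸ q) e) :
    Big (A ⧸ p) (e + 1) := by
  obtain ⟨y, hy⟩ := h
  choose z hz using fun i => Ideal.Quotient.mk_surjective (I := q) (y i)
  let f : (A ⧸ p) →ₐ[ℤ] (A ⧸ q) := (Ideal.Quotient.factor hlt.le).toIntAlgHom
  let x : Fin e → A ⧸ p := fun i => Ideal.Quotient.mk p (z i)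
  have hfx : f ∘ x = y := by
    funext i
    show Ideal.Quotient.factor hlt.le (Ideal.Quotient.mk p (z i)) = y i
    rw [Ideal.Quotient.factor_mk, hz]
  have hx : AlgebraicIndependent ℤ x := by
    refine AlgebraicIndependent.of_comp f ?_
    rw [hfx]
    exact hy
  obtain ⟨a, haq, hap⟩ := SetLike.exists_of_lt hlt
  have ha0 : Ideal.Quotient.mk p a ≠ 0 := fun h0 => hap (Ideal.Quotient.eq_zero_iff_mem.1 h0)
  have hfa : f (Ideal.Quotient.mk p a) = 0 := by
    show Ideal.Quotient.factor hlt.le (Ideal.Quotient.mk p a) = 0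
    rw [Ideal.Quotient.factor_mk]
    exact Ideal.Quotient.eq_zero_iff_mem.2 haq
  have ht : Transcendental (Algebra.adjoin ℤ (Set.range x)) (Ideal.Quotient.mk p a) := by
    intro halg
    obtain ⟨Q, hQ0, hQ⟩ := halg.exists_nonzero_coeff_and_aeval_eq_zero
      (mem_nonZeroDivisors_of_ne_zero ha0)
    apply hQ0
    -- the constant coefficient is mapped to zero
    have h1 : f ((Q.coeff 0 : Algebra.adjoin ℤ (Set.range x)) : A ⧸ p) = 0 := by
      have h2 := Q.divX_mul_X_add
      have h3 : aeval (Ideal.Quotient.mk p a) Q = aeval (Ideal.Quotient.mk p a) Q.divX *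
          Ideal.Quotient.mk p a + ((Q.coeff 0 : Algebra.adjoin ℤ (Set.range x)) : A ⧸ p) := by
        conv_lhs => rw [← h2]
        rw [map_add, map_mul, aeval_X, aeval_C]
        rfl
      have h4 := congrArg f h3
      rw [hQ, map_zero, map_add, map_mul, hfa, mul_zero, zero_add] at h4
      exact h4.symm
    obtain ⟨P, hP⟩ : ∃ P : MvPolynomial (Fin e) ℤ, MvPolynomial.aeval x P =
        ((Q.coeff 0 : Algebra.adjoin ℤ (Set.range x)) : A ⧸ p) := by
      have h5 : ∀ c ∈ Algebra.adjoin ℤ (Set.range x), ∃ P : MvPolynomial (Fin e) ℤ,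
          MvPolynomial.aeval x P = c := by
        intro c hc
        rw [Algebra.adjoin_range_eq_range_aeval] at hc
        exact hc
      exact h5 _ (Q.coeff 0).2
    have h6 : MvPolynomial.aeval y P = 0 := by
      rw [← hfx]
      have h9 : MvPolynomial.aeval (f ∘ x) P = f (MvPolynomial.aeval x P) := by
        have h10 : (MvPolynomial.aeval (f ∘ x) : MvPolynomial (Fin e) ℤ →ₐ[ℤ] A ⧸ q) =
            f.comp (MvPolynomial.aeval x) := by
          apply MvPolynomial.algHom_ext
          intro i
          rw [MvPolynomial.aeval_X, AlgHom.comp_apply, MvPolynomial.aeval_X]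
          rfl
        rw [h10]
        rfl
      rw [h9, hP, h1]
    have h7 : P = 0 := (injective_iff_map_eq_zero _).1
      (algebraicIndependent_iff_injective_aeval.1 hy) P h6
    apply Subtype.ext
    rw [← hP, h7, map_zero]
    rfl
  have h8 := (hx.option_iff_transcendental _).2 ht
  exact ⟨_, (algebraicIndependent_equiv' (finSuccEquiv e) rfl).2 h8⟩

/-- the transcendence degree over the integers -/
noncomputable def tdim (A : Type) [CommRing A] : Cardinal.{0} := Algebra.trdeg ℤ A

theorem big_iff [IsDomain A] [CharZero A] {e : ℕ} : Big A e ↔ (e : Cardinal.{0}) ≤ tdim A := by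
  constructor
  · rintro ⟨x, hx⟩
    have h := hx.cardinalMk_le_trdeg
    rwa [mk_fin] at h
  · intro h
    have : FaithfulSMul ℤ A := (faithfulSMul_iff_algebraMap_injective ℤ A).2
      (RingHom.injective_int (algebraMap ℤ A))
    obtain ⟨s, hs⟩ := exists_isTranscendenceBasis ℤ A
    unfold tdim at h
    rw [← hs.cardinalMk_eq_trdeg, ← mk_fin, Cardinal.le_def] at h
    obtain ⟨j⟩ := h
    exact Big.of_embedding j hs.1

theorem tdim_add [IsDomain A] [CharZero A] [IsDomain B] [Algebra A B]
    (hinj : Function.Injective (algebraMap A B)) : tdim A + Algebra.trdeg A B = tdim B := by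
  unfold tdim
  have h0 : FaithfulSMul ℤ A := (faithfulSMul_iff_algebraMap_injective ℤ A).2
    (RingHom.injective_int (algebraMap ℤ A))
  have h2 : FaithfulSMul A B := (faithfulSMul_iff_algebraMap_injective A B).2 hinj
  have h1 : IsScalarTower ℤ A B := IsScalarTower.of_algebraMap_eq' (RingHom.ext_int _ _)
  exact trdeg_add_eq ℤ A (A := B)

theorem tdim_mv [IsDomain A] [CharZero A] (k : ℕ) :
    tdim (MvPolynomial (Fin k) A) = tdim A + k := by
  have h := tdim_add (A := A) (B := MvPolynomial (Fin k) A) (MvPolynomial.C_injective _ _)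
  rw [MvPolynomial.trdeg_of_isDomain] at h
  simpa using h.symm

/-- The condition does not depend on the number of the variables. -/
theorem big_shift [IsDomain A] (k d : ℕ) :
    Big (MvPolynomial (Fin (k + 1)) A) (d + k) ↔
      CharZero A ∧ (d : Cardinal.{0}) ≤ tdim A + 1 := by
  constructor
  · intro h
    have h1 := h.charZero
    have h2 : CharZero A := (MvPolynomial.C (σ := Fin (k + 1)) (R := A)).charZero
    refine ⟨h2, ?_⟩
    rw [big_iff, tdim_mv] at h
    push_cast at h
    rw [add_comm (k : Cardinal.{0}) 1, ← add_assoc] at h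
    exact (Cardinal.add_le_add_iff_of_lt_aleph0 (Cardinal.natCast_lt_aleph0)).1 h
  · rintro ⟨h2, h⟩
    rw [big_iff, tdim_mv]
    push_cast
    rw [add_comm (k : Cardinal.{0}) 1, ← add_assoc]
    gcongr

variable {M : Type} [Field M] [CharZero M] [Algebra A M] [IsFractionRing A M]

theorem tdim_frac [IsDomain A] : tdim A = Algebra.trdeg ℚ M := by
  have h1 : Function.Injective (algebraMap A M) := IsFractionRing.injective A M
  have hc : CharZero A := (algebraMap A M).charZero
  have h6 := tdim_add (A := A) (B := M) h1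
  have h7 : Algebra.IsAlgebraic A M := IsLocalization.isAlgebraic (R := A) (S := M) (nonZeroDivisors A)
  rw [trdeg_eq_zero (R := A) (A := M), add_zero] at h6
  have h8 : Algebra.IsAlgebraic ℤ ℚ := IsLocalization.isAlgebraic (R := ℤ) (S := ℚ) (nonZeroDivisors ℤ)
  have h9 := trdeg_add_eq ℤ ℚ (A := M)
  rw [trdeg_eq_zero (R := ℤ) (A := ℚ), zero_add] at h9
  rw [h6, h9]
  rfl

theorem big_frac [IsDomain A] (M : Type) [Field M] [CharZero M] [Algebra A M] [IsFractionRing A M]
    {d : ℕ} (hd : Algebra.trdeg ℚ M = d) (e : ℕ) : Big A e ↔ e ≤ d := by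
  have hc : CharZero A := (algebraMap A M).charZero
  rw [big_iff, tdim_frac (M := M), hd]
  exact Nat.cast_le

end

end Pool.Agent.V7H34.NT
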