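import Pool.Agent.V7H34.NT.Ufd

/-!
# The class group and the units of a localization
-/

set_option autoImplicit false
set_option linter.all false

namespace Pool.Agent.V7H34.NT

open IsDedekindDomain FractionalIdeal
open scoped nonZeroDivisors

section
variable {D L : Type} [CommRing D] [IsDedekindDomain D] [Field L] [Algebra D L] [IsFractionRing D L]

variable (L) in
/-- the order of a fractional ideal at a prime -/
noncomputable def cnt (v : HeightOneSpectrum D) : Additive (FractionalIdeal D⁰ L)ˣ →+ ℤ where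
  toFun I := count L v (I.toMul : FractionalIdeal D⁰ L)
  map_zero' := by
    rw [toMul_zero, Units.val_one]
    exact count_one L v
  map_add' I J := by
    rw [toMul_add, Units.val_mul]
    exact count_mul L v (Units.ne_zero _) (Units.ne_zero _)

variable (D L) in
/-- principal ideals -/
noncomputable def prin : Additive Lˣ →+ Additive (FractionalIdeal D⁰ L)ˣ :=
  (toPrincipalIdeal D L).toAdditive

/-- the order of an element at a prime -/
noncomputable def dv (v : HeightOneSpectrum D) : Additive Lˣ →+ ℤ := (cnt L v).comp (prin D L)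

theorem dv_apply (v : HeightOneSpectrum D) (x : Additive Lˣ) :
    dv v x = count L v (spanSingleton D⁰ (x.toMul : L)) := by
  show count L v ((toPrincipalIdeal D L x.toMul : (FractionalIdeal D⁰ L)ˣ) : FractionalIdeal D⁰ L) = _
  rw [coe_toPrincipalIdeal]

theorem cnt_inj {I : Additive (FractionalIdeal D⁰ L)ˣ} (h : ∀ v, cnt L v I = 0) : I = 0 := by
  have h1 := finprod_heightOneSpectrum_factorization' L
    (I := (I.toMul : FractionalIdeal D⁰ L)) (Units.ne_zero _)
  have h2 : ∀ v : HeightOneSpectrum D, (v.asIdeal : FractionalIdeal D⁰ L) ^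
      (count L v (I.toMul : FractionalIdeal D⁰ L)) = 1 := by
    intro v
    have h3 : count L v (I.toMul : FractionalIdeal D⁰ L) = 0 := h v
    rw [h3, zpow_zero]
  rw [finprod_congr h2, finprod_one] at h1
  apply Additive.toMul.injective
  apply Units.ext
  rw [← h1, toMul_zero, Units.val_one]

theorem dv_nonneg {v : HeightOneSpectrum D} {x : Additive Lˣ} {a : D}
    (h : (x.toMul : L) = algebraMap D L a) : 0 ≤ dv v x := by
  rw [dv_apply, h, ← coeIdeal_span_singleton]
  exact count_coe_nonneg L v _

theorem mem_of_dv {x : Additive Lˣ} (h : ∀ v : HeightOneSpectrum D, 0 ≤ dv v x) :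
    ∃ a : D, (x.toMul : L) = algebraMap D L a := by
  have h0 : spanSingleton D⁰ (x.toMul : L) ≠ 0 := by
    rw [Ne, spanSingleton_eq_zero_iff]
    exact Units.ne_zero _
  have h1 := finprod_heightOneSpectrum_factorization' L h0
  have h2 : spanSingleton D⁰ (x.toMul : L) ≤ 1 := by
    rw [← h1]
    refine finprod_induction (fun I : FractionalIdeal D⁰ L => I ≤ 1) le_rfl
      (fun I J hI hJ => mul_le_one' hI hJ) fun v => ?_
    have h3 := h v
    rw [dv_apply] at h3
    obtain ⟨n, hn⟩ := Int.eq_ofNat_of_zero_le h3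
    show _ ^ (count L v (spanSingleton D⁰ (x.toMul : L))) ≤ (1 : FractionalIdeal D⁰ L)
    rw [hn, zpow_natCast]
    exact pow_le_one' coeIdeal_le_one n
  have h4 : (x.toMul : L) ∈ (1 : FractionalIdeal D⁰ L) := h2 (mem_spanSingleton_self D⁰ _)
  rw [mem_one_iff] at h4
  obtain ⟨a, ha⟩ := h4
  exact ⟨a, ha.symm⟩

theorem dv_zero_of_notMem {v : HeightOneSpectrum D} {x : Additive Lˣ} {g : D} (hg : g ∉ v.asIdeal)
    (h : (x.toMul : L) = algebraMap D L g) : dv v x = 0 := by
  classical
  have hg0 : Ideal.span {g} ≠ 0 := by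
    intro h0
    rw [Ideal.zero_eq_bot, Ideal.span_singleton_eq_bot] at h0
    exact hg (by rw [h0]; exact Ideal.zero_mem _)
  rw [dv_apply, h, ← coeIdeal_span_singleton, count_coe L v hg0]
  have h1 : ¬ v.asIdeal ∣ Ideal.span {g} := by
    rw [Ideal.dvd_span_singleton]
    exact hg
  by_contra hcon
  exact h1 ((Associates.count_ne_zero_iff_dvd hg0 v.irreducible).1 (by exact_mod_cast hcon))

theorem dv_pos_of_mem {v : HeightOneSpectrum D} {x : Additive Lˣ} {g : D} (hg : g ∈ v.asIdeal)
    (h : (x.toMul : L) = algebraMap D L g) : 0 < dv v x := by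
  classical
  have hg0 : Ideal.span {g} ≠ 0 := by
    intro h0
    rw [Ideal.zero_eq_bot, Ideal.span_singleton_eq_bot] at h0
    rw [h0, map_zero] at h
    exact Units.ne_zero _ h
  rw [dv_apply, h, ← coeIdeal_span_singleton, count_coe L v hg0]
  have h1 : v.asIdeal ∣ Ideal.span {g} := by
    rw [Ideal.dvd_span_singleton]
    exact hg
  have h2 := (Associates.count_ne_zero_iff_dvd hg0 v.irreducible).2 h1
  exact_mod_cast Nat.pos_of_ne_zero h2

/-- the primes which contain `g` -/
abbrev Pg (g : D) : Type := {v : HeightOneSpectrum D // g ∈ v.asIdeal}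

theorem finite_Pg {g : D} (hg : g ≠ 0) : Finite (Pg g) := by
  have h0 : Ideal.span {g} ≠ 0 := by
    rw [Ideal.zero_eq_bot, Ne, Ideal.span_singleton_eq_bot]
    exact hg
  have h1 := Ideal.finite_factors h0
  refine (h1.subset fun v hv => ?_).to_subtype
  show v.asIdeal ∣ Ideal.span {g}
  rw [Ideal.dvd_span_singleton]
  exact hv

/-- **The units outside the primes which contain `g`.** -/
theorem mem_units_iff {g : D} (hg : g ≠ 0) {x : Additive Lˣ} :
    x ∈ unitsIn (loc D (L := L) g) ↔ ∀ v : HeightOneSpectrum D, g ∉ v.asIdeal → dv v x = 0 := by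
  classical
  have hg' : algebraMap D L g ≠ 0 := by rwa [Ne, IsFractionRing.to_map_eq_zero_iff]
  let γ : Additive Lˣ := Additive.ofMul (Units.mk0 _ hg')
  have hγ : (γ.toMul : L) = algebraMap D L g := rfl
  have key : ∀ (y : Additive Lˣ) (v : HeightOneSpectrum D), g ∉ v.asIdeal →
      (y.toMul : L) ∈ loc D (L := L) g → 0 ≤ dv v y := by
    rintro y v hv ⟨n, a, ha⟩
    have h1 : 0 ≤ dv v (n • γ + y) := by
      refine dv_nonneg (a := a) ?_
      rw [toMul_add, toMul_nsmul, Units.val_mul, Units.val_pow_eq_pow_val, hγ, ha]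
    rw [map_add, map_nsmul, dv_zero_of_notMem hv hγ, smul_zero, zero_add] at h1
    exact h1
  constructor
  · rintro ⟨h1, h2⟩ v hv
    have h3 := key x v hv h1
    have h4 := key (-x) v hv (by rw [toMul_neg, Units.val_inv_eq_inv_val]; exact h2)
    rw [map_neg] at h4
    omega
  · intro h
    have := finite_Pg hg
    let _ := Fintype.ofFinite (Pg g)
    have main : ∀ y : Additive Lˣ, (∀ v : HeightOneSpectrum D, g ∉ v.asIdeal → dv v y = 0) →
        (y.toMul : L) ∈ loc D (L := L) g := by
      intro y hy
      let n : ℕ := ∑ P : Pg g, (dv P.1 y).natAbs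
      have h1 : ∀ v : HeightOneSpectrum D, 0 ≤ dv v (n • γ + y) := by
        intro v
        rw [map_add, map_nsmul]
        by_cases hv : g ∈ v.asIdeal
        · have h2 := dv_pos_of_mem hv hγ
          have h3 : (dv v y).natAbs ≤ n :=
            Finset.single_le_sum (f := fun P : Pg g => (dv P.1 y).natAbs)
              (fun P _ => Nat.zero_le _) (Finset.mem_univ (⟨v, hv⟩ : Pg g))
          have h4 : (n : ℤ) ≤ n • dv v γ := by
            rw [nsmul_eq_mul]
            nlinarith
          omega
        · rw [dv_zero_of_notMem hv hγ, smul_zero, zero_add, hy v hv]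
      obtain ⟨a, ha⟩ := mem_of_dv h1
      refine ⟨n, a, ?_⟩
      rw [← ha, toMul_add, toMul_nsmul, Units.val_mul, Units.val_pow_eq_pow_val, hγ]
    refine ⟨main x h, ?_⟩
    have h1 := main (-x) fun v hv => by rw [map_neg, h v hv, neg_zero]
    rwa [toMul_neg, Units.val_inv_eq_inv_val] at h1

/-- the orders at the primes which contain `g` -/
noncomputable def dvg (g : D) : Additive Lˣ →ₗ[ℤ] (Pg g → ℤ) :=
  LinearMap.pi fun P => (dv P.1).toIntLinearMap

theorem dvg_apply (g : D) (x : Additive Lˣ) (P : Pg g) : dvg g x P = dv P.1 x := rfl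

variable (L) in
/-- a prime as a fractional ideal -/
noncomputable def pI (v : HeightOneSpectrum D) : Additive (FractionalIdeal D⁰ L)ˣ :=
  Additive.ofMul (Units.mk0 (v.asIdeal : FractionalIdeal D⁰ L) (coeIdeal_ne_zero.mpr v.ne_bot))

theorem cnt_pI (v w : HeightOneSpectrum D) [Decidable (v = w)] :
    cnt L w (pI L v) = if v = w then 1 else 0 :=
  count_maximal L w v

variable (D L) in
/-- the class of a fractional ideal -/
noncomputable def cl : Additive (FractionalIdeal D⁰ L)ˣ →+ Additive (ClassGroup D) :=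
  (ClassGroup.mk (R := D) L).toAdditive

theorem cl_surj : Function.Surjective (cl D L) := by
  intro c
  obtain ⟨I, hI⟩ := QuotientGroup.mk'_surjective _ (ClassGroup.equiv L c.toMul)
  refine ⟨Additive.ofMul I, ?_⟩
  apply Additive.toMul.injective
  apply (ClassGroup.equiv L).injective
  rw [← hI]
  show ClassGroup.equiv L (ClassGroup.mk L I) = _
  rw [ClassGroup.equiv_mk, canonicalEquiv_self]
  rfl

theorem cl_eq_zero {I : Additive (FractionalIdeal D⁰ L)ˣ} : cl D L I = 0 ↔ ∃ x, prin D L x = I := by
  have h1 : cl D L I = 0 ↔ ClassGroup.mk L I.toMul = 1 := Iff.rfl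
  rw [h1, ← (ClassGroup.equiv L).injective.eq_iff, ClassGroup.equiv_mk, canonicalEquiv_self, map_one]
  have h2 : Units.mapEquiv (RingEquiv.refl (FractionalIdeal D⁰ L)).toMulEquiv I.toMul = I.toMul := by
    ext
    rfl
  rw [show (Units.mapEquiv (↑(RingEquiv.refl (FractionalIdeal D⁰ L)))) I.toMul = I.toMul from h2]
  rw [QuotientGroup.mk'_apply, QuotientGroup.eq_one_iff]
  constructor
  · rintro ⟨x, hx⟩
    exact ⟨Additive.ofMul x, congrArg Additive.ofMul hx⟩
  · rintro ⟨x, hx⟩
    exact ⟨x.toMul, congrArg Additive.toMul hx⟩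

open Classical in
/-- **The rank of the class group.** -/
theorem cls_rank {g : D} (hg : g ≠ 0)
    (hS : ∀ v : HeightOneSpectrum D, g ∉ v.asIdeal → ∃ x : Additive Lˣ, ∀ w : HeightOneSpectrum D,
      g ∉ w.asIdeal → dv w x = if v = w then 1 else 0) :
    Module.Finite ℤ (Additive (ClassGroup D)) ∧
    Module.rank ℤ (Additive (ClassGroup D)) +
      Module.rank ℤ ((unitsIn (loc D (L := L) g)).map (dvg g)) = Nat.card (Pg g) := by
  classical
  have := finite_Pg hg
  let _ := Fintype.ofFinite (Pg g)
  let ι : (Pg g → ℤ) →ₗ[ℤ] Additive (FractionalIdeal D⁰ L)ˣ :=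
    Fintype.linearCombination ℤ fun P : Pg g => pI L P.1
  have hι : ∀ (e : Pg g → ℤ) (w : HeightOneSpectrum D), cnt L w (ι e) =
      if h : g ∈ w.asIdeal then e ⟨w, h⟩ else 0 := by
    intro e w
    show cnt L w (Fintype.linearCombination ℤ (fun P : Pg g => pI L P.1) e) = _
    rw [Fintype.linearCombination_apply, map_sum]
    simp only [map_zsmul, cnt_pI]
    split_ifs with h
    · rw [Finset.sum_eq_single (⟨w, h⟩ : Pg g)]
      · rw [if_pos rfl, smul_eq_mul, mul_one]
      · intro P _ hP
        rw [if_neg (fun h' => hP (Subtype.ext h')), smul_zero]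
      · intro h'
        exact absurd (Finset.mem_univ _) h'
    · refine Finset.sum_eq_zero fun P _ => ?_
      rw [if_neg, smul_zero]
      rintro rfl
      exact h P.2
  let θ : (Pg g → ℤ) →ₗ[ℤ] Additive (ClassGroup D) := (cl D L).toIntLinearMap.comp ι
  have hθs : Function.Surjective θ := by
    intro c
    obtain ⟨I, rfl⟩ := cl_surj (L := L) c
    choose! x hx using hS
    have hfin : {v : HeightOneSpectrum D | cnt L v I ≠ 0}.Finite := by
      have := FractionalIdeal.finite_factors (K := L) (I.toMul : FractionalIdeal D⁰ L)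
      rw [Filter.eventually_cofinite] at this
      exact this
    let T : Finset (HeightOneSpectrum D) := hfin.toFinset.filter fun v => g ∉ v.asIdeal
    let y : Additive Lˣ := ∑ v ∈ T, cnt L v I • x v
    have hy : ∀ w : HeightOneSpectrum D, g ∉ w.asIdeal → dv w y = cnt L w I := by
      intro w hw
      show dv w (∑ v ∈ T, cnt L v I • x v) = _
      rw [map_sum]
      have h1 : ∀ v ∈ T, dv w (cnt L v I • x v) = if v = w then cnt L w I else 0 := by
        intro v hv
        rw [map_zsmul, hx v (Finset.mem_filter.1 hv).2 w hw]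
        split_ifs with h
        · rw [h, smul_eq_mul, mul_one]
        · rw [smul_zero]
      rw [Finset.sum_congr rfl h1, Finset.sum_ite_eq']
      split_ifs with h
      · rfl
      · by_contra hne
        apply h
        rw [Finset.mem_filter, Set.Finite.mem_toFinset]
        exact ⟨fun h' => hne h'.symm, hw⟩
    refine ⟨fun P => cnt L P.1 (I - prin D L y), ?_⟩
    have h2 : ι (fun P => cnt L P.1 (I - prin D L y)) = I - prin D L y := by
      rw [← sub_eq_zero]
      apply cnt_inj
      intro v
      rw [map_sub, hι]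
      split_ifs with h
      · exact sub_self _
      · rw [zero_sub, map_sub, neg_eq_zero, sub_eq_zero]
        exact (hy v h).symm
    show cl D L (ι _) = _
    rw [h2, map_sub, sub_eq_self]
    exact cl_eq_zero.2 ⟨y, rfl⟩
  have hker : LinearMap.ker θ = (unitsIn (loc D (L := L) g)).map (dvg g) := by
    ext e
    rw [LinearMap.mem_ker, Submodule.mem_map]
    constructor
    · intro h
      obtain ⟨x, hx⟩ := cl_eq_zero.1 (show cl D L (ι e) = 0 from h)
      refine ⟨x, ?_, ?_⟩
      · rw [mem_units_iff hg]
        intro v hv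
        show cnt L v (prin D L x) = 0
        rw [hx, hι, dif_neg hv]
      · funext P
        rw [dvg_apply]
        show cnt L P.1 (prin D L x) = _
        rw [hx, hι, dif_pos P.2]
    · rintro ⟨x, hx, rfl⟩
      rw [mem_units_iff hg] at hx
      refine cl_eq_zero.2 ⟨x, ?_⟩
      rw [← sub_eq_zero]
      apply cnt_inj
      intro v
      rw [map_sub, hι, sub_eq_zero]
      split_ifs with h
      · rfl
      · exact hx v h
  have hfinθ : Module.Finite ℤ (Additive (ClassGroup D)) := Module.Finite.of_surjective θ hθs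
  refine ⟨hfinθ, ?_⟩
  have h1 := rank_quotient_add_rank_of_isDomain (LinearMap.ker θ)
  rw [(θ.quotKerEquivOfSurjective hθs).rank_eq, hker, rank_pi] at h1
  rw [h1]
  simp

end

end Pool.Agent.V7H34.NT
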