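import Pool.Agent.V7H34.NT.Lift

/-!
# Comparison of the localizations
-/

set_option autoImplicit false
set_option linter.all false

namespace Pool.Agent.V7H34.NT

open MvPolynomial

section
variable {B D L : Type} [CommRing B] [CommRing D] [Field L] [Algebra B D] [Algebra B L] [Algebra D L]
  [IsScalarTower B D L]

theorem mem_loc_iff (S : Submonoid B) [IsLocalization S D] (hS : ∀ s ∈ S, algebraMap B L s ≠ 0)
    {g : B} (z : L) : z ∈ loc D (L := L) (algebraMap B D g) ↔
      ∃ s ∈ S, algebraMap B L s * z ∈ loc B (L := L) g := by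
  constructor
  · rintro ⟨n, a, ha⟩
    obtain ⟨⟨β, s⟩, hs⟩ := IsLocalization.surj S a
    refine ⟨s, s.2, n, β, ?_⟩
    have h1 : algebraMap B L β = algebraMap D L (a * algebraMap B D s) := by
      rw [hs, ← IsScalarTower.algebraMap_apply]
    rw [h1, map_mul, ← ha, ← IsScalarTower.algebraMap_apply, ← IsScalarTower.algebraMap_apply]
    ring
  · rintro ⟨s, hs, n, β, h⟩
    refine ⟨n, IsLocalization.mk' D β ⟨s, hs⟩, ?_⟩
    have h1 := congrArg (algebraMap D L) (IsLocalization.mk'_spec D β ⟨s, hs⟩)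
    rw [map_mul, ← IsScalarTower.algebraMap_apply, ← IsScalarTower.algebraMap_apply] at h1
    apply mul_right_cancel₀ (hS s hs)
    rw [h1, ← IsScalarTower.algebraMap_apply, ← h]
    ring

theorem loc_le_loc {g v : B} (hv : algebraMap B L v ≠ 0) (h : g ∣ v)
    (hu : ∃ c, v = g * c ∧ IsUnit (algebraMap B D c)) :
    loc B (L := L) v ≤ loc D (L := L) (algebraMap B D g) := by
  rw [loc_le hv]
  refine ⟨fun a => ?_, ?_⟩
  · rw [IsScalarTower.algebraMap_apply B D L]
    exact base_mem _ _
  · obtain ⟨c, hc, hcu⟩ := hu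
    obtain ⟨u, hu⟩ := hcu
    rw [hc, map_mul] at hv
    have hg0 := left_ne_zero_of_mul hv
    have hc0 := right_ne_zero_of_mul hv
    rw [hc, map_mul, mul_inv]
    refine mul_mem ?_ ?_
    · rw [IsScalarTower.algebraMap_apply B D L] at hg0 ⊢
      exact inv_mem_loc hg0
    · have h2 : (algebraMap B L c)⁻¹ = algebraMap D L ((u⁻¹ : Dˣ) : D) := by
        symm
        apply eq_inv_of_mul_eq_one_left
        rw [IsScalarTower.algebraMap_apply B D L, ← hu, ← map_mul, Units.inv_mul, map_one]
      rw [h2]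
      exact base_mem _ _

end

section
variable {A M : Type} [CommRing A] [IsDomain A] [Field M] [Algebra A M] [IsFractionRing A M]

attribute [local instance] MvPolynomial.algebraMvPolynomial

/-- the map of the coefficients -/
noncomputable abbrev mp (A M : Type) [CommRing A] [Field M] [Algebra A M] (n : ℕ) :
    MvPolynomial (Fin n) A →+* MvPolynomial (Fin n) M := MvPolynomial.map (algebraMap A M)

variable {n : ℕ} {L : Type} [Field L] [Algebra (MvPolynomial (Fin n) M) L]
  [IsFractionRing (MvPolynomial (Fin n) M) L] [Algebra (MvPolynomial (Fin n) A) L]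

/-- compatible algebra structures -/
def Comp (A M : Type) [CommRing A] [Field M] [Algebra A M] (n : ℕ) (L : Type) [Field L]
    [Algebra (MvPolynomial (Fin n) M) L] [Algebra (MvPolynomial (Fin n) A) L] : Prop :=
  ∀ p : MvPolynomial (Fin n) A, algebraMap (MvPolynomial (Fin n) A) L p =
    algebraMap (MvPolynomial (Fin n) M) L (mp A M n p)

omit [IsDomain A] [IsFractionRing A M] [IsFractionRing (MvPolynomial (Fin n) M) L] in
theorem Comp.tower (h : Comp A M n L) :
    IsScalarTower (MvPolynomial (Fin n) A) (MvPolynomial (Fin n) M) L :=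
  IsScalarTower.of_algebraMap_eq h

theorem mp_inj : Function.Injective (mp A M n) := map_injective _ (IsFractionRing.injective A M)

theorem Comp.inj (h : Comp A M n L) : Function.Injective (algebraMap (MvPolynomial (Fin n) A) L) := by
  intro x y hxy
  rw [h, h] at hxy
  exact mp_inj (IsFractionRing.injective (MvPolynomial (Fin n) M) L hxy)

/-- Every polynomial over the field is a quotient by a constant. -/
theorem exists_num (x : MvPolynomial (Fin n) M) : ∃ (α : A) (x' : MvPolynomial (Fin n) A), α ≠ 0 ∧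
    mp A M n (C α) * x = mp A M n x' := by
  have hloc : IsLocalization ((nonZeroDivisors A).map (C (σ := Fin n)))
      (MvPolynomial (Fin n) M) := MvPolynomial.isLocalization (nonZeroDivisors A) M
  obtain ⟨⟨x', ⟨_, α, hα, rfl⟩⟩, h⟩ := IsLocalization.surj ((nonZeroDivisors A).map (C (σ := Fin n))) x
  exact ⟨α, x', nonZeroDivisors.ne_zero hα, by rw [mul_comm]; exact h⟩

theorem Comp.frac (h : Comp A M n L) : IsFractionRing (MvPolynomial (Fin n) A) L := by
  have : FaithfulSMul (MvPolynomial (Fin n) A) L := (faithfulSMul_iff_algebraMap_injective _ _).2 h.inj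
  refine IsFractionRing.of_field _ _ fun z => ?_
  obtain ⟨x, y, hy, hxy⟩ := IsFractionRing.div_surjective (A := MvPolynomial (Fin n) M) z
  obtain ⟨α, x', hα, hx⟩ := exists_num (A := A) x
  obtain ⟨β, y', hβ, hy'⟩ := exists_num (A := A) y
  have hy0 : algebraMap (MvPolynomial (Fin n) M) L y ≠ 0 := by
    rw [Ne, IsFractionRing.to_map_eq_zero_iff]
    exact nonZeroDivisors.ne_zero hy
  have hC : ∀ {γ : A}, γ ≠ 0 → algebraMap (MvPolynomial (Fin n) M) L (mp A M n (C γ)) ≠ 0 := by
    intro γ hγ h0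
    rw [IsFractionRing.to_map_eq_zero_iff, map_eq_zero_iff _ mp_inj] at h0
    exact hγ ((map_eq_zero_iff _ (C_injective _ _)).1 h0)
  refine ⟨C β * x', C α * y', ?_⟩
  rw [h, h, map_mul (mp A M n), map_mul (mp A M n), ← hx, ← hy', map_mul, map_mul, map_mul, map_mul,
    ← hxy]
  have h1 := hC hα
  have h2 := hC hβ
  field_simp

/-- the localization over the field -/
theorem Comp.mem_loc (h : Comp A M n L) {f : MvPolynomial (Fin n) A} (z : L) :
    z ∈ loc (MvPolynomial (Fin n) M) (L := L) (mp A M n f) ↔ ∃ α : A, α ≠ 0 ∧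
      algebraMap (MvPolynomial (Fin n) A) L (C α) * z ∈ loc (MvPolynomial (Fin n) A) (L := L) f := by
  have hloc : IsLocalization ((nonZeroDivisors A).map (C (σ := Fin n)))
      (MvPolynomial (Fin n) M) := MvPolynomial.isLocalization (nonZeroDivisors A) M
  have ht := h.tower
  have hC : ∀ {γ : A}, γ ≠ 0 → algebraMap (MvPolynomial (Fin n) A) L (C γ) ≠ 0 := by
    intro γ hγ h0
    rw [map_eq_zero_iff _ h.inj] at h0
    exact hγ ((map_eq_zero_iff _ (C_injective _ _)).1 h0)
  have h1 := mem_loc_iff (B := MvPolynomial (Fin n) A) (D := MvPolynomial (Fin n) M) (L := L)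
    ((nonZeroDivisors A).map (C (σ := Fin n))) (by
      rintro _ ⟨γ, hγ, rfl⟩
      exact hC (nonZeroDivisors.ne_zero hγ)) (g := f) z
  constructor
  · intro hz
    obtain ⟨_, ⟨α, hα, rfl⟩, h2⟩ := h1.1 hz
    exact ⟨α, nonZeroDivisors.ne_zero hα, h2⟩
  · rintro ⟨α, hα, h2⟩
    exact h1.2 ⟨C α, ⟨α, mem_nonZeroDivisors_of_ne_zero hα, rfl⟩, h2⟩

theorem Comp.le (h : Comp A M n L) (f : MvPolynomial (Fin n) A) :
    loc (MvPolynomial (Fin n) A) (L := L) f ≤ loc (MvPolynomial (Fin n) M) (L := L) (mp A M n f) := by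
  intro z hz
  rw [h.mem_loc]
  exact ⟨1, one_ne_zero, by rwa [map_one, map_one, one_mul]⟩

end

end Pool.Agent.V7H34.NT
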