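import Pool.Agent.V7H34.NT.Alg

/-!
# The primes of the generic fibre and the divisors of the total space
-/

set_option autoImplicit false
set_option linter.all false

namespace Pool.Agent.V7H34.NT

open MvPolynomial IsDedekindDomain

/-- the primes of dimension `e` which contain `f` and not `N` -/
def Vn (Λ : Type) [CommRing Λ] (f N : Λ) (e : ℕ) : Type :=
  {p : Ideal Λ // p.IsPrime ∧ f ∈ p ∧ N ∉ p ∧ Big (Λ ⧸ p) e}

theorem card_Vn_one {Λ : Type} [CommRing Λ] (f : Λ) (e : ℕ) :
    Nat.card (Vn Λ f 1 e) = Nat.card (Vt Λ f e) := by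
  refine Nat.card_congr (Equiv.subtypeEquivRight fun p => ?_)
  constructor
  · rintro ⟨h1, h2, h3, h4⟩
    exact ⟨h1, h2, h4⟩
  · rintro ⟨h1, h2, h4⟩
    exact ⟨h1, h2, fun h => h1.ne_top ((Ideal.eq_top_iff_one _).2 h), h4⟩

section
variable {R B D K L : Type} [CommRing R] [IsDomain R] [CommRing B] [IsDomain B] [Field K] [Field L]
  [Algebra K L] [Algebra R K] [IsFractionRing R K] [Algebra B L] [IsFractionRing B L] [Algebra R B]
  [CommRing D] [IsDedekindDomain D] [Algebra D L] [IsFractionRing D L] [Algebra B D]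
  [IsScalarTower B D L]

/-- **The primes of the generic fibre.** -/
theorem card_Pg (hD : GenLoc R B D)
    (hRB : ∀ r : R, algebraMap B L (algebraMap R B r) = algebraMap K L (algebraMap R K r))
    [IsNoetherianRing B] {g : B} (hg : g ≠ 0) {m : ℕ} (hB : ¬ Big B (m + 2)) (hR : Big R m) :
    ∃ ρ : R, ρ ≠ 0 ∧ ∀ N : R, N ≠ 0 → ρ ∣ N →
      Nat.card (Vn B g (algebraMap R B N) m) = Nat.card (Pg (algebraMap B D g)) := by
  classical
  have hDi := hD
  have hgD : algebraMap B D g ≠ 0 := by
    intro h0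
    have h1 := congrArg (algebraMap D L) h0
    rw [map_zero, ← IsScalarTower.algebraMap_apply, IsFractionRing.to_map_eq_zero_iff] at h1
    exact hg h1
  have hfin := finite_Vt hg hB
  let _ := Fintype.ofFinite (Vt B g m)
  have hr : ∀ p : Vt B g m, ∃ r : R, r ≠ 0 ∧ (p.1.comap (algebraMap R B) ≠ ⊥ →
      algebraMap R B r ∈ p.1) := by
    intro p
    by_cases h : p.1.comap (algebraMap R B) = ⊥
    · exact ⟨1, one_ne_zero, fun h' => absurd h h'⟩
    · obtain ⟨r, hr, hr0⟩ := Submodule.exists_mem_ne_zero_of_ne_bot h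
      exact ⟨r, hr0, fun _ => hr⟩
  choose r hr0 hr using hr
  refine ⟨∏ p, r p, Finset.prod_ne_zero_iff.2 fun p _ => hr0 p, fun N hN hρ => ?_⟩
  have hNu := unit_D hD hN
  let f : Pg (algebraMap B D g) → Vn B g (algebraMap R B N) m := fun v =>
    ⟨v.1.asIdeal.comap (algebraMap B D), Ideal.comap_isPrime _ _, v.2, fun h =>
      v.1.isPrime.ne_top (Ideal.eq_top_of_isUnit_mem _ h hNu), by
        let j : R →+* B ⧸ v.1.asIdeal.comap (algebraMap B D) :=
          (Ideal.Quotient.mk _).comp (algebraMap R B)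
        refine hR.map j ?_
        rw [injective_iff_map_eq_zero]
        intro a ha
        have h1 : algebraMap R B a ∈ v.1.asIdeal.comap (algebraMap B D) :=
          Ideal.Quotient.eq_zero_iff_mem.1 ha
        by_contra ha0
        exact v.1.isPrime.ne_top (Ideal.eq_top_of_isUnit_mem _ h1 (unit_D hD ha0))⟩
  have hmc : ∀ I : Ideal D, (I.comap (algebraMap B D)).map (algebraMap B D) = I := fun I =>
    IsLocalization.map_under (Algebra.algebraMapSubmonoid B (nonZeroDivisors R)) D I
  symm
  refine Nat.card_eq_of_bijective f ⟨?_, ?_⟩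
  · intro v w h
    have h1 : v.1.asIdeal.comap (algebraMap B D) = w.1.asIdeal.comap (algebraMap B D) :=
      congrArg Subtype.val h
    apply Subtype.ext
    apply HeightOneSpectrum.ext
    rw [← hmc v.1.asIdeal, ← hmc w.1.asIdeal, h1]
  · rintro ⟨p, hp, hgp, hNp, hb⟩
    have hbot : p.comap (algebraMap R B) = ⊥ := by
      by_contra h
      let P₀ : Vt B g m := ⟨p, hp, hgp, hb⟩
      have h1 := hr P₀ h
      have h2 := (Finset.dvd_prod_of_mem r (Finset.mem_univ P₀)).trans hρ
      exact hNp (p.mem_of_dvd (map_dvd (algebraMap R B) h2) h1)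
    have hdis : Disjoint ((Algebra.algebraMapSubmonoid B (nonZeroDivisors R) : Submonoid B) : Set B)
        p := by
      rw [Set.disjoint_left]
      rintro _ ⟨a, ha, rfl⟩ h
      have h1 : a ∈ p.comap (algebraMap R B) := h
      rw [hbot] at h1
      exact nonZeroDivisors.ne_zero ha (by simpa using h1)
    have hP : (p.map (algebraMap B D)).IsPrime := IsLocalization.isPrime_of_isPrime_disjoint
      (Algebra.algebraMapSubmonoid B (nonZeroDivisors R)) D p hp hdis
    have hpc : (p.map (algebraMap B D)).comap (algebraMap B D) = p :=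
      IsLocalization.under_map_of_isPrime_disjoint
        (Algebra.algebraMapSubmonoid B (nonZeroDivisors R)) D hp hdis
    have hgm : algebraMap B D g ∈ p.map (algebraMap B D) := Ideal.mem_map_of_mem _ hgp
    have hne : p.map (algebraMap B D) ≠ ⊥ := by
      intro h
      rw [h] at hgm
      exact hgD (by simpa using hgm)
    exact ⟨⟨⟨p.map (algebraMap B D), hP, hne⟩, hgm⟩, Subtype.ext hpc⟩

end

section
variable {A M R B D K L : Type} {b d : ℕ}
  [CommRing A] [IsDomain A] [IsNoetherianRing A] [Field M] [CharZero M] [Algebra A M]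
  [IsFractionRing A M]
  [Field K] [Field L] [CharZero K] [CharZero L] [Algebra K L]
  [Algebra (MvPolynomial (Fin (b + 1)) M) K] [IsFractionRing (MvPolynomial (Fin (b + 1)) M) K]
  [Algebra (MvPolynomial (Fin (b + 1)) A) K]
  [Algebra (MvPolynomial (Fin (b + 2)) M) L] [IsFractionRing (MvPolynomial (Fin (b + 2)) M) L]
  [Algebra (MvPolynomial (Fin (b + 2)) A) L]

/-- dimensions -/
theorem big_A (hd : Algebra.trdeg ℚ M = d) (e : ℕ) : Big A e ↔ e ≤ d := big_frac M hd e

theorem trdeg_mv {n : ℕ} {F : Type} [Field F] [CharZero F] [Algebra (MvPolynomial (Fin n) M) F]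
    [IsFractionRing (MvPolynomial (Fin n) M) F] (hd : Algebra.trdeg ℚ M = d) :
    Algebra.trdeg ℚ F = (d + n : ℕ) := by
  have h1 := tdim_frac (A := MvPolynomial (Fin n) M) (M := F)
  have h2 := tdim_mv (A := M) n
  have h3 := tdim_frac (A := M) (M := M)
  rw [← h1, h2, h3, hd]
  push_cast
  rfl

end

end Pool.Agent.V7H34.NT
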