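import Pool.Agent.V7H34.NT.All

/-!
# The contribution of the point at infinity
-/

set_option autoImplicit false
set_option linter.all false
set_option maxHeartbeats 1000000

namespace Pool.Agent.V7H34.NT

open NumberField IsDedekindDomain Filter Topology
open Pool.Agent.R410.BS (good_le landau_all)

section
variable {O R E : Type} [CommRing O] [CommRing R] [CommRing E] [Algebra R E] [Algebra O R]

/-- the number of the points over a point -/
noncomputable def nF (E : Type) {R : Type} [CommRing R] [CommRing E] [Algebra R E] {F : Type} [CommRing F]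
    (φ : R →+* F) : ℝ := Nat.card {χ : E →+* F // χ.comp (algebraMap R E) = φ}

theorem nF_iso {F F' : Type} [CommRing F] [CommRing F'] (e : F ≃+* F') (φ : R →+* F) :
    nF E ((e : F →+* F').comp φ) = nF E φ := by
  unfold nF
  congr 1
  refine Nat.card_congr
    { toFun := fun χ => ⟨(e.symm : F' →+* F).comp χ.1, by
        rw [RingHom.comp_assoc, χ.2]
        ext x
        exact e.symm_apply_apply _⟩
      invFun := fun χ => ⟨(e : F →+* F').comp χ.1, by
        rw [RingHom.comp_assoc, χ.2]⟩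
      left_inv := fun χ => Subtype.ext (RingHom.ext fun x => e.apply_symm_apply _)
      right_inv := fun χ => Subtype.ext (RingHom.ext fun x => e.symm_apply_apply _) }

theorem fsum_iso (N : R) (c : ∀ (F : Type) [CommRing F], (R →+* F) → ℝ)
    (hc : ∀ (F F' : Type) [CommRing F] [CommRing F'] (e : F ≃+* F') (φ : R →+* F),
      c F' ((e : F →+* F').comp φ) = c F φ)
    (F F' : Type) [CommRing F] [CommRing F'] (e : F ≃+* F') (ψ : O →+* F) :
    ∑ᶠ φ : {φ : R →+* F' // φ.comp (algebraMap O R) = (e : F →+* F').comp ψ ∧ φ N ≠ 0}, c F' φ.1 =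
      ∑ᶠ φ : {φ : R →+* F // φ.comp (algebraMap O R) = ψ ∧ φ N ≠ 0}, c F φ.1 := by
  let E : {φ : R →+* F // φ.comp (algebraMap O R) = ψ ∧ φ N ≠ 0} ≃
      {φ : R →+* F' // φ.comp (algebraMap O R) = (e : F →+* F').comp ψ ∧ φ N ≠ 0} :=
    { toFun := fun φ => ⟨(e : F →+* F').comp φ.1, by
        rw [RingHom.comp_assoc, φ.2.1], by
        rw [RingHom.comp_apply]
        exact (map_ne_zero_iff _ e.injective).2 φ.2.2⟩
      invFun := fun φ => ⟨(e.symm : F' →+* F).comp φ.1, by
        rw [RingHom.comp_assoc, φ.2.1, ← RingHom.comp_assoc]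
        ext x
        show e.symm (e (ψ x)) = ψ x
        rw [e.symm_apply_apply], by
        rw [RingHom.comp_apply]
        exact (map_ne_zero_iff _ e.symm.injective).2 φ.2.2⟩
      left_inv := fun φ => Subtype.ext (RingHom.ext fun x => e.symm_apply_apply _)
      right_inv := fun φ => Subtype.ext (RingHom.ext fun x => e.apply_symm_apply _) }
  refine (finsum_comp_equiv E (f := fun φ => c F' φ.1)).symm.trans ?_
  exact finsum_congr fun φ => hc F F' e φ.1

/-- the sum of the numbers of the points over the points of the base -/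
theorem sum_nF [Algebra.FiniteType ℤ R] [Algebra.FiniteType ℤ E] (N : R) {F : Type} [Field F]
    [Finite F] (ψ : O →+* F) :
    ∑ᶠ φ : {φ : R →+* F // φ.comp (algebraMap O R) = ψ ∧ φ N ≠ 0}, nF E φ.1 =
      nP ((algebraMap R E).comp (algebraMap O R)) ψ (fun χ => χ (algebraMap R E N) ≠ 0) := by
  classical
  have hfin : Finite (R →+* F) := Pool.Agent.TH958.An.finite_hom F
  have hfin' : Finite (E →+* F) := Pool.Agent.TH958.An.finite_hom F
  let _ := Fintype.ofFinite {φ : R →+* F // φ.comp (algebraMap O R) = ψ ∧ φ N ≠ 0}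
  rw [finsum_eq_sum_of_fintype]
  unfold nF nP
  rw [← Nat.cast_sum, ← Nat.card_sigma]
  congr 1
  refine Nat.card_congr
    { toFun := fun x => ⟨x.2.1, by
        rw [← RingHom.comp_assoc, x.2.2]
        exact x.1.2.1, by
        have h := x.1.2.2
        rw [← x.2.2] at h
        exact h⟩
      invFun := fun χ => ⟨⟨χ.1.comp (algebraMap R E), by
        rw [RingHom.comp_assoc]
        exact χ.2.1, χ.2.2⟩, ⟨χ.1, rfl⟩⟩
      left_inv := by
        rintro ⟨⟨φ, h1, h2⟩, ⟨χ, h3⟩⟩
        simp only at h3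
        subst h3
        rfl
      right_inv := fun _ => rfl }

end

section
variable {k : Type} [Field k] [NumberField k]

/-- the averages are additive -/
theorem sumT_add (S : Finset (HeightOneSpectrum (𝓞 k))) (b b' : HeightOneSpectrum (𝓞 k) → ℝ)
    {T : ℝ} (hT : 0 ≤ T) : sumT S (fun v => b v + b' v) T = sumT S b T + sumT S b' T := by
  rw [sumT_eq S _ hT, sumT_eq S _ hT, sumT_eq S _ hT, ← Finset.sum_add_distrib]
  exact Finset.sum_congr rfl fun v _ => by ring

theorem tendsto_add' {S : Finset (HeightOneSpectrum (𝓞 k))} {b b' : HeightOneSpectrum (𝓞 k) → ℝ}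
    {r r' : ℝ} (h : Tendsto (fun T : ℝ => sumT S b T / T) atTop (𝓝 r))
    (h' : Tendsto (fun T : ℝ => sumT S b' T / T) atTop (𝓝 r')) :
    Tendsto (fun T : ℝ => sumT S (fun v => b v + b' v) T / T) atTop (𝓝 (r + r')) := by
  refine (h.add h').congr' ?_
  filter_upwards [eventually_ge_atTop (0 : ℝ)] with T hT
  rw [sumT_add S b b' hT, add_div]

variable {R E K κ : Type} [CommRing R] [IsDomain R] [Algebra.FiniteType ℤ R] [Field K] [CharZero K]
  [Algebra R K] [IsFractionRing R K] [CommRing E] [IsDomain E] [Algebra.FiniteType ℤ E] [Field κ]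
  [CharZero κ] [Algebra E κ] [IsFractionRing E κ] [Algebra R E] [Algebra (𝓞 k) R]

/-- the number of the points at infinity, minus one -/
noncomputable def sE (E : Type) {O R : Type} [CommRing O] [CommRing R] [CommRing E] [Algebra R E]
    [Algebra O R] (N : R) (F : Type) [CommRing F] (ψ : O →+* F) : ℝ :=
  ∑ᶠ φ : {φ : R →+* F // φ.comp (algebraMap O R) = ψ ∧ φ N ≠ 0}, (1 - nF E φ.1)

/-- **The contribution of the point at infinity.** -/
theorem tau_E {e : ℕ} (hK : Algebra.trdeg ℚ K = e) (hκ : Algebra.trdeg ℚ κ = e)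
    (hRE : Function.Injective (algebraMap R E)) {N : R} (hN : N ≠ 0)
    (S : Finset (HeightOneSpectrum (𝓞 k))) :
    Tendsto (fun T : ℝ => sumT S (avg (fun F _ ψ => sE E N F ψ) e) T / T) atTop (𝓝 0) := by
  classical
  have hNE : algebraMap R E N ≠ 0 := (map_ne_zero_iff _ hRE).2 hN
  have hsum : ∀ (F : Type) [Field F] [Finite F] (ψ : 𝓞 k →+* F), sE E N F ψ =
      nP (algebraMap (𝓞 k) R) ψ (fun φ => φ N ≠ 0) -
        nP ((algebraMap R E).comp (algebraMap (𝓞 k) R)) ψ (fun χ => χ (algebraMap R E N) ≠ 0) := by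
    intro F _ _ ψ
    have hfin : Finite (R →+* F) := Pool.Agent.TH958.An.finite_hom F
    unfold sE
    rw [← sum_nF]
    let _ := Fintype.ofFinite {φ : R →+* F // φ.comp (algebraMap (𝓞 k) R) = ψ ∧ φ N ≠ 0}
    rw [finsum_eq_sum_of_fintype, finsum_eq_sum_of_fintype, Finset.sum_sub_distrib,
      Finset.sum_const, nsmul_eq_mul, mul_one, Finset.card_univ, ← Nat.card_eq_fintype_card]
    rfl
  refine tau (fun F _ ψ => sE E N F ψ) (fun F F' _ _ e ψ =>
    fsum_iso N (fun F _ φ => 1 - nF E φ) (fun F F' _ _ e φ => by rw [nF_iso]) F F' e ψ) ?_ ?_ S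
  · obtain ⟨C1, n1, hC1, hn1, g1⟩ := good_le (R := R) (K := K) (IsFractionRing.injective R K)
      hK.le (one_ne_zero (α := R))
    obtain ⟨C2, n2, hC2, hn2, g2⟩ := good_le (R := E) (K := κ) (IsFractionRing.injective E κ)
      hκ.le (one_ne_zero (α := E))
    refine ⟨C1 + C2, n1 * n2, by positivity, mul_ne_zero hn1 hn2, fun F _ _ hF ψ => ?_⟩
    rw [Nat.cast_mul] at hF
    have k1 := (g1 F (left_ne_zero_of_mul hF)).1
    have k2 := (g2 F (right_ne_zero_of_mul hF)).1
    have l1 := nP_le (algebraMap (𝓞 k) R) ψ (fun φ => φ N ≠ 0) (fun _ => True) fun _ _ => trivial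
    have l2 := nP_le ((algebraMap R E).comp (algebraMap (𝓞 k) R)) ψ
      (fun χ => χ (algebraMap R E N) ≠ 0) (fun _ => True) fun _ _ => trivial
    have e1 : Nat.card {φ : R →+* F // True} = Nat.card (R →+* F) :=
      Nat.card_congr (Equiv.subtypeUnivEquiv fun _ => trivial)
    have e2 : Nat.card {φ : E →+* F // True} = Nat.card (E →+* F) :=
      Nat.card_congr (Equiv.subtypeUnivEquiv fun _ => trivial)
    rw [e1] at l1
    rw [e2] at l2
    have m1 := nP_nonneg (algebraMap (𝓞 k) R) ψ (fun φ => φ N ≠ 0)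
    have m2 := nP_nonneg ((algebraMap R E).comp (algebraMap (𝓞 k) R)) ψ
      (fun χ => χ (algebraMap R E N) ≠ 0)
    show |sE E N F ψ| ≤ _
    rw [hsum F ψ, abs_le]
    have hq : (0 : ℝ) ≤ (Nat.card F : ℝ) ^ e := by positivity
    constructor
    · nlinarith [mul_nonneg hC1 hq]
    · nlinarith [mul_nonneg hC2 hq]
  · have key : ∀ (X : Type) [CommRing X] [IsDomain X] [Algebra.FiniteType ℤ X] (M : Type) [Field M]
        [CharZero M] [Algebra X M] [IsFractionRing X M] (hM : Algebra.trdeg ℚ M = e) (u : X)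
        (hu : u ≠ 0), Asy (fun F _ _ => (Nat.card {φ : X →+* F // φ u ≠ 0} : ℝ)) e 1 := by
      intro X _ _ _ M _ _ _ _ hM u hu
      obtain ⟨L, iL, nL, hL⟩ := landau_all (M := M) (fg_frac (A := X)) hM
      obtain ⟨C, n, hC, hn, hCN⟩ := hL X u hu
      refine ⟨Unit, inferInstance, fun _ => L, fun _ => iL, fun _ => nL, fun _ => 1, by simp, C, n,
        hC, hn, ?_⟩
      intro F _ _ hF
      have h3 : cF (fun _ : Unit => L) (fun _ => 1) F = (Nat.card (𝓞 L →+* F) : ℝ) := by
        unfold cF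
        simp
      rw [h3]
      exact hCN F hF
    have a1 := key R K hK N hN
    have a2 := (key E κ hκ _ hNE).neg
    have a3 := a1.add a2
    rw [add_neg_cancel] at a3
    refine a3.congr 1 one_ne_zero fun F _ _ _ => ?_
    have : Finite (𝓞 k →+* F) := (Pool.Agent.W385.CP.hom_int k F).1
    let _ := Fintype.ofFinite (𝓞 k →+* F)
    have h1 : ∑ᶠ ψ : 𝓞 k →+* F, sE E N F ψ =
        ∑ᶠ ψ : 𝓞 k →+* F, nP (algebraMap (𝓞 k) R) ψ (fun φ => φ N ≠ 0) -
        ∑ᶠ ψ : 𝓞 k →+* F, nP ((algebraMap R E).comp (algebraMap (𝓞 k) R)) ψ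
          (fun χ => χ (algebraMap R E N) ≠ 0) := by
      rw [finsum_eq_sum_of_fintype, finsum_eq_sum_of_fintype, finsum_eq_sum_of_fintype,
        ← Finset.sum_sub_distrib]
      exact Finset.sum_congr rfl fun ψ _ => hsum F ψ
    show ∑ᶠ ψ : 𝓞 k →+* F, sE E N F ψ = _
    rw [h1, nP_sum, nP_sum]
    ring

end

end Pool.Agent.V7H34.NT
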