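import Pool.Agent.V7H34.NT.Rsd

/-!
# The theorem for all the models and for an arbitrary point at infinity
-/

set_option autoImplicit false
set_option linter.all false
set_option maxHeartbeats 1000000

namespace Pool.Agent.V7H34.NT

open NumberField IsDedekindDomain Filter Topology
open Pool.Agent.R410.LW (FG)

/-- the algebra structure given by a transcendence basis -/
noncomputable abbrev algOf {M K : Type} [Field M] [Field K] [Algebra M K] {n : ℕ} (w : Fin n → K) :
    Algebra (MvPolynomial (Fin n) M) K :=
  ((MvPolynomial.aeval w : MvPolynomial (Fin n) M →ₐ[M] K) : MvPolynomial (Fin n) M →+* K).toAlgebra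

theorem frac_adjoin {M K : Type} [Field M] [Field K] [Algebra M K] {n : ℕ} (w : Fin n → K)
    (hw : AlgebraicIndependent M w) (h : IntermediateField.adjoin M (Set.range w) = ⊤) :
    @IsFractionRing (MvPolynomial (Fin n) M) _ K _ (algOf w) := by
  let _ := algOf (M := M) w
  have hinj : Function.Injective (algebraMap (MvPolynomial (Fin n) M) K) := hw
  have : FaithfulSMul (MvPolynomial (Fin n) M) K := (faithfulSMul_iff_algebraMap_injective _ _).2 hinj
  refine IsFractionRing.of_field _ _ fun z => ?_
  have hz : z ∈ IntermediateField.adjoin M (Set.range w) := by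
    rw [h]
    trivial
  rw [IntermediateField.mem_adjoin_range_iff] at hz
  obtain ⟨r, s, hrs⟩ := hz
  exact ⟨r, s, hrs⟩

section
variable {k : Type} [Field k] [NumberField k] {M K L : Type} [Field M] [CharZero M] [Algebra k M]
  [Field K] [Field L] [Algebra M K] [Algebra M L] [Algebra K L] [IsScalarTower M K L] {b d : ℕ}

theorem final (hM : FG M) (hd : Algebra.trdeg ℚ M = d) (w : Fin (b + 1) → K)
    (hw : AlgebraicIndependent M w) (hw' : IntermediateField.adjoin M (Set.range w) = ⊤)
    (x : Fin (b + 2) → L) (hx : AlgebraicIndependent M x)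
    (hx' : IntermediateField.adjoin M (Set.range x) = ⊤)
    (D : Type) [CommRing D] [IsDedekindDomain D] [Algebra D L] [IsFractionRing D L]
    (O : ValuationSubring L) (hK : ∀ c : K, algebraMap K L c ∈ O)
    (hO : ∀ a : D, algebraMap D L a ∈ O → ∃ c : K, algebraMap K L c = algebraMap D L a)
    (R : Type) [CommRing R] [IsDomain R] [Algebra.FiniteType ℤ R] [Algebra R K] [IsFractionRing R K]
    [Algebra (𝓞 k) R]
    (hk : ∀ z : 𝓞 k, algebraMap R K (algebraMap (𝓞 k) R z) = algebraMap M K (algebraMap k M z))
    (B : Type) [CommRing B] [IsDomain B] [Algebra.FiniteType ℤ B] [Algebra R B] [Algebra B D]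
    (hB : IsLocalization (Algebra.algebraMapSubmonoid B (nonZeroDivisors R)) D)
    (hRB : ∀ r : R, algebraMap D L (algebraMap B D (algebraMap R B r)) =
      algebraMap K L (algebraMap R K r))
    (hBi : Function.Injective (algebraMap B D))
    (E : Type) [CommRing E] [IsDomain E] [Algebra.FiniteType ℤ E] [Algebra R E]
    [Algebra E (IsLocalRing.ResidueField O)] [IsFractionRing E (IsLocalRing.ResidueField O)]
    (hE : ∀ r : R, algebraMap E (IsLocalRing.ResidueField O) (algebraMap R E r) =
      IsLocalRing.residue O ⟨algebraMap K L (algebraMap R K r), hK _⟩) :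
    Module.Finite ℤ (Additive (ClassGroup D)) ∧ ∃ N₀ : R, N₀ ≠ 0 ∧ ∀ N : R, N ≠ 0 → N₀ ∣ N →
      ∀ S : Finset (HeightOneSpectrum (𝓞 k)),
      Tendsto (fun T : ℝ => sumT S (fun v => avg (fun F _ ψ => sF B N F ψ) (d + b + 1) v +
        avg (fun F _ ψ => sE E N F ψ) (d + b + 1) v) T / T) atTop
        (𝓝 (-(Module.finrank ℤ (Additive (ClassGroup D)) : ℝ))) := by
  classical
  have cK : CharZero K := charZero_of_injective_algebraMap (algebraMap M K).injective
  have cL : CharZero L := charZero_of_injective_algebraMap (algebraMap M L).injective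
  let _ : Algebra (MvPolynomial (Fin (b + 1)) M) K := algOf w
  let _ : Algebra (MvPolynomial (Fin (b + 2)) M) L := algOf x
  have fK : IsFractionRing (MvPolynomial (Fin (b + 1)) M) K := frac_adjoin w hw hw'
  have fL : IsFractionRing (MvPolynomial (Fin (b + 2)) M) L := frac_adjoin x hx hx'
  have eK : ∀ c : M, algebraMap (MvPolynomial (Fin (b + 1)) M) K (MvPolynomial.C c) =
      algebraMap M K c := fun c => MvPolynomial.aeval_C w c
  have eL : ∀ c : M, algebraMap (MvPolynomial (Fin (b + 2)) M) L (MvPolynomial.C c) =
      algebraMap M L c := fun c => MvPolynomial.aeval_C x c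
  have hc : Cst M K L b := by
    intro c
    rw [eK, eL]
    exact (IsScalarTower.algebraMap_apply M K L c).symm
  let _ : Algebra B L := ((algebraMap D L).comp (algebraMap B D)).toAlgebra
  have hT : IsScalarTower B D L := IsScalarTower.of_algebraMap_eq fun _ => rfl
  have hBL : IsFractionRing B L := by
    have hinj : Function.Injective (algebraMap B L) := (IsFractionRing.injective D L).comp hBi
    have : FaithfulSMul B L := (faithfulSMul_iff_algebraMap_injective _ _).2 hinj
    refine IsFractionRing.of_field _ _ fun z => ?_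
    obtain ⟨x, y, hy, hxy⟩ := IsFractionRing.div_surjective (A := D) z
    obtain ⟨⟨x', s⟩, hs⟩ := IsLocalization.surj (Algebra.algebraMapSubmonoid B (nonZeroDivisors R)) x
    obtain ⟨⟨y', t⟩, ht⟩ := IsLocalization.surj (Algebra.algebraMapSubmonoid B (nonZeroDivisors R)) y
    have hu : ∀ u : Algebra.algebraMapSubmonoid B (nonZeroDivisors R),
        algebraMap D L (algebraMap B D u) ≠ 0 := by
      intro u h0
      have h1 := IsLocalization.map_units D u
      rw [map_eq_zero_iff _ (IsFractionRing.injective D L)] at h0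
      rw [h0] at h1
      exact not_isUnit_zero h1
    have h1 := congrArg (algebraMap D L) hs
    have h2 := congrArg (algebraMap D L) ht
    rw [map_mul] at h1 h2
    have hy0 : algebraMap D L y ≠ 0 := by
      rw [Ne, IsFractionRing.to_map_eq_zero_iff]
      exact nonZeroDivisors.ne_zero hy
    refine ⟨x' * t, y' * s, ?_⟩
    show z = algebraMap D L (algebraMap B D (x' * t)) / algebraMap D L (algebraMap B D (y' * s))
    rw [map_mul, map_mul, map_mul, map_mul, ← h1, ← h2, ← hxy]
    have h3 := hu s
    have h4 := hu t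
    field_simp
  obtain ⟨m1, N₀, hN₀, m2⟩ := all_models (k := k) (R := R) (B := B) (D := D) (K := K) (L := L) hc hM hd
    hB hRB (fun z => by rw [hk, eK]) O hO
  refine ⟨m1, N₀, hN₀, fun N hN hdvd S => ?_⟩
  have t1 := m2 N hN hdvd S
  have hdK : Algebra.trdeg ℚ K = (d + b + 1 : ℕ) := by
    rw [trdeg_mv (M := M) (n := b + 1) hd]
    rfl
  have hdL : Algebra.trdeg ℚ L = (d + b + 1 + 1 : ℕ) := by
    rw [trdeg_mv (M := M) (n := b + 2) hd]
    rfl
  have hne : ∃ z : L, z ∉ O := by
    by_contra hcon
    push Not at hcon
    have hsurj : Function.Surjective (algebraMap K L) := by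
      intro z
      obtain ⟨x, y, -, hxy⟩ := IsFractionRing.div_surjective (A := D) z
      obtain ⟨c, hc⟩ := hO x (hcon _)
      obtain ⟨c', hc'⟩ := hO y (hcon _)
      exact ⟨c / c', by rw [map_div₀, hc, hc', hxy]⟩
    have h1 := trdeg_add_eq ℚ K (A := L)
    have halg : Algebra.IsAlgebraic K L := ⟨fun z => by
      obtain ⟨c, rfl⟩ := hsurj z
      exact isAlgebraic_algebraMap c⟩
    rw [trdeg_eq_zero (R := K) (A := L), add_zero, hdK, hdL] at h1
    have h2 : (d + b + 1 : ℕ) = d + b + 1 + 1 := by exact_mod_cast h1
    omega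
  have cκ : CharZero (IsLocalRing.ResidueField O) := charZero_res O hK
  have hdκ := trdeg_res O hK hdK hdL hne
  have hRE : Function.Injective (algebraMap R E) := by
    intro r s h
    have h1 : toRes O hK (algebraMap R K r) = toRes O hK (algebraMap R K s) :=
      (hE r).symm.trans ((congrArg _ h).trans (hE s))
    exact IsFractionRing.injective R K ((toRes O hK).injective h1)
  have t2 := tau_E (k := k) (E := E) (κ := IsLocalRing.ResidueField O) hdK hdκ hRE hN S
  have t3 := tendsto_add' t1 t2
  rw [add_zero] at t3
  exact t3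

end

end Pool.Agent.V7H34.NT
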