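import Pool.Agent.V7H34.NT.Asy
import Pool.Agent.V7H34.NT.Cnt

/-!
# The number of the points of a divisor
-/

set_option autoImplicit false
set_option linter.all false

open Polynomial NumberField

namespace Pool.Agent.V7H34.NT

open Pool.Agent.R410.BS (landau_all good_le)
open Pool.Agent.R410.LW (FG)

theorem fg_frac {A M : Type} [CommRing A] [IsDomain A] [Algebra.FiniteType ℤ A] [Field M]
    [Algebra A M] [IsFractionRing A M] : FG M := by
  classical
  obtain ⟨G, hG⟩ := (inferInstance : Algebra.FiniteType ℤ A).out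
  refine ⟨G.image (algebraMap A M), ?_⟩
  rw [eq_top_iff]
  have h1 : ∀ a : A, algebraMap A M a ∈
      Subfield.closure ((G.image (algebraMap A M) : Finset M) : Set M) := by
    intro a
    have ha : a ∈ Algebra.adjoin ℤ (G : Set A) := by rw [hG]; trivial
    induction ha using Algebra.adjoin_induction with
    | mem x hx => exact Subfield.subset_closure (Finset.mem_coe.2 (Finset.mem_image_of_mem _ hx))
    | algebraMap n =>
      rw [show algebraMap A M (algebraMap ℤ A n) = (n : M) by simp]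
      exact intCast_mem _ n
    | add x y _ _ h1 h2 => rw [map_add]; exact add_mem h1 h2
    | mul x y _ _ h1 h2 => rw [map_mul]; exact mul_mem h1 h2
  intro z _
  obtain ⟨x, y, hy, hxy⟩ := IsFractionRing.div_surjective (A := A) z
  rw [← hxy]
  exact div_mem (h1 x) (h1 y)

section
variable {A : Type} [CommRing A] [IsDomain A] {M : Type} [Field M] [CharZero M] [Algebra A M]
  [IsFractionRing A M] {e : ℕ}

theorem trdeg_le_of (h : ¬ Big A (e + 1)) : Algebra.trdeg ℚ M ≤ e := by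
  have hc : CharZero A := (algebraMap A M).charZero
  rw [big_iff, tdim_frac (M := M), not_le, Cardinal.nat_succ, Order.lt_succ_iff] at h
  exact h

theorem trdeg_eq_of (h1 : Big A e) (h2 : ¬ Big A (e + 1)) : Algebra.trdeg ℚ M = e := by
  refine le_antisymm (trdeg_le_of h2) ?_
  have hc := h1.charZero
  rw [big_iff, tdim_frac (M := M)] at h1
  exact h1

end

section
variable {Λ : Type} [CommRing Λ]

theorem ft_surj {Λ S : Type} [CommRing Λ] [CommRing S] [Algebra.FiniteType ℤ Λ] (f : Λ →+* S)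
    (hf : Function.Surjective f) : Algebra.FiniteType ℤ S :=
  Algebra.FiniteType.of_surjective f.toIntAlgHom hf

theorem card_quot (p : Ideal Λ) (w : Λ) (F : Type) [Field F] (P : F → Prop) :
    Nat.card {φ : Λ →+* F // (∀ x ∈ p, φ x = 0) ∧ P (φ w)} =
      Nat.card {φ : Λ ⧸ p →+* F // P (φ (Ideal.Quotient.mk p w))} := by
  refine Nat.card_congr
    { toFun := fun φ => ⟨Ideal.Quotient.lift p φ.1 φ.2.1, by
        rw [Ideal.Quotient.lift_mk]
        exact φ.2.2⟩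
      invFun := fun ψ => ⟨ψ.1.comp (Ideal.Quotient.mk p), fun x hx => by
        rw [RingHom.comp_apply, Ideal.Quotient.eq_zero_iff_mem.2 hx, map_zero], ψ.2⟩
      left_inv := fun φ => Subtype.ext (RingHom.ext fun x => by
        show Ideal.Quotient.lift p φ.1 φ.2.1 (Ideal.Quotient.mk p x) = φ.1 x
        rw [Ideal.Quotient.lift_mk])
      right_inv := fun ψ => Subtype.ext (Ideal.Quotient.ringHom_ext (RingHom.ext fun x => by
        rw [RingHom.comp_apply, Ideal.Quotient.lift_mk])) }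

theorem exists_nat_zero {A : Type} [CommRing A] (h : ¬ CharZero A) :
    ∃ n : ℕ, n ≠ 0 ∧ (n : A) = 0 := by
  by_contra hcon
  push Not at hcon
  exact h (charZero_of_inj_zero fun n hn => by
    by_contra h'
    exact hcon n h' hn)

theorem one_le_card (F : Type) [Field F] [Finite F] : (1 : ℝ) ≤ Nat.card F := by
  exact_mod_cast Nat.card_pos

theorem sqrt_le_card (F : Type) [Field F] [Finite F] : √(Nat.card F : ℝ) ≤ Nat.card F := by
  have h1 := one_le_card F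
  rw [Real.sqrt_le_left (by linarith)]
  nlinarith

variable [IsDomain Λ] [Algebra.FiniteType ℤ Λ] {e : ℕ}

omit [Algebra.FiniteType ℤ Λ] in
theorem not_big_quot (h : ¬ Big Λ (e + 2)) {p : Ideal Λ} (hp : p.IsPrime) (hp0 : p ≠ ⊥) :
    ¬ Big (Λ ⧸ p) (e + 1) := fun h1 =>
  h (big_bot.1 (drop Ideal.isPrime_bot (bot_lt_iff_ne_bot.2 hp0) h1))

open Classical in
/-- the points of a prime divisor -/
theorem asy_prime (h : ¬ Big Λ (e + 2)) {p : Ideal Λ} (hp : p.IsPrime) (hp0 : p ≠ ⊥) (w : Λ) :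
    Asy (fun F _ _ => (Nat.card {φ : Λ →+* F // (∀ x ∈ p, φ x = 0) ∧ φ w ≠ 0} : ℝ)) e
      (if w ∉ p ∧ Big (Λ ⧸ p) e then 1 else 0) := by
  by_cases hw : w ∈ p
  · rw [if_neg fun h' => h'.1 hw]
    refine (Asy.zero e).congr 1 one_ne_zero fun F _ _ _ => ?_
    have : IsEmpty {φ : Λ →+* F // (∀ x ∈ p, φ x = 0) ∧ φ w ≠ 0} := ⟨fun φ => φ.2.2 (φ.2.1 w hw)⟩
    rw [Nat.card_of_isEmpty, Nat.cast_zero]
  have hw0 : Ideal.Quotient.mk p w ≠ 0 := fun h' => hw (Ideal.Quotient.eq_zero_iff_mem.1 h')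
  have hft := ft_surj (Ideal.Quotient.mk p) Ideal.Quotient.mk_surjective
  have hnb := not_big_quot h hp hp0
  by_cases hc : CharZero (Λ ⧸ p)
  swap
  · rw [if_neg fun h' => hc h'.2.charZero]
    obtain ⟨n, hn, hn0⟩ := exists_nat_zero hc
    refine (Asy.zero e).congr n hn fun F _ _ hF => ?_
    have : IsEmpty {φ : Λ →+* F // (∀ x ∈ p, φ x = 0) ∧ φ w ≠ 0} := by
      refine ⟨fun φ => hF ?_⟩
      have h1 : (n : Λ) ∈ p := by
        rw [← Ideal.Quotient.eq_zero_iff_mem, map_natCast]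
        exact hn0
      have h2 := φ.2.1 _ h1
      rwa [map_natCast] at h2
    rw [Nat.card_of_isEmpty, Nat.cast_zero]
  let M := FractionRing (Λ ⧸ p)
  have hMc : CharZero M := charZero_of_injective_algebraMap (IsFractionRing.injective (Λ ⧸ p) M)
  by_cases hb : Big (Λ ⧸ p) e
  · rw [if_pos ⟨hw, hb⟩]
    obtain ⟨L, iL, nL, hL⟩ := landau_all (M := M) (fg_frac (A := Λ ⧸ p)) (trdeg_eq_of hb hnb)
    obtain ⟨C, N, hC, hN, hCN⟩ := hL (Λ ⧸ p) (Ideal.Quotient.mk p w) hw0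
    refine ⟨Unit, inferInstance, fun _ => L, fun _ => iL, fun _ => nL, fun _ => 1, by simp, C, N, hC,
      hN, ?_⟩
    intro F _ _ hF
    have h1 := hCN F hF
    have h3 : cF (fun _ : Unit => L) (fun _ => 1) F = (Nat.card (𝓞 L →+* F) : ℝ) := by
      unfold cF
      simp
    rw [h3]
    show |(Nat.card {φ : Λ →+* F // (∀ x ∈ p, φ x = 0) ∧ φ w ≠ 0} : ℝ) - _| * _ ≤ _
    rw [card_quot p w F (fun z => z ≠ 0)]
    exact h1
  · rw [if_neg fun h' => hb h'.2]
    obtain ⟨e', rfl⟩ : ∃ e', e = e' + 1 := by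
      rcases Nat.eq_zero_or_pos e with h0 | h0
      · exfalso
        apply hb
        rw [h0, big_iff]
        simp
      · exact ⟨e - 1, by omega⟩
    obtain ⟨C, N, hC, hN, hCN⟩ := good_le (R := Λ ⧸ p) (K := M)
      (IsFractionRing.injective (Λ ⧸ p) M) (trdeg_le_of hb) (one_ne_zero (α := Λ ⧸ p))
    refine (Asy.zero _).near ⟨C, N, hC, hN, fun F _ _ hF => ?_⟩
    have h1 := (hCN F hF).1
    rw [sub_zero, Nat.abs_cast, card_quot p w F (fun z => z ≠ 0)]
    have h2 : (Nat.card {φ : Λ ⧸ p →+* F // φ (Ideal.Quotient.mk p w) ≠ 0} : ℝ) ≤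
        Nat.card (Λ ⧸ p →+* F) := by
      have := Nat.card_le_card_of_injective
        (fun φ : {φ : Λ ⧸ p →+* F // φ (Ideal.Quotient.mk p w) ≠ 0} => φ.1) Subtype.val_injective
      exact_mod_cast this
    have hq := one_le_card F
    have hs := sqrt_le_card F
    calc _ ≤ (C * (Nat.card F : ℝ) ^ e') * (Nat.card F : ℝ) :=
          mul_le_mul (h2.trans h1) hs (Real.sqrt_nonneg _) (by positivity)
      _ = C * (Nat.card F : ℝ) ^ (e' + 1) := by ring

/-- the points of a prime divisor in a closed subset -/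
theorem small_prime (h : ¬ Big Λ (e + 2)) {p : Ideal Λ} (hp : p.IsPrime) (hp0 : p ≠ ⊥) {u : Λ}
    (hu : u ∉ p) : ∃ (C : ℝ) (N : ℕ), 0 ≤ C ∧ N ≠ 0 ∧ ∀ (F : Type) [Field F] [Finite F],
      ((N : ℕ) : F) ≠ 0 →
        (Nat.card {φ : Λ →+* F // (∀ x ∈ p, φ x = 0) ∧ φ u = 0} : ℝ) * √(Nat.card F : ℝ) ≤
          C * (Nat.card F : ℝ) ^ e := by
  have hu0 : Ideal.Quotient.mk p u ≠ 0 := fun h' => hu (Ideal.Quotient.eq_zero_iff_mem.1 h')
  have hft := ft_surj (Ideal.Quotient.mk p) Ideal.Quotient.mk_surjective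
  have hnb := not_big_quot h hp hp0
  by_cases hc : CharZero (Λ ⧸ p)
  swap
  · obtain ⟨n, hn, hn0⟩ := exists_nat_zero hc
    refine ⟨0, n, le_rfl, hn, fun F _ _ hF => ?_⟩
    have : IsEmpty {φ : Λ →+* F // (∀ x ∈ p, φ x = 0) ∧ φ u = 0} := by
      refine ⟨fun φ => hF ?_⟩
      have h1 : (n : Λ) ∈ p := by
        rw [← Ideal.Quotient.eq_zero_iff_mem, map_natCast]
        exact hn0
      have h2 := φ.2.1 _ h1
      rwa [map_natCast] at h2
    rw [Nat.card_of_isEmpty, Nat.cast_zero]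
    simp
  let M := FractionRing (Λ ⧸ p)
  have hMc : CharZero M := charZero_of_injective_algebraMap (IsFractionRing.injective (Λ ⧸ p) M)
  obtain ⟨C, N, hC, hN, hCN⟩ := good_le (R := Λ ⧸ p) (K := M)
    (IsFractionRing.injective (Λ ⧸ p) M) (trdeg_le_of hnb) hu0
  refine ⟨C, N, hC, hN, fun F _ _ hF => ?_⟩
  rw [card_quot p u F (fun z => z = 0)]
  refine le_trans ?_ (hCN F hF).2
  exact mul_le_mul_of_nonneg_left (sqrt_le_card F) (Nat.cast_nonneg _)

open Classical in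
/-- **The number of the points of a divisor.** -/
theorem gdl (h : ¬ Big Λ (e + 2)) {f : Λ} (hf : f ≠ 0) (N : Λ) :
    Asy (fun F _ _ => (Nat.card {φ : Λ →+* F // φ f = 0 ∧ φ N ≠ 0} : ℝ)) e
      (Nat.card (Vn Λ f N e)) := by
  have hno : IsNoetherianRing Λ := Algebra.FiniteType.isNoetherianRing ℤ Λ
  have hPfin := Ideal.finite_minimalPrimes_of_isNoetherianRing Λ (Ideal.span {f})
  let PP : Finset (Ideal Λ) := hPfin.toFinset
  have hPP : ∀ p : Ideal Λ, p ∈ PP ↔ p ∈ (Ideal.span {f}).minimalPrimes := fun p =>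
    hPfin.mem_toFinset
  have hprime : ∀ p ∈ PP, p.IsPrime := fun p hp => ((hPP p).1 hp).1.1
  have hfp : ∀ p ∈ PP, f ∈ p := fun p hp =>
    ((hPP p).1 hp).1.2 (Ideal.mem_span_singleton_self f)
  have hne : ∀ p ∈ PP, p ≠ ⊥ := by
    intro p hp h0
    have := hfp p hp
    rw [h0] at this
    exact hf (by simpa using this)
  -- separating elements
  have hu : ∀ p ∈ PP, ∃ u : Λ, u ∉ p ∧ ∀ p' ∈ PP, p' ≠ p → u ∈ p' := by
    intro p hp
    have h1 : ∀ p' ∈ PP, ∃ u : Λ, u ∉ p ∧ (p' ≠ p → u ∈ p') := by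
      intro p' hp'
      by_cases hpp : p' = p
      · exact ⟨1, fun h' => (hprime p hp).ne_top ((Ideal.eq_top_iff_one _).2 h'),
          fun h' => absurd hpp h'⟩
      · have h2 : ¬ p' ≤ p := by
          intro hle
          have h3 := ((hPP p).1 hp).2 ((hPP p').1 hp').1 hle
          exact hpp (le_antisymm hle h3)
        obtain ⟨u, hu, hu'⟩ := SetLike.not_le_iff_exists.1 h2
        exact ⟨u, hu', fun _ => hu⟩
    choose! u hu1 hu2 using h1
    refine ⟨∏ p' ∈ PP, u p', ?_, ?_⟩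
    · intro hmem
      obtain ⟨p', hp', h3⟩ := ((hprime p hp).prod_mem_iff).1 hmem
      exact hu1 p' hp' h3
    · intro p' hp' hpp
      exact p'.mem_of_dvd (Finset.dvd_prod_of_mem u hp') (hu2 p' hp' hpp)
  choose! u hu1 hu2 using hu
  -- the main part
  have hmain : Asy (fun F _ _ => ∑ p ∈ PP, (Nat.card {φ : Λ →+* F // (∀ x ∈ p, φ x = 0) ∧
      φ (N * u p) ≠ 0} : ℝ)) e (∑ p ∈ PP, if N * u p ∉ p ∧ Big (Λ ⧸ p) e then (1 : ℝ) else 0) :=
    Asy.sum PP (fun p F _ _ => (Nat.card {φ : Λ →+* F // (∀ x ∈ p, φ x = 0) ∧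
      φ (N * u p) ≠ 0} : ℝ)) _ fun p hp => asy_prime h (hprime p hp) (hne p hp) _
  have hconst : (∑ p ∈ PP, if N * u p ∉ p ∧ Big (Λ ⧸ p) e then (1 : ℝ) else 0) =
      Nat.card (Vn Λ f N e) := by
    rw [Finset.sum_boole]
    congr 1
    symm
    refine (Nat.card_congr (Equiv.subtypeEquivRight (q := fun p => p ∈ PP.filter fun p =>
      N * u p ∉ p ∧ Big (Λ ⧸ p) e) fun p => ?_)).trans (by
        rw [Nat.card_eq_fintype_card, Fintype.card_coe])
    rw [Finset.mem_filter]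
    constructor
    · rintro ⟨h1, h2, h3, h4⟩
      have h5 : p ∈ PP := (hPP p).2 (mem_minimal hf h h1 h2 h4)
      refine ⟨h5, ?_, h4⟩
      intro h6
      rcases h1.mem_or_mem h6 with h7 | h7
      · exact h3 h7
      · exact hu1 p h5 h7
    · rintro ⟨h5, h6, h4⟩
      exact ⟨hprime p h5, hfp p h5, fun h7 => h6 (p.mul_mem_right _ h7), h4⟩
  rw [hconst] at hmain
  -- the error
  have hsm : ∀ p ∈ PP, ∃ (C : ℝ) (n : ℕ), 0 ≤ C ∧ n ≠ 0 ∧ ∀ (F : Type) [Field F] [Finite F],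
      ((n : ℕ) : F) ≠ 0 →
        (Nat.card {φ : Λ →+* F // (∀ x ∈ p, φ x = 0) ∧ φ (u p) = 0} : ℝ) * √(Nat.card F : ℝ) ≤
          C * (Nat.card F : ℝ) ^ e := fun p hp => small_prime h (hprime p hp) (hne p hp) (hu1 p hp)
  choose! C n hC hn hCn using hsm
  refine hmain.near ⟨∑ p ∈ PP, C p, ∏ p ∈ PP, n p, Finset.sum_nonneg hC,
    Finset.prod_ne_zero_iff.2 hn, fun F _ _ hF => ?_⟩
  have hF' : ∀ p ∈ PP, ((n p : ℕ) : F) ≠ 0 := by
    rw [Nat.cast_prod] at hF
    exact Finset.prod_ne_zero_iff.1 hF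
  have hfin : Finite (Λ →+* F) := Pool.Agent.TH958.An.finite_hom F
  let _ := Fintype.ofFinite (Λ →+* F)
  have nc : ∀ (P : (Λ →+* F) → Prop) [DecidablePred P],
      Nat.card {φ : Λ →+* F // P φ} = (Finset.univ.filter P).card :=
    fun P _ => by rw [Nat.card_eq_fintype_card, Fintype.card_subtype]
  set Z := Finset.univ.filter fun φ : Λ →+* F => φ f = 0 ∧ φ N ≠ 0 with hZ
  set Zp : Ideal Λ → Finset (Λ →+* F) := fun p =>
    Finset.univ.filter fun φ : Λ →+* F => (∀ x ∈ p, φ x = 0) ∧ φ (N * u p) ≠ 0 with hZp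
  set Wp : Ideal Λ → Finset (Λ →+* F) := fun p =>
    Finset.univ.filter fun φ : Λ →+* F => (∀ x ∈ p, φ x = 0) ∧ φ (u p) = 0 with hWp
  have hdisj : ∀ p ∈ PP, ∀ p' ∈ PP, p ≠ p' → Disjoint (Zp p) (Zp p') := by
    intro p hp p' hp' hpp
    rw [Finset.disjoint_left]
    intro φ h1 h2
    rw [hZp, Finset.mem_filter] at h1 h2
    apply h1.2.2
    rw [map_mul, h2.2.1 _ (hu2 p hp p' hp' hpp.symm), mul_zero]
  have hlow : ∑ p ∈ PP, (Zp p).card ≤ Z.card := by
    rw [← Finset.card_biUnion hdisj]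
    refine Finset.card_le_card fun φ hφ => ?_
    rw [Finset.mem_biUnion] at hφ
    obtain ⟨p, hp, h1⟩ := hφ
    rw [hZp, Finset.mem_filter] at h1
    rw [hZ, Finset.mem_filter]
    refine ⟨Finset.mem_univ _, h1.2.1 _ (hfp p hp), fun h2 => h1.2.2 ?_⟩
    rw [map_mul, h2, zero_mul]
  have hup : Z.card ≤ ∑ p ∈ PP, (Zp p).card + ∑ p ∈ PP, (Wp p).card := by
    refine le_trans ?_ (add_le_add Finset.card_biUnion_le Finset.card_biUnion_le)
    refine le_trans ?_ (Finset.card_union_le _ _)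
    refine Finset.card_le_card fun φ hφ => ?_
    rw [hZ, Finset.mem_filter] at hφ
    have hker : (RingHom.ker φ).IsPrime := RingHom.ker_isPrime φ
    have hle : Ideal.span {f} ≤ RingHom.ker φ := by
      rw [Ideal.span_singleton_le_iff_mem]
      exact hφ.2.1
    obtain ⟨p, hp, hpk⟩ := Ideal.exists_minimalPrimes_le hle
    have hpP := (hPP p).2 hp
    rw [Finset.mem_union, Finset.mem_biUnion, Finset.mem_biUnion]
    by_cases hup : φ (u p) = 0
    · right
      refine ⟨p, hpP, ?_⟩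
      rw [hWp, Finset.mem_filter]
      exact ⟨Finset.mem_univ _, fun x hx => hpk hx, hup⟩
    · left
      refine ⟨p, hpP, ?_⟩
      rw [hZp, Finset.mem_filter]
      refine ⟨Finset.mem_univ _, fun x hx => hpk hx, ?_⟩
      rw [map_mul]
      exact mul_ne_zero hφ.2.2 hup
  have e1 : (Nat.card {φ : Λ →+* F // φ f = 0 ∧ φ N ≠ 0} : ℝ) = Z.card := by
    rw [hZ, ← nc]
  have e2 : ∑ p ∈ PP, (Nat.card {φ : Λ →+* F // (∀ x ∈ p, φ x = 0) ∧ φ (N * u p) ≠ 0} : ℝ) =
      ((∑ p ∈ PP, (Zp p).card : ℕ) : ℝ) := by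
    rw [Nat.cast_sum]
    exact Finset.sum_congr rfl fun p _ => by rw [hZp, ← nc]
  have e3 : ((∑ p ∈ PP, (Wp p).card : ℕ) : ℝ) * √(Nat.card F : ℝ) ≤
      (∑ p ∈ PP, C p) * (Nat.card F : ℝ) ^ e := by
    rw [Nat.cast_sum, Finset.sum_mul, Finset.sum_mul]
    refine Finset.sum_le_sum fun p hp => ?_
    have h1 := hCn p hp F (hF' p hp)
    rw [hWp, ← nc]
    exact h1
  show |(Nat.card {φ : Λ →+* F // φ f = 0 ∧ φ N ≠ 0} : ℝ) - ∑ p ∈ PP, (Nat.card {φ : Λ →+* F //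
    (∀ x ∈ p, φ x = 0) ∧ φ (N * u p) ≠ 0} : ℝ)| * √(Nat.card F : ℝ) ≤ _
  rw [e1, e2]
  refine le_trans (mul_le_mul_of_nonneg_right ?_ (Real.sqrt_nonneg _)) e3
  have h1 : ((∑ p ∈ PP, (Zp p).card : ℕ) : ℝ) ≤ Z.card := by exact_mod_cast hlow
  have h2 : (Z.card : ℝ) ≤ ((∑ p ∈ PP, (Zp p).card : ℕ) : ℝ) + ((∑ p ∈ PP, (Wp p).card : ℕ) : ℝ) := by
    exact_mod_cast hup
  rw [abs_of_nonneg (by linarith)]
  linarith

end

end Pool.Agent.V7H34.NT
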