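import Pool.Agent.V7H34.NT.Cmp

/-!
# The hypotheses of the formula for the class group
-/

set_option autoImplicit false
set_option linter.all false

namespace Pool.Agent.V7H34.NT

open MvPolynomial IsDedekindDomain

section
variable {K L : Type} [Field K] [Field L] [Algebra K L] {Y Λ : Type} [CommRing Y] [CommRing Λ]
  [Algebra Y K] [Algebra Λ L]

/-- the localization of the base lies in the localization of the total space -/
def Incl (K L : Type) [Field K] [Field L] [Algebra K L] {Y Λ : Type} [CommRing Y] [CommRing Λ]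
    [Algebra Y K] [Algebra Λ L] (nY : Y) (nΛ : Λ) : Prop :=
  ∀ z ∈ loc Y (L := K) nY, algebraMap K L z ∈ loc Λ (L := L) nΛ

/-- homomorphisms from the localization of the base lift -/
def Lifts (K L : Type) [Field K] [Field L] [Algebra K L] {Y Λ : Type} [CommRing Y] [CommRing Λ]
    [Algebra Y K] [Algebra Λ L] (nY : Y) (nΛ : Λ) : Prop :=
  ∀ (F' : Type) [Field F'] (φ : Y →+* F'), φ nY ≠ 0 → ∃ (F : Type) (_ : Field F)
    (Φ : loc Λ (L := L) nΛ →+* F), ∀ (y : Y) (hy : algebraMap K L (algebraMap Y K y) ∈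
      loc Λ (L := L) nΛ), Φ ⟨_, hy⟩ = 0 ↔ φ y = 0

end

section
variable {R B K L : Type} [CommRing R] [IsDomain R] [CommRing B] [IsDomain B] [Field K] [Field L]
  [Algebra K L] [Algebra R K] [IsFractionRing R K] [Algebra B L] [IsFractionRing B L] [Algebra R B]
  {Y Λ : Type} [CommRing Y] [CommRing Λ] [Algebra Y K] [Algebra Λ L]

theorem incl_of (hRB : ∀ r : R, algebraMap B L (algebraMap R B r) = algebraMap K L (algebraMap R K r))
    {g : B} {N : R} {nY : Y} {nΛ : Λ} (e₁ : loc B (L := L) (g * algebraMap R B N) = loc Λ nΛ)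
    (e₂ : loc R (L := K) N = loc Y nY) : Incl K L nY nΛ := by
  intro z hz
  rw [← e₂] at hz
  rw [← e₁]
  exact loc_base hRB g N hz

theorem lifts_of [IsNoetherianRing R] [Algebra.FiniteType R B]
    (hRB : ∀ r : R, algebraMap B L (algebraMap R B r) = algebraMap K L (algebraMap R K r))
    {g : B} (hg : g ≠ 0) : ∃ ρ : R, ρ ≠ 0 ∧ ∀ N : R, N ≠ 0 → ρ ∣ N → ∀ (Y Λ : Type) [CommRing Y]
      [CommRing Λ] [Algebra Y K] [Algebra Λ L] (hinj : Function.Injective (algebraMap Y K))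
      (nY : Y) (nΛ : Λ), nY ≠ 0 → loc B (L := L) (g * algebraMap R B N) = loc Λ nΛ →
      loc R (L := K) N = loc Y nY → Lifts K L nY nΛ := by
  obtain ⟨ρ, hρ, h⟩ := lift_hom hRB hg
  refine ⟨ρ, hρ, fun N hN hρN Y Λ _ _ _ _ hinj nY nΛ hn0 e₁ e₂ F' _ φ hφ => ?_⟩
  obtain ⟨Φ₁, hΦ₁⟩ := (bij_loc (A := Y) (L := K) hinj hn0 F').2 ⟨φ, hφ⟩
  have hΦ₁' : ∀ y, Φ₁ (toLoc nY y) = φ y := fun y =>
    congrArg (fun w : {φ : Y →+* F' // φ nY ≠ 0} => w.1 y) hΦ₁
  obtain ⟨e, he⟩ := hom_val_congr e₂.symm F'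
  obtain ⟨F, iF, Φ, hΦ⟩ := h N hN hρN F' (e Φ₁)
  obtain ⟨e', he'⟩ := hom_val_congr e₁ F
  refine ⟨F, iF, e' Φ, fun y hy => ?_⟩
  have h1 : algebraMap Y K y ∈ loc R (L := K) N := by
    rw [e₂]
    exact base_mem _ _
  have h2 : algebraMap K L (algebraMap Y K y) ∈ loc B (L := L) (g * algebraMap R B N) := by
    rw [e₁]
    exact hy
  rw [← he' Φ _ h2 hy, hΦ _ h1 h2, ← he Φ₁ _ (base_mem nY y) h1]
  show Φ₁ (toLoc nY y) = 0 ↔ _
  rw [hΦ₁']

end

section
variable {A M K L : Type} {b : ℕ}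
  [CommRing A] [IsDomain A] [Field M] [Algebra A M] [IsFractionRing A M]
  [Field K] [Field L] [Algebra K L]
  [Algebra (MvPolynomial (Fin (b + 1)) M) K] [IsFractionRing (MvPolynomial (Fin (b + 1)) M) K]
  [Algebra (MvPolynomial (Fin (b + 1)) A) K]
  [Algebra (MvPolynomial (Fin (b + 2)) M) L] [IsFractionRing (MvPolynomial (Fin (b + 2)) M) L]
  [Algebra (MvPolynomial (Fin (b + 2)) A) L]

/-- the constants are compatible -/
def Cst (M K L : Type) (b : ℕ) [Field M] [Field K] [Field L] [Algebra K L]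
    [Algebra (MvPolynomial (Fin (b + 1)) M) K] [Algebra (MvPolynomial (Fin (b + 2)) M) L] : Prop :=
  ∀ c : M, algebraMap K L (algebraMap (MvPolynomial (Fin (b + 1)) M) K (C c)) =
    algebraMap (MvPolynomial (Fin (b + 2)) M) L (C c)

omit [IsDomain A] [IsFractionRing A M] [IsFractionRing (MvPolynomial (Fin (b + 1)) M) K]
  [IsFractionRing (MvPolynomial (Fin (b + 2)) M) L] in
theorem cst_A (hc : Cst M K L b) (hY : Comp A M (b + 1) K) (hL : Comp A M (b + 2) L) (α : A) :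
    algebraMap K L (algebraMap (MvPolynomial (Fin (b + 1)) A) K (C α)) =
      algebraMap (MvPolynomial (Fin (b + 2)) A) L (C α) := by
  rw [hY, hL]
  simp only [mp, map_C]
  exact hc _

/-- **The functions from the base.** -/
theorem mem_base_iff (hc : Cst M K L b) (hY : Comp A M (b + 1) K) (hL : Comp A M (b + 2) L)
    {nY : MvPolynomial (Fin (b + 1)) A} {nΛ : MvPolynomial (Fin (b + 2)) A} (hnY : nY ≠ 0)
    (hI : Incl K L nY nΛ) (hl : Lifts K L nY nΛ) (c : K) :
    algebraMap K L c ∈ loc (MvPolynomial (Fin (b + 2)) M) (L := L) (mp A M (b + 2) nΛ) ↔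
      c ∈ loc (MvPolynomial (Fin (b + 1)) M) (L := K) (mp A M (b + 1) nY) := by
  classical
  constructor
  swap
  · intro h
    rw [hY.mem_loc] at h
    obtain ⟨α, hα, h⟩ := h
    rw [hL.mem_loc]
    refine ⟨α, hα, ?_⟩
    have h1 := hI _ h
    rwa [map_mul, cst_A hc hY hL] at h1
  intro h
  by_cases hc0 : c = 0
  · rw [hc0]
    exact zero_mem _
  obtain ⟨a, b', hb', hab, hcop⟩ : ∃ a b' : MvPolynomial (Fin (b + 1)) M, b' ≠ 0 ∧
      c * algebraMap _ K b' = algebraMap _ K a ∧ ∀ d, d ∣ a → d ∣ b' → IsUnit d := by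
    obtain ⟨x, y, hy, hxy⟩ := IsFractionRing.div_surjective (A := MvPolynomial (Fin (b + 1)) M) c
    have hy0 := nonZeroDivisors.ne_zero hy
    obtain ⟨x', y', e, hcop, hx', hy'⟩ := UniqueFactorizationMonoid.exists_reduced_factors' x y hy0
    have he0 : e ≠ 0 := by
      rintro rfl
      exact hy0 (by rw [← hy', zero_mul])
    have hy0' : y' ≠ 0 := by
      rintro rfl
      exact hy0 (by rw [← hy', mul_zero])
    refine ⟨x', y', hy0', ?_, fun d hd hd' => hcop hd hd'⟩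
    have e0 : algebraMap (MvPolynomial (Fin (b + 1)) M) K e ≠ 0 := by
      rwa [Ne, IsFractionRing.to_map_eq_zero_iff]
    have e1 : algebraMap (MvPolynomial (Fin (b + 1)) M) K y' ≠ 0 := by
      rwa [Ne, IsFractionRing.to_map_eq_zero_iff]
    rw [← hxy, ← hx', ← hy', map_mul, map_mul]
    field_simp
  set n' := mp A M (b + 1) nY with hn'
  have hn0 : n' ≠ 0 := (map_ne_zero_iff _ mp_inj).2 hnY
  -- every irreducible factor of the denominator divides
  have key : ∀ π : MvPolynomial (Fin (b + 1)) M, Irreducible π → π ∣ b' → π ∣ n' := by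
    intro π hπ hπb
    by_contra hπn
    apply hπ.not_isUnit
    refine hcop π ?_ hπb
    let P : Ideal (MvPolynomial (Fin (b + 1)) M) := Ideal.span {π}
    have hP : P.IsPrime := by
      rw [Ideal.span_singleton_prime hπ.ne_zero]
      exact hπ.prime
    let F' := FractionRing (MvPolynomial (Fin (b + 1)) M ⧸ P)
    let φ₀ : MvPolynomial (Fin (b + 1)) M →+* F' :=
      (algebraMap (MvPolynomial (Fin (b + 1)) M ⧸ P) F').comp (Ideal.Quotient.mk P)
    have hφ₀ : ∀ β, φ₀ β = 0 ↔ π ∣ β := by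
      intro β
      show algebraMap _ F' (Ideal.Quotient.mk P β) = 0 ↔ _
      rw [IsFractionRing.to_map_eq_zero_iff, Ideal.Quotient.eq_zero_iff_mem,
        Ideal.mem_span_singleton]
    obtain ⟨F, iF, Φ, hΦ⟩ := hl F' (φ₀.comp (mp A M (b + 1))) (by
      show φ₀ n' ≠ 0
      rwa [Ne, hφ₀])
    have hmemY : ∀ y : MvPolynomial (Fin (b + 1)) A, algebraMap K L (algebraMap _ K y) ∈
        loc (MvPolynomial (Fin (b + 2)) A) (L := L) nΛ := fun y => hI _ (base_mem _ _)
    obtain ⟨α, a₁, hα, ha₁⟩ := exists_num (A := A) a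
    obtain ⟨β, b₁, hβ, hb₁⟩ := exists_num (A := A) b'
    obtain ⟨γ, hγ, hγc⟩ := (hL.mem_loc _).1 h
    -- the equation
    have heq : (⟨_, hmemY (C α)⟩ : loc (MvPolynomial (Fin (b + 2)) A) (L := L) nΛ) *
        (⟨_, hγc⟩ * ⟨_, hmemY b₁⟩) = ⟨_, hmemY (C γ)⟩ * (⟨_, hmemY (C β)⟩ * ⟨_, hmemY a₁⟩) := by
      apply Subtype.ext
      show algebraMap K L (algebraMap _ K (C α)) * ((algebraMap _ L (C γ) * algebraMap K L c) *
        algebraMap K L (algebraMap _ K b₁)) = algebraMap K L (algebraMap _ K (C γ)) *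
        (algebraMap K L (algebraMap _ K (C β)) * algebraMap K L (algebraMap _ K a₁))
      have ea : algebraMap (MvPolynomial (Fin (b + 1)) M) K (mp A M (b + 1) a₁) =
          algebraMap (MvPolynomial (Fin (b + 1)) M) K (mp A M (b + 1) (C α)) *
            (c * algebraMap (MvPolynomial (Fin (b + 1)) M) K b') := by
        rw [← ha₁, map_mul, hab]
      have eb : algebraMap (MvPolynomial (Fin (b + 1)) M) K (mp A M (b + 1) b₁) =
          algebraMap (MvPolynomial (Fin (b + 1)) M) K (mp A M (b + 1) (C β)) *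
            algebraMap (MvPolynomial (Fin (b + 1)) M) K b' := by
        rw [← hb₁, map_mul]
      rw [← cst_A hc hY hL γ, hY b₁, hY a₁, ea, eb, hY (C α), hY (C β)]
      simp only [map_mul]
      ring
    have h1 := congrArg Φ heq
    rw [map_mul, map_mul, map_mul, map_mul] at h1
    have h2 : Φ ⟨_, hmemY b₁⟩ = 0 := by
      rw [hΦ]
      show φ₀ (mp A M (b + 1) b₁) = 0
      rw [← hb₁, hφ₀]
      exact dvd_mul_of_dvd_right hπb _
    rw [h2, mul_zero, mul_zero] at h1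
    have h3 : ∀ {δ : A}, δ ≠ 0 → Φ ⟨_, hmemY (C δ)⟩ ≠ 0 := by
      intro δ hδ h0
      rw [hΦ] at h0
      have h4 : φ₀ (mp A M (b + 1) (C δ)) = 0 := h0
      rw [hφ₀] at h4
      refine hπ.not_isUnit (isUnit_of_dvd_unit h4 ?_)
      simp only [mp, map_C]
      refine IsUnit.map C (isUnit_iff_ne_zero.2 ?_)
      rwa [Ne, IsFractionRing.to_map_eq_zero_iff]
    have h5 : Φ ⟨_, hmemY a₁⟩ = 0 := by
      rcases mul_eq_zero.1 h1.symm with h6 | h6
      · exact absurd h6 (h3 hγ)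
      · rcases mul_eq_zero.1 h6 with h7 | h7
        · exact absurd h7 (h3 hβ)
        · exact h7
    rw [hΦ] at h5
    have h8 : φ₀ (mp A M (b + 1) a₁) = 0 := h5
    rw [← ha₁, hφ₀] at h8
    rcases hπ.prime.dvd_or_dvd h8 with h9 | h9
    · refine absurd (isUnit_of_dvd_unit h9 ?_) hπ.not_isUnit
      simp only [mp, map_C]
      refine IsUnit.map C (isUnit_iff_ne_zero.2 ?_)
      rwa [Ne, IsFractionRing.to_map_eq_zero_iff]
    · exact h9
  -- hence the denominator divides a power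
  have hpow : ∀ b' : MvPolynomial (Fin (b + 1)) M, b' ≠ 0 →
      (∀ π : MvPolynomial (Fin (b + 1)) M, Irreducible π → π ∣ b' → π ∣ n') →
      ∃ m : ℕ, b' ∣ n' ^ m := by
    intro b'
    induction b' using WfDvdMonoid.induction_on_irreducible with
    | zero => intro h; exact absurd rfl h
    | unit u hu => exact fun _ _ => ⟨0, hu.dvd⟩
    | mul a π ha hπ ih =>
      intro _ hall
      obtain ⟨m, hm⟩ := ih ha fun π' hπ' hd => hall π' hπ' (dvd_mul_of_dvd_right hd _)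
      have h1 := hall π hπ (dvd_mul_right _ _)
      exact ⟨m + 1, by rw [pow_succ, mul_comm]; exact mul_dvd_mul hm h1⟩
  obtain ⟨m, e, he⟩ := hpow b' hb' key
  refine ⟨m, e * a, ?_⟩
  rw [← map_pow, he, map_mul, map_mul, ← hab]
  ring

/-- **The vertical primes.** -/
theorem vert_iff (hc : Cst M K L b) (hY : Comp A M (b + 1) K) (hL : Comp A M (b + 2) L)
    {nY : MvPolynomial (Fin (b + 1)) A} {nΛ : MvPolynomial (Fin (b + 2)) A} (hnY : nY ≠ 0)
    (hnΛ : nΛ ≠ 0) (hI : Incl K L nY nΛ) (hl : Lifts K L nY nΛ) {q : Ideal A} (hq : q.IsPrime) :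
    nΛ ∈ q.map (C (σ := Fin (b + 2))) ↔ nY ∈ q.map (C (σ := Fin (b + 1))) := by
  constructor
  · intro h
    by_contra hn
    have hP : (q.map (C (σ := Fin (b + 1)))).IsPrime := prime_map_C hq
    let F' := FractionRing (MvPolynomial (Fin (b + 1)) A ⧸ q.map (C (σ := Fin (b + 1))))
    let φ₀ : MvPolynomial (Fin (b + 1)) A →+* F' :=
      (algebraMap (MvPolynomial (Fin (b + 1)) A ⧸ q.map (C (σ := Fin (b + 1)))) F').comp
        (Ideal.Quotient.mk (q.map (C (σ := Fin (b + 1)))))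
    have hφ₀ : ∀ β, φ₀ β = 0 ↔ β ∈ q.map (C (σ := Fin (b + 1))) := by
      intro β
      show algebraMap _ F' (Ideal.Quotient.mk (q.map (C (σ := Fin (b + 1)))) β) = 0 ↔ _
      rw [IsFractionRing.to_map_eq_zero_iff, Ideal.Quotient.eq_zero_iff_mem]
    obtain ⟨F, iF, Φ, hΦ⟩ := hl F' φ₀ (by rwa [Ne, hφ₀])
    have h1 : q.map (C (σ := Fin (b + 2))) ≤ RingHom.ker (Φ.comp (toLoc nΛ)) := by
      rw [Ideal.map_le_iff_le_comap]
      intro α hα
      show Φ (toLoc nΛ (C α)) = 0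
      have h2 : algebraMap K L (algebraMap (MvPolynomial (Fin (b + 1)) A) K (C α)) ∈
          loc (MvPolynomial (Fin (b + 2)) A) (L := L) nΛ := hI _ (base_mem _ _)
      have h3 : toLoc nΛ (C α) = (⟨_, h2⟩ : loc (MvPolynomial (Fin (b + 2)) A) (L := L) nΛ) :=
        Subtype.ext (cst_A hc hY hL α).symm
      rw [h3, hΦ, hφ₀]
      exact Ideal.mem_map_of_mem _ hα
    have h4 : Φ (toLoc nΛ nΛ) = 0 := h1 h
    have hn0 : algebraMap (MvPolynomial (Fin (b + 2)) A) L nΛ ≠ 0 := by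
      rwa [Ne, map_eq_zero_iff _ hL.inj]
    have h5 : toLoc nΛ nΛ * ⟨_, inv_mem_loc hn0⟩ =
        (1 : loc (MvPolynomial (Fin (b + 2)) A) (L := L) nΛ) := Subtype.ext (mul_inv_cancel₀ hn0)
    have h6 := congrArg Φ h5
    rw [map_mul, h4, zero_mul, map_one] at h6
    exact zero_ne_one h6
  · intro h
    by_contra hn
    have hP : (q.map (C (σ := Fin (b + 2)))).IsPrime := prime_map_C hq
    let F' := FractionRing (MvPolynomial (Fin (b + 2)) A ⧸ q.map (C (σ := Fin (b + 2))))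
    let φ₀ : MvPolynomial (Fin (b + 2)) A →+* F' :=
      (algebraMap (MvPolynomial (Fin (b + 2)) A ⧸ q.map (C (σ := Fin (b + 2)))) F').comp
        (Ideal.Quotient.mk (q.map (C (σ := Fin (b + 2)))))
    have hφ₀ : ∀ β, φ₀ β = 0 ↔ β ∈ q.map (C (σ := Fin (b + 2))) := by
      intro β
      show algebraMap _ F' (Ideal.Quotient.mk (q.map (C (σ := Fin (b + 2)))) β) = 0 ↔ _
      rw [IsFractionRing.to_map_eq_zero_iff, Ideal.Quotient.eq_zero_iff_mem]
    obtain ⟨Φ, hΦ⟩ := (bij_loc (A := MvPolynomial (Fin (b + 2)) A) (L := L) hL.inj hnΛ F').2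
      ⟨φ₀, by rwa [Ne, hφ₀]⟩
    have hΦ' : ∀ β, Φ (toLoc nΛ β) = φ₀ β := fun β =>
      congrArg (fun w : {φ : MvPolynomial (Fin (b + 2)) A →+* F' // φ nΛ ≠ 0} => w.1 β) hΦ
    let j : MvPolynomial (Fin (b + 1)) A →+* loc (MvPolynomial (Fin (b + 2)) A) (L := L) nΛ :=
      ((algebraMap K L).comp (algebraMap (MvPolynomial (Fin (b + 1)) A) K)).codRestrict
        (loc (MvPolynomial (Fin (b + 2)) A) (L := L) nΛ) fun y => hI _ (base_mem _ _)
    have h1 : q.map (C (σ := Fin (b + 1))) ≤ RingHom.ker (Φ.comp j) := by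
      rw [Ideal.map_le_iff_le_comap]
      intro α hα
      show Φ (j (C α)) = 0
      have h3 : j (C α) = toLoc nΛ (C α) := Subtype.ext (cst_A hc hY hL α)
      rw [h3, hΦ', hφ₀]
      exact Ideal.mem_map_of_mem _ hα
    have h4 : Φ (j nY) = 0 := h1 h
    have hn0 : algebraMap (MvPolynomial (Fin (b + 1)) A) K nY ≠ 0 := by
      rwa [Ne, map_eq_zero_iff _ hY.inj]
    have h5 : j nY * ⟨_, hI _ (inv_mem_loc hn0)⟩ =
        (1 : loc (MvPolynomial (Fin (b + 2)) A) (L := L) nΛ) := by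
      apply Subtype.ext
      show algebraMap K L (algebraMap (MvPolynomial (Fin (b + 1)) A) K nY) *
        algebraMap K L (algebraMap (MvPolynomial (Fin (b + 1)) A) K nY)⁻¹ = 1
      rw [← map_mul, mul_inv_cancel₀ hn0, map_one]
    have h6 := congrArg Φ h5
    rw [map_mul, h4, zero_mul, map_one] at h6
    exact zero_ne_one h6

theorem card_Wt_eq (hc : Cst M K L b) (hY : Comp A M (b + 1) K) (hL : Comp A M (b + 2) L)
    {nY : MvPolynomial (Fin (b + 1)) A} {nΛ : MvPolynomial (Fin (b + 2)) A} (hnY : nY ≠ 0)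
    (hnΛ : nΛ ≠ 0) (hI : Incl K L nY nΛ) (hl : Lifts K L nY nΛ) (d : ℕ) :
    Nat.card (Wt A d nΛ) = Nat.card (Wt A d nY) := by
  refine Nat.card_congr (Equiv.subtypeEquivRight fun q => ?_)
  constructor
  · rintro ⟨h1, h2, h3, h4, h5⟩
    exact ⟨h1, h2, h3, h4, (vert_iff hc hY hL hnY hnΛ hI hl h1).1 h5⟩
  · rintro ⟨h1, h2, h3, h4, h5⟩
    exact ⟨h1, h2, h3, h4, (vert_iff hc hY hL hnY hnΛ hI hl h1).2 h5⟩

/-- the units of the polynomial rings -/
theorem units_cst (hc : Cst M K L b) : unitsOf (MvPolynomial (Fin (b + 2)) M) L =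
    (unitsOf (MvPolynomial (Fin (b + 1)) M) K).map (jj K L) := by
  ext x
  constructor
  · rintro ⟨ε, hε⟩
    have h1 := ε.isUnit
    rw [isUnit_iff_eq_C_of_isReduced] at h1
    obtain ⟨c, hcu, hc'⟩ := h1
    have h2 : IsUnit (C c : MvPolynomial (Fin (b + 1)) M) := IsUnit.map C hcu
    obtain ⟨ε', hε'⟩ := h2
    have h3 : algebraMap (MvPolynomial (Fin (b + 1)) M) K (C c) ≠ 0 := by
      rw [Ne, IsFractionRing.to_map_eq_zero_iff, ← hε']
      exact Units.ne_zero _
    refine ⟨Additive.ofMul (Units.mk0 _ h3), ⟨ε', by rw [hε']; rfl⟩, ?_⟩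
    apply Additive.toMul.injective
    apply Units.ext
    rw [jj_val, ← hε, hc']
    exact hc c
  · rintro ⟨y, ⟨ε, hε⟩, rfl⟩
    have h1 := ε.isUnit
    rw [isUnit_iff_eq_C_of_isReduced] at h1
    obtain ⟨c, hcu, hc'⟩ := h1
    have h2 : IsUnit (C c : MvPolynomial (Fin (b + 2)) M) := IsUnit.map C hcu
    obtain ⟨ε', hε'⟩ := h2
    refine ⟨ε', ?_⟩
    rw [hε', ← hc, jj_val, ← hε, hc']

end

end Pool.Agent.V7H34.NT
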