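import Pool.Agent.V7H34.NT.Nav

/-!
# The average of the sums over the points
-/

set_option autoImplicit false
set_option linter.all false
set_option maxHeartbeats 1000000

namespace Pool.Agent.V7H34.NT

open NumberField IsDedekindDomain Filter Topology
open Pool.Agent.H921R2.TatePole (nm two_le_nm kerPrime)

section
variable {k : Type} [Field k] [NumberField k]

/-- a function of the homomorphisms from the ring of integers -/
abbrev Sf (k : Type) [Field k] : Type 1 := ∀ (F : Type) [CommRing F], (𝓞 k →+* F) → ℝ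

/-- the average at a prime -/
noncomputable def avg (s : Sf k) (e : ℕ) (v : HeightOneSpectrum (𝓞 k)) : ℝ :=
  ((Nat.card (𝓞 k ⧸ v.asIdeal) : ℝ) ^ e)⁻¹ * s (𝓞 k ⧸ v.asIdeal) (Ideal.Quotient.mk v.asIdeal)

/-- **The averages over the primes.** -/
theorem tau (s : Sf k) (hiso : ∀ (F F' : Type) [CommRing F] [CommRing F'] (e : F ≃+* F')
      (ψ : 𝓞 k →+* F), s F' ((e : F →+* F').comp ψ) = s F ψ) {e : ℕ}
    (hb : ∃ (C : ℝ) (m : ℕ), 0 ≤ C ∧ m ≠ 0 ∧ ∀ (F : Type) [Field F] [Finite F], ((m : ℕ) : F) ≠ 0 →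
      ∀ ψ : 𝓞 k →+* F, |s F ψ| ≤ C * (Nat.card F : ℝ) ^ e)
    {r : ℝ} (hA : Asy (fun F _ _ => ∑ᶠ ψ : 𝓞 k →+* F, s F ψ) e r)
    (S : Finset (HeightOneSpectrum (𝓞 k))) :
    Tendsto (fun T : ℝ => sumT S (avg s e) T / T) atTop (𝓝 r) := by
  classical
  obtain ⟨C1, m1, hC1, hm1, g1⟩ := hb
  -- the average is bounded
  have hb : ∀ᶠ v : HeightOneSpectrum (𝓞 k) in cofinite, |avg s e v| ≤ C1 := by
    have hm : (((m1 : ℕ)) : 𝓞 k) ≠ 0 := by exact_mod_cast hm1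
    filter_upwards [ae_notMem hm] with v hv
    have hfin : Finite (𝓞 k ⧸ v.asIdeal) := Pool.Agent.H341R2.finite_v v
    have hmax : v.asIdeal.IsMaximal := v.isMaximal
    have hmv : (((m1 : ℕ)) : 𝓞 k ⧸ v.asIdeal) ≠ 0 := by
      intro h0
      apply hv
      rw [← Ideal.Quotient.eq_zero_iff_mem, map_natCast]
      exact h0
    have e1 := @g1 (𝓞 k ⧸ v.asIdeal) (Ideal.Quotient.field v.asIdeal) hfin hmv
      (Ideal.Quotient.mk v.asIdeal)
    have hq1 : (0 : ℝ) < Nat.card (𝓞 k ⧸ v.asIdeal) := by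
      exact_mod_cast Nat.card_pos
    have hqe : (0 : ℝ) < (Nat.card (𝓞 k ⧸ v.asIdeal) : ℝ) ^ e := by positivity
    unfold avg
    rw [abs_mul, abs_of_pos (inv_pos.2 hqe), inv_mul_le_iff₀ hqe, mul_comm]
    exact e1
  obtain ⟨B', hB'⟩ := bound_fin hb
  obtain ⟨κ, i1, L, i2, i3, a, ha, C, N, hC, hN, h1⟩ := hA
  refine natural_fun hB' L a ha (D := C) ?_ S
  have hcof : ∀ᶠ p : Nat.Primes in Filter.cofinite, ((N : ℕ) : ZMod (p : ℕ)) ≠ 0 := by
    have hfin : {p : Nat.Primes | ((N : ℕ) : ZMod (p : ℕ)) = 0}.Finite := by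
      refine Set.Finite.of_injOn (f := fun p : Nat.Primes => (p : ℕ))
        (t := (N.primeFactors : Set ℕ)) ?_ ?_ (Finset.finite_toSet _)
      · intro p hp
        rw [Set.mem_ofPred_eq, ZMod.natCast_eq_zero_iff] at hp
        exact Nat.mem_primeFactors.2 ⟨p.2, hp, hN⟩
      · intro p _ q _ h
        exact Subtype.ext h
    rw [Filter.eventually_cofinite]
    simpa only [ne_eq, not_not] using hfin
  filter_upwards [hcof] with p hp
  have : Fact (p : ℕ).Prime := ⟨p.2⟩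
  have hfin := Pool.Agent.H921R2.TatePole.hom_finite (K := k) p
  let _ := Fintype.ofFinite (𝓞 k →+* ZMod (p : ℕ))
  have hcard : (Nat.card (ZMod (p : ℕ)) : ℝ) = ((p : ℕ) : ℝ) := by
    rw [Nat.card_eq_fintype_card, ZMod.card]
  have e2 := h1 (ZMod (p : ℕ)) hp
  rw [hcard] at e2
  set q : ℝ := ((p : ℕ) : ℝ) with hq
  have hq0 : (0 : ℝ) < q := by
    rw [hq]
    exact_mod_cast p.2.pos
  have hqe : (0 : ℝ) < q ^ e := by positivity
  have hs : 0 < √q := Real.sqrt_pos.2 hq0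
  have hker : ∀ ψ : 𝓞 k →+* ZMod (p : ℕ), avg s e (kerPrime p ψ).1.1 =
      (q ^ e)⁻¹ * s (ZMod (p : ℕ)) ψ := by
    intro ψ
    have hsurj : Function.Surjective ψ := ZMod.ringHom_surjective ψ
    let e' : (𝓞 k ⧸ (kerPrime p ψ).1.1.asIdeal) ≃+* ZMod (p : ℕ) :=
      RingHom.quotientKerEquivOfSurjective hsurj
    have he : (e' : (𝓞 k ⧸ (kerPrime p ψ).1.1.asIdeal) →+* ZMod (p : ℕ)).comp
        (Ideal.Quotient.mk (kerPrime p ψ).1.1.asIdeal) = ψ := by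
      ext x
      rfl
    have h1 := hiso _ _ e' (Ideal.Quotient.mk (kerPrime p ψ).1.1.asIdeal)
    rw [he] at h1
    unfold avg
    have h2 : (Nat.card (𝓞 k ⧸ (kerPrime p ψ).1.1.asIdeal) : ℝ) = q := by
      rw [Nat.card_congr e'.toEquiv, hcard]
    rw [h2, h1]
  have e3 : ∑ᶠ ψ : 𝓞 k →+* ZMod (p : ℕ), avg s e (kerPrime p ψ).1.1 =
      (q ^ e)⁻¹ * ∑ᶠ ψ : 𝓞 k →+* ZMod (p : ℕ), s (ZMod (p : ℕ)) ψ := by
    rw [finsum_eq_sum_of_fintype, finsum_eq_sum_of_fintype, Finset.mul_sum]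
    exact Finset.sum_congr rfl fun ψ _ => hker ψ
  have e5 : ((p : ℕ) : ℝ) ^ (-(1 / 2) : ℝ) = (√q)⁻¹ := by
    rw [hq, Real.sqrt_eq_rpow, ← Real.rpow_neg hq0.le]
  rw [e3, e5]
  have e6 : (q ^ e)⁻¹ * (∑ᶠ ψ : 𝓞 k →+* ZMod (p : ℕ), s (ZMod (p : ℕ)) ψ) - cF L a (ZMod (p : ℕ)) =
      ((∑ᶠ ψ : 𝓞 k →+* ZMod (p : ℕ), s (ZMod (p : ℕ)) ψ) - cF L a (ZMod (p : ℕ)) * q ^ e) /
        q ^ e := by
    field_simp
  rw [e6, abs_div, abs_of_pos hqe, div_le_iff₀ hqe, ← div_eq_mul_inv, div_mul_eq_mul_div,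
    le_div_iff₀ hs]
  exact e2

end

end Pool.Agent.V7H34.NT
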