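import Pool.Agent.V7H34.NT.Gdl
import Pool.Agent.V7H34.NT.Tau

/-!
# The counts of the points of the fibres
-/

set_option autoImplicit false
set_option linter.all false
set_option maxHeartbeats 1000000

namespace Pool.Agent.V7H34.NT

open NumberField IsDedekindDomain

section
variable {O X : Type} [CommRing O] [CommRing X]

/-- the number of the points with a property -/
noncomputable def nP (ρ : O →+* X) {F : Type} [CommRing F] (ψ : O →+* F) (P : (X →+* F) → Prop) : ℝ :=
  Nat.card {φ : X →+* F // φ.comp ρ = ψ ∧ P φ}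

theorem nP_nonneg (ρ : O →+* X) {F : Type} [CommRing F] (ψ : O →+* F) (P : (X →+* F) → Prop) :
    0 ≤ nP ρ ψ P := Nat.cast_nonneg _

variable {F : Type} [Field F] [Finite F]

theorem nP_le [Algebra.FiniteType ℤ X] (ρ : O →+* X) (ψ : O →+* F) (P Q : (X →+* F) → Prop)
    (h : ∀ φ, P φ → Q φ) : nP ρ ψ P ≤ Nat.card {φ : X →+* F // Q φ} := by
  have hfin : Finite (X →+* F) := Pool.Agent.TH958.An.finite_hom F
  unfold nP
  have := Nat.card_le_card_of_injective
    (fun φ : {φ : X →+* F // φ.comp ρ = ψ ∧ P φ} => (⟨φ.1, h _ φ.2.2⟩ : {φ : X →+* F // Q φ}))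
    (fun φ φ' h => Subtype.ext (congrArg (fun w => w.1) h))
  exact_mod_cast this

theorem nP_split [Algebra.FiniteType ℤ X] (ρ : O →+* X) (ψ : O →+* F) (P Q : (X →+* F) → Prop) :
    nP ρ ψ P = nP ρ ψ (fun φ => P φ ∧ Q φ) + nP ρ ψ (fun φ => P φ ∧ ¬ Q φ) := by
  classical
  have hfin : Finite (X →+* F) := Pool.Agent.TH958.An.finite_hom F
  unfold nP
  rw [← Nat.cast_add, ← Nat.card_sum]
  congr 1
  refine Nat.card_congr ?_
  refine (Equiv.sumCompl (fun φ : {φ : X →+* F // φ.comp ρ = ψ ∧ P φ} => Q φ.1)).symm.trans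
    (Equiv.sumCongr ?_ ?_)
  · exact ⟨fun φ => ⟨φ.1.1, φ.1.2.1, φ.1.2.2, φ.2⟩, fun φ => ⟨⟨φ.1, φ.2.1, φ.2.2.1⟩, φ.2.2.2⟩,
      fun _ => rfl, fun _ => rfl⟩
  · exact ⟨fun φ => ⟨φ.1.1, φ.1.2.1, φ.1.2.2, φ.2⟩, fun φ => ⟨⟨φ.1, φ.2.1, φ.2.2.1⟩, φ.2.2.2⟩,
      fun _ => rfl, fun _ => rfl⟩

theorem nP_congr (ρ : O →+* X) (ψ : O →+* F) {P Q : (X →+* F) → Prop} (h : ∀ φ, P φ ↔ Q φ) :
    nP ρ ψ P = nP ρ ψ Q := by
  have : P = Q := funext fun φ => propext (h φ)
  rw [this]

theorem nP_sum [Finite (O →+* F)] [Algebra.FiniteType ℤ X] (ρ : O →+* X) (P : (X →+* F) → Prop) :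
    ∑ᶠ ψ : O →+* F, nP ρ ψ P = Nat.card {φ : X →+* F // P φ} := by
  classical
  have hfin : Finite (X →+* F) := Pool.Agent.TH958.An.finite_hom F
  let _ := Fintype.ofFinite (O →+* F)
  rw [finsum_eq_sum_of_fintype]
  unfold nP
  rw [← Nat.cast_sum, ← Nat.card_sigma]
  congr 1
  refine Nat.card_congr ?_
  exact ⟨fun x => ⟨x.2.1, x.2.2.2⟩, fun φ => ⟨φ.1.comp ρ, ⟨φ.1, rfl, φ.2⟩⟩, by
    rintro ⟨ψ, ⟨φ, rfl, h⟩⟩
    rfl, fun _ => rfl⟩

end

section
variable {O A : Type} [CommRing O] [CommRing A] {F : Type} [Field F] [Finite F]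

/-- the points of the affine space -/
theorem nP_mv (ρ : O →+* A) (ψ : O →+* F) (n : ℕ) :
    nP ((MvPolynomial.C (σ := Fin n)).comp ρ) ψ (fun _ => True) =
      nP ρ ψ (fun _ => True) * (Nat.card F : ℝ) ^ n := by
  unfold nP
  rw [← Nat.cast_pow, ← Nat.cast_mul]
  congr 1
  have h1 : Nat.card F ^ n = Nat.card (Fin n → F) := by
    rw [Nat.card_fun, Nat.card_fin]
  rw [h1, ← Nat.card_prod]
  refine Nat.card_congr ?_
  exact
    { toFun := fun φ => (⟨φ.1.comp MvPolynomial.C, by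
        rw [RingHom.comp_assoc]
        exact φ.2.1, trivial⟩, fun i => φ.1 (MvPolynomial.X i))
      invFun := fun x => ⟨MvPolynomial.eval₂Hom x.1.1 x.2, by
        rw [← RingHom.comp_assoc]
        have : (MvPolynomial.eval₂Hom x.1.1 x.2).comp MvPolynomial.C = x.1.1 := by
          ext a
          simp
        rw [this]
        exact x.1.2.1, trivial⟩
      left_inv := fun φ => by
        apply Subtype.ext
        apply MvPolynomial.ringHom_ext
        · intro a
          simp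
        · intro i
          simp
      right_inv := fun x => by
        apply Prod.ext
        · apply Subtype.ext
          ext a
          simp
        · funext i
          simp }

end

section
variable {O R B : Type} [CommRing O] [CommRing R] [CommRing B] [Algebra R B] [Algebra O R]

/-- the sum over the points of the base, of the traces of Frobenius on the fibres -/
noncomputable def sF (B : Type) [CommRing B] [Algebra R B] (N : R) (F : Type) [CommRing F]
    (ψ : O →+* F) : ℝ :=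
  ∑ᶠ φ : {φ : R →+* F // φ.comp (algebraMap O R) = ψ ∧ φ N ≠ 0},
    ((Nat.card F : ℝ) - Nat.card {χ : B →+* F // χ.comp (algebraMap R B) = φ.1})

theorem sF_iso (N : R) (F F' : Type) [CommRing F] [CommRing F'] (e : F ≃+* F') (ψ : O →+* F) :
    sF B N F' ((e : F →+* F').comp ψ) = sF B N F ψ := by
  unfold sF
  let E : {φ : R →+* F // φ.comp (algebraMap O R) = ψ ∧ φ N ≠ 0} ≃
      {φ : R →+* F' // φ.comp (algebraMap O R) = (e : F →+* F').comp ψ ∧ φ N ≠ 0} :=
    { toFun := fun φ => ⟨(e : F →+* F').comp φ.1, by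
        rw [RingHom.comp_assoc, φ.2.1], by
        rw [RingHom.comp_apply]
        exact (map_ne_zero_iff _ e.injective).2 φ.2.2⟩
      invFun := fun φ => ⟨(e.symm : F' →+* F).comp φ.1, by
        rw [RingHom.comp_assoc, φ.2.1, ← RingHom.comp_assoc]
        ext x
        show e.symm (e (ψ x)) = ψ x
        rw [e.symm_apply_apply], by
        rw [RingHom.comp_apply]
        exact (map_ne_zero_iff _ e.symm.injective).2 φ.2.2⟩
      left_inv := fun φ => Subtype.ext (RingHom.ext fun x => e.symm_apply_apply _)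
      right_inv := fun φ => Subtype.ext (RingHom.ext fun x => e.apply_symm_apply _) }
  refine (finsum_comp_equiv E (f := fun φ => ((Nat.card F' : ℝ) -
    Nat.card {χ : B →+* F' // χ.comp (algebraMap R B) = φ.1}))).symm.trans ?_
  refine finsum_congr fun φ => ?_
  have h1 : Nat.card F' = Nat.card F := (Nat.card_congr e.toEquiv).symm
  have h2 : Nat.card {χ : B →+* F' // χ.comp (algebraMap R B) = (E φ).1} =
      Nat.card {χ : B →+* F // χ.comp (algebraMap R B) = φ.1} := by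
    refine Nat.card_congr
      { toFun := fun χ => ⟨(e.symm : F' →+* F).comp χ.1, by
          rw [RingHom.comp_assoc, χ.2]
          ext x
          exact e.symm_apply_apply _⟩
        invFun := fun χ => ⟨(e : F →+* F').comp χ.1, by
          rw [RingHom.comp_assoc, χ.2]
          rfl⟩
        left_inv := fun χ => Subtype.ext (RingHom.ext fun x => e.apply_symm_apply _)
        right_inv := fun χ => Subtype.ext (RingHom.ext fun x => e.symm_apply_apply _) }
  rw [h1, h2]

theorem sF_eq [Algebra.FiniteType ℤ R] [Algebra.FiniteType ℤ B] (N : R) {F : Type} [Field F]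
    [Finite F] (ψ : O →+* F) : sF B N F ψ =
      (Nat.card F : ℝ) * nP (algebraMap O R) ψ (fun φ => φ N ≠ 0) -
        nP ((algebraMap R B).comp (algebraMap O R)) ψ (fun χ => χ (algebraMap R B N) ≠ 0) := by
  classical
  have hfin : Finite (R →+* F) := Pool.Agent.TH958.An.finite_hom F
  have hfin' : Finite (B →+* F) := Pool.Agent.TH958.An.finite_hom F
  unfold sF
  let _ := Fintype.ofFinite {φ : R →+* F // φ.comp (algebraMap O R) = ψ ∧ φ N ≠ 0}
  rw [finsum_eq_sum_of_fintype, Finset.sum_sub_distrib, Finset.sum_const, nsmul_eq_mul,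
    Finset.card_univ, ← Nat.card_eq_fintype_card, mul_comm]
  congr 1
  rw [← Nat.cast_sum, ← Nat.card_sigma]
  unfold nP
  congr 1
  refine Nat.card_congr
    { toFun := fun x => ⟨x.2.1, by
        rw [← RingHom.comp_assoc, x.2.2]
        exact x.1.2.1, by
        have h := x.1.2.2
        rw [← x.2.2] at h
        exact h⟩
      invFun := fun χ => ⟨⟨χ.1.comp (algebraMap R B), by
        rw [RingHom.comp_assoc]
        exact χ.2.1, χ.2.2⟩, ⟨χ.1, rfl⟩⟩
      left_inv := by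
        rintro ⟨⟨φ, h1, h2⟩, ⟨χ, h3⟩⟩
        simp only at h3
        subst h3
        rfl
      right_inv := fun _ => rfl }

end

section
variable {O A₁ A₂ L : Type} [CommRing O] [CommRing A₁] [CommRing A₂] [Field L] [Algebra A₁ L]
  [Algebra A₂ L]

/-- the points of two rings with a common localization -/
theorem nP_transfer {u₁ : A₁} {u₂ : A₂} (hi₁ : Function.Injective (algebraMap A₁ L))
    (hi₂ : Function.Injective (algebraMap A₂ L)) (hu₁ : u₁ ≠ 0) (hu₂ : u₂ ≠ 0)
    (h : loc A₁ (L := L) u₁ = loc A₂ u₂) (ρ₁ : O →+* A₁) (ρ₂ : O →+* A₂)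
    (hρ : ∀ z, algebraMap A₁ L (ρ₁ z) = algebraMap A₂ L (ρ₂ z)) {F : Type} [Field F]
    (ψ : O →+* F) : nP ρ₁ ψ (fun φ => φ u₁ ≠ 0) = nP ρ₂ ψ (fun φ => φ u₂ ≠ 0) := by
  obtain ⟨e, he⟩ := transfer hi₁ hi₂ hu₁ hu₂ h F
  unfold nP
  congr 1
  have hcomp : ∀ φ, (φ.1.comp ρ₁ = ψ ↔ (e φ).1.comp ρ₂ = ψ) := by
    intro φ
    have : φ.1.comp ρ₁ = (e φ).1.comp ρ₂ := RingHom.ext fun z => he φ _ _ (hρ z)
    rw [this]
  refine Nat.card_congr
    { toFun := fun φ => ⟨(e ⟨φ.1, φ.2.2⟩).1, (hcomp ⟨φ.1, φ.2.2⟩).1 φ.2.1, (e ⟨φ.1, φ.2.2⟩).2⟩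
      invFun := fun φ => ⟨(e.symm ⟨φ.1, φ.2.2⟩).1, (hcomp (e.symm ⟨φ.1, φ.2.2⟩)).2 (by
        rw [e.apply_symm_apply]
        exact φ.2.1), (e.symm ⟨φ.1, φ.2.2⟩).2⟩
      left_inv := fun φ => Subtype.ext (congrArg (fun w => w.1) (e.symm_apply_apply ⟨φ.1, φ.2.2⟩))
      right_inv := fun φ => Subtype.ext (congrArg (fun w => w.1)
        (e.apply_symm_apply ⟨φ.1, φ.2.2⟩)) }

end

end Pool.Agent.V7H34.NT
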