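import Pool.Agent.V7H34.NT.Sat

/-!
# The rank of the class group and the numbers of irreducible factors
-/

set_option autoImplicit false
set_option linter.all false

namespace Pool.Agent.V7H34.NT

open IsDedekindDomain FractionalIdeal
open scoped nonZeroDivisors

section
variable {D K L Pw Px : Type} [CommRing D] [IsDedekindDomain D] [Field K] [Field L] [Algebra D L]
  [IsFractionRing D L] [Algebra K L]
  [CommRing Px] [IsDomain Px] [UniqueFactorizationMonoid Px] [Algebra Px L] [IsFractionRing Px L]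
  [CommRing Pw] [IsDomain Pw] [UniqueFactorizationMonoid Pw] [Algebra Pw K] [IsFractionRing Pw K]

variable (K L) in
/-- the inclusion of the multiplicative groups -/
noncomputable def jj : Additive Kˣ →ₗ[ℤ] Additive Lˣ :=
  (Units.map (algebraMap K L).toMonoidHom).toAdditive.toIntLinearMap

theorem jj_val (c : Additive Kˣ) : (((jj K L c).toMul : Lˣ) : L) = algebraMap K L (c.toMul : K) := rfl

theorem jj_inj : Function.Injective (jj K L) := by
  intro a b h
  apply Additive.toMul.injective
  apply Units.ext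
  apply (algebraMap K L).injective
  rw [← jj_val, ← jj_val, h]

/-- **The rank of the group of the orders of the units.** -/
theorem rank_units {g : D} {nw : Pw} {nx : Px} (hnw : nw ≠ 0) (hnx : nx ≠ 0)
    [Fintype (Jt Pw nw)] [Fintype (Jt Px nx)]
    (h1 : unitsOf Px L = (unitsOf Pw K).map (jj K L))
    (h2 : ∀ c : Additive Kˣ, jj K L c ∈ unitsIn (loc Px (L := L) nx) ↔
      c ∈ unitsIn (loc Pw (L := K) nw))
    (h3 : ∀ x ∈ unitsIn (loc Px (L := L) nx), dvg g x = 0 → ∃ c, jj K L c = x)
    (h3' : ∀ c, dvg (L := L) g (jj K L c) = 0) :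
    Module.rank ℤ ((unitsIn (loc Px (L := L) nx)).map (dvg g)) + Fintype.card (Jt Pw nw) =
      (Fintype.card (Jt Px nx) : Cardinal.{0}) := by
  classical
  let f : (Jt Px nx → ℤ) →ₗ[ℤ] (Pg g → ℤ) := (dvg g).comp (psi L nx)
  have hu0 : ∀ x ∈ unitsOf Px L, dvg (L := L) g x = 0 := by
    intro x hx
    rw [h1] at hx
    obtain ⟨c, -, rfl⟩ := hx
    exact h3' c
  have hrange : LinearMap.range f = (unitsIn (loc Px (L := L) nx)).map (dvg g) := by
    ext e
    constructor
    · rintro ⟨e', rfl⟩
      exact ⟨psi L nx e', psi_mem hnx e', rfl⟩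
    · rintro ⟨x, hx, rfl⟩
      obtain ⟨e', he'⟩ := units_form (L := L) hnx hx
      refine ⟨e', ?_⟩
      have h4 := hu0 _ he'
      rw [map_sub, sub_eq_zero] at h4
      exact h4.symm
  -- the factors of the numerators from the base
  have hex : ∀ I : Jt Pw nw, ∃ e : Jt Px nx → ℤ,
      jj K L (Additive.ofMul (gu K I)) - psi L nx e ∈ unitsOf Px L := fun I =>
    units_form (L := L) hnx ((h2 _).2 (gu_mem (L := K) hnw I))
  choose ε hε using hex
  let ι : (Jt Pw nw → ℤ) →ₗ[ℤ] (Jt Px nx → ℤ) := Fintype.linearCombination ℤ ε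
  have hι : ∀ e : Jt Pw nw → ℤ, jj K L (psi K nw e) - psi L nx (ι e) ∈ unitsOf Px L := by
    intro e
    have h5 : jj K L (psi K nw e) - psi L nx (ι e) =
        ∑ I, e I • (jj K L (Additive.ofMul (gu K I)) - psi L nx (ε I)) := by
      have h6 : psi K nw e = ∑ I, e I • Additive.ofMul (gu K I) :=
        Fintype.linearCombination_apply ℤ _ _
      have h7 : ι e = ∑ I, e I • ε I := Fintype.linearCombination_apply ℤ _ _
      rw [h6, h7, map_sum, map_sum, ← Finset.sum_sub_distrib]
      refine Finset.sum_congr rfl fun I _ => ?_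
      rw [LinearMap.map_smul, LinearMap.map_smul]
      exact (zsmul_sub _ _ _).symm
    rw [h5]
    exact Submodule.sum_mem _ fun I _ => Submodule.smul_mem _ _ (hε I)
  have hinj : Function.Injective ι := by
    rw [← LinearMap.ker_eq_bot, LinearMap.ker_eq_bot']
    intro e he
    have h5 := hι e
    rw [he, map_zero, sub_zero, h1] at h5
    obtain ⟨c, hc, hce⟩ := h5
    rw [jj_inj hce] at hc
    exact psi_inj hc
  have hker : LinearMap.range ι = LinearMap.ker f := by
    ext e
    constructor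
    · rintro ⟨e', rfl⟩
      have h5 := hu0 _ (hι e')
      rw [map_sub, h3', zero_sub, neg_eq_zero] at h5
      exact h5
    · intro he
      obtain ⟨c, hc⟩ := h3 _ (psi_mem (L := L) hnx e) he
      have h6 : c ∈ unitsIn (loc Pw (L := K) nw) := (h2 c).1 (by rw [hc]; exact psi_mem hnx e)
      obtain ⟨e', he'⟩ := units_form (L := K) hnw h6
      refine ⟨e', ?_⟩
      have h7 := hι e'
      have h8 : jj K L (c - psi K nw e') ∈ unitsOf Px L := by
        rw [h1]
        exact ⟨_, he', rfl⟩
      have h9 : psi L nx (e - ι e') ∈ unitsOf Px L := by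
        have h10 : psi L nx (e - ι e') = jj K L (c - psi K nw e') +
            (jj K L (psi K nw e') - psi L nx (ι e')) := by
          rw [map_sub, map_sub, hc]
          abel
        rw [h10]
        exact Submodule.add_mem _ h8 h7
      exact (sub_eq_zero.1 (psi_inj h9)).symm
  have h11 := rank_quotient_add_rank_of_isDomain (LinearMap.ker f)
  rw [f.quotKerEquivRange.rank_eq, hrange, ← hker, ← (LinearEquiv.ofInjective ι hinj).rank_eq] at h11
  simpa using h11

open Classical in
/-- **The rank of the class group.** -/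
theorem cls_formula {g : D} (hg : g ≠ 0) {nw : Pw} {nx : Px} (hnw : nw ≠ 0) (hnx : nx ≠ 0)
    [Finite (Jt Pw nw)] [Finite (Jt Px nx)]
    (h1 : unitsOf Px L = (unitsOf Pw K).map (jj K L))
    (h2 : ∀ c : Additive Kˣ, jj K L c ∈ unitsIn (loc Px (L := L) nx) ↔
      c ∈ unitsIn (loc Pw (L := K) nw))
    (h3 : ∀ x ∈ unitsIn (loc D (L := L) g), dvg g x = 0 → ∃ c, jj K L c = x)
    (h3' : ∀ c, dvg (L := L) g (jj K L c) = 0)
    (h4 : unitsIn (loc Px (L := L) nx) ≤ unitsIn (loc D (L := L) g))
    (h5 : (unitsIn (loc D (L := L) g)).map (dvg g) ≤ (unitsIn (loc Px (L := L) nx)).map (dvg g))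
    (h6 : ∀ a : Px, algebraMap Px L a ∈ loc D (L := L) g)
    (h7 : ∀ z ∈ loc D (L := L) g, ∃ a s : Px, algebraMap Px L s ≠ 0 ∧
      (algebraMap Px L s)⁻¹ ∈ loc D (L := L) g ∧ z * algebraMap Px L s = algebraMap Px L a) :
    Module.Finite ℤ (Additive (ClassGroup D)) ∧
    Module.rank ℤ (Additive (ClassGroup D)) + Nat.card (Jt Px nx) =
      ((Nat.card (Pg g) : ℕ) : Cardinal.{0}) + Nat.card (Jt Pw nw) := by
  let _ := Fintype.ofFinite (Jt Pw nw)
  let _ := Fintype.ofFinite (Jt Px nx)
  obtain ⟨e1, e2⟩ := cls_rank (L := L) hg fun v hv => by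
    obtain ⟨x, hx⟩ := sat (P := Px) (L := L) hg h6 h7 v hv
    exact ⟨x, fun w hw => hx w hw⟩
  refine ⟨e1, ?_⟩
  have e3 : (unitsIn (loc D (L := L) g)).map (dvg g) = (unitsIn (loc Px (L := L) nx)).map (dvg g) :=
    le_antisymm h5 (Submodule.map_mono h4)
  have e4 := rank_units (L := L) (K := K) (g := g) hnw hnx h1 h2 (fun x hx => h3 x (h4 hx)) h3'
  rw [e3] at e2
  rw [Nat.card_eq_fintype_card (α := Jt Px nx), ← e4, ← e2, Nat.card_eq_fintype_card (α := Jt Pw nw)]
  ring

end

end Pool.Agent.V7H34.NT
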