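import Pool.Agent.V7H34.NT.Lo
import Pool.Agent.V7H34.NT.Rank

/-!
# Lifting homomorphisms from the base
-/

set_option autoImplicit false
set_option linter.all false

namespace Pool.Agent.V7H34.NT

section
variable {R B K L : Type} [CommRing R] [IsDomain R] [CommRing B] [IsDomain B] [Field K] [Field L]
  [Algebra K L] [Algebra R K] [IsFractionRing R K] [Algebra B L] [IsFractionRing B L] [Algebra R B]

theorem lo' [IsNoetherianRing R] [Algebra.FiniteType R B]
    (hinj : Function.Injective (algebraMap R B)) {g : B} (hg : g ≠ 0) :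
    ∃ r : R, r ≠ 0 ∧ ∀ q : Ideal R, q.IsPrime → r ∉ q →
      ∃ P : Ideal B, P.IsPrime ∧ g ∉ P ∧ P.comap (algebraMap R B) = q := by
  let S := Localization.Away g
  have hle : Submonoid.powers g ≤ nonZeroDivisors B := powers_le_nonZeroDivisors_of_noZeroDivisors hg
  have hdom : IsDomain S := IsLocalization.isDomain_localization hle
  have hinj' : Function.Injective (algebraMap B S) := IsLocalization.injective S hle
  have h1 : Algebra.FiniteType B S := IsLocalization.finiteType_of_monoid_fg (Submonoid.powers g) S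
  have h2 : Algebra.FiniteType R S := Algebra.FiniteType.trans (S := B) inferInstance h1
  have hRS : algebraMap R S = (algebraMap B S).comp (algebraMap R B) := IsScalarTower.algebraMap_eq R B S
  obtain ⟨r, hr, h⟩ := lo (R := R) (S := S) (by
    rw [hRS]
    exact hinj'.comp hinj)
  refine ⟨r, hr, fun q hq hrq => ?_⟩
  obtain ⟨P, hP, hPq⟩ := h q hq hrq
  refine ⟨P.comap (algebraMap B S), Ideal.comap_isPrime _ _, ?_, ?_⟩
  · intro hgP
    have h3 : algebraMap B S g ∈ P := hgP
    exact hP.ne_top (Ideal.eq_top_of_isUnit_mem _ h3 (IsLocalization.Away.algebraMap_isUnit g))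
  · rw [Ideal.comap_comap, ← hRS]
    exact hPq

/-- the localization of the base is contained in the localization of the total space -/
theorem loc_base (hRB : ∀ r : R, algebraMap B L (algebraMap R B r) = algebraMap K L (algebraMap R K r))
    (g : B) (N : R) {z : K} (hz : z ∈ loc R (L := K) N) :
    algebraMap K L z ∈ loc B (L := L) (g * algebraMap R B N) := by
  obtain ⟨n, r, hr⟩ := hz
  refine ⟨n, g ^ n * algebraMap R B r, ?_⟩
  rw [map_mul, map_mul, hRB, hRB, ← hr, map_mul, mul_pow, map_pow, map_pow]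
  ring

/-- **Lifting homomorphisms.** -/
theorem lift_hom [IsNoetherianRing R] [Algebra.FiniteType R B]
    (hRB : ∀ r : R, algebraMap B L (algebraMap R B r) = algebraMap K L (algebraMap R K r))
    {g : B} (hg : g ≠ 0) :
    ∃ ρ : R, ρ ≠ 0 ∧ ∀ N : R, N ≠ 0 → ρ ∣ N → ∀ (F' : Type) [Field F']
      (Φ' : loc R (L := K) N →+* F'), ∃ (F : Type) (_ : Field F)
        (Φ : loc B (L := L) (g * algebraMap R B N) →+* F),
        ∀ (z : K) (hz : z ∈ loc R (L := K) N)
          (hz' : algebraMap K L z ∈ loc B (L := L) (g * algebraMap R B N)),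
            Φ ⟨algebraMap K L z, hz'⟩ = 0 ↔ Φ' ⟨z, hz⟩ = 0 := by
  have hinj : Function.Injective (algebraMap R B) := by
    intro a b h
    apply IsFractionRing.injective R K
    apply (algebraMap K L).injective
    rw [← hRB, ← hRB, h]
  obtain ⟨ρ, hρ, h⟩ := lo' hinj hg
  refine ⟨ρ, hρ, fun N hN hρN F' _ Φ' => ?_⟩
  have hN' : algebraMap R K N ≠ 0 := by rwa [Ne, IsFractionRing.to_map_eq_zero_iff]
  have hNB : algebraMap R B N ≠ 0 := (map_ne_zero_iff _ hinj).2 hN
  have hu : Φ' (toLoc N N) ≠ 0 := by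
    intro h3
    have h2 : Φ' (toLoc N N) * Φ' ⟨(algebraMap R K N)⁻¹, inv_mem_loc hN'⟩ = 1 := by
      rw [← map_mul]
      have : toLoc N N * ⟨(algebraMap R K N)⁻¹, inv_mem_loc hN'⟩ = (1 : loc R (L := K) N) :=
        Subtype.ext (mul_inv_cancel₀ hN')
      rw [this, map_one]
    rw [h3, zero_mul] at h2
    exact zero_ne_one h2
  let q : Ideal R := RingHom.ker (Φ'.comp (toLoc N))
  have hq : q.IsPrime := RingHom.ker_isPrime _
  have hNq : N ∉ q := hu
  have hρq : ρ ∉ q := fun h' => hNq (q.mem_of_dvd hρN h')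
  obtain ⟨P, hP, hgP, hPq⟩ := h q hq hρq
  let F := FractionRing (B ⧸ P)
  let φ : B →+* F := (algebraMap (B ⧸ P) F).comp (Ideal.Quotient.mk P)
  have hφ : ∀ β : B, φ β = 0 ↔ β ∈ P := by
    intro β
    show algebraMap (B ⧸ P) F (Ideal.Quotient.mk P β) = 0 ↔ _
    rw [IsFractionRing.to_map_eq_zero_iff, Ideal.Quotient.eq_zero_iff_mem]
  have hNP : algebraMap R B N ∉ P := by
    intro h'
    have : N ∈ P.comap (algebraMap R B) := h'
    rw [hPq] at this
    exact hNq this
  have hφu : φ (g * algebraMap R B N) ≠ 0 := by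
    rw [Ne, hφ]
    intro h'
    rcases hP.mem_or_mem h' with h'' | h''
    · exact hgP h''
    · exact hNP h''
  obtain ⟨Φ, hΦ⟩ := (bij_loc (A := B) (L := L) (IsFractionRing.injective B L)
    (mul_ne_zero hg hNB) F).2 ⟨φ, hφu⟩
  have hΦ' : ∀ β, Φ (toLoc (g * algebraMap R B N) β) = φ β := fun β =>
    congrArg (fun w : {φ : B →+* F // φ (g * algebraMap R B N) ≠ 0} => w.1 β) hΦ
  refine ⟨F, inferInstance, Φ, fun z hz hz' => ?_⟩
  obtain ⟨n, r, hr⟩ := hz
  have e1 : (toLoc N N : loc R (L := K) N) ^ n * ⟨z, ⟨n, r, hr⟩⟩ = toLoc N r := Subtype.ext hr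
  have e2 : (toLoc (g * algebraMap R B N) (algebraMap R B N) :
      loc B (L := L) (g * algebraMap R B N)) ^ n * ⟨algebraMap K L z, hz'⟩ =
      toLoc (g * algebraMap R B N) (algebraMap R B r) := by
    apply Subtype.ext
    show algebraMap B L (algebraMap R B N) ^ n * algebraMap K L z = algebraMap B L (algebraMap R B r)
    rw [hRB, hRB, ← hr, map_mul, map_pow]
  have e3 := congrArg Φ' e1
  have e4 := congrArg Φ e2
  rw [map_mul, map_pow] at e3 e4
  rw [hΦ', hΦ'] at e4
  have hNφ : φ (algebraMap R B N) ≠ 0 := by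
    rw [Ne, hφ]
    exact hNP
  constructor
  · intro h0
    rw [h0, mul_zero] at e4
    have h1 : algebraMap R B r ∈ P := (hφ _).1 e4.symm
    have h2 : r ∈ P.comap (algebraMap R B) := h1
    rw [hPq] at h2
    have h3 : Φ' (toLoc N r) = 0 := h2
    rw [h3] at e3
    exact (mul_eq_zero.1 e3).resolve_left (pow_ne_zero _ hu)
  · intro h0
    rw [h0, mul_zero] at e3
    have h2 : r ∈ q := e3.symm
    rw [← hPq] at h2
    have h3 : φ (algebraMap R B r) = 0 := (hφ _).2 h2
    rw [h3] at e4
    exact (mul_eq_zero.1 e4).resolve_left (pow_ne_zero _ hNφ)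

end

end Pool.Agent.V7H34.NT
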