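import Mathlib

/-!
# Lying over, generically
-/

set_option autoImplicit false
set_option linter.all false

namespace Pool.Agent.V7H34.NT

open PrimeSpectrum

/-- The image of the spectrum of a domain of finite type contains a nonempty open subset. -/
theorem lo {R S : Type} [CommRing R] [IsDomain R] [IsNoetherianRing R] [CommRing S] [IsDomain S]
    [Algebra R S] [Algebra.FiniteType R S] (hinj : Function.Injective (algebraMap R S)) :
    ∃ r : R, r ≠ 0 ∧ ∀ p : Ideal R, p.IsPrime → r ∉ p →
      ∃ P : Ideal S, P.IsPrime ∧ P.comap (algebraMap R S) = p := by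
  have hfp : Algebra.FinitePresentation R S := Algebra.FinitePresentation.of_finiteType.1 inferInstance
  have h1 := isConstructible_range_comap (f := algebraMap R S)
    (RingHom.finitePresentation_algebraMap.2 hfp)
  obtain ⟨T, hT⟩ := exists_constructibleSetData_iff.2 h1
  have h2 : (⊥ : PrimeSpectrum R) ∈ Set.range (comap (algebraMap R S)) := by
    refine ⟨⊥, ?_⟩
    apply PrimeSpectrum.ext
    show (⊥ : Ideal S).comap (algebraMap R S) = ⊥
    exact Ideal.comap_bot_of_injective _ hinj
  rw [← hT] at h2
  simp only [ConstructibleSetData.toSet, Set.mem_iUnion] at h2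
  obtain ⟨C, hC, h3⟩ := h2
  obtain ⟨h4, h5⟩ := h3
  refine ⟨C.f, ?_, fun p hp hr => ?_⟩
  · intro h0
    apply h5
    rw [h0, mem_zeroLocus]
    intro x hx
    rw [Set.mem_singleton_iff.1 hx]
    exact Ideal.zero_mem _
  · have h6 : (⟨p, hp⟩ : PrimeSpectrum R) ∈ Set.range (comap (algebraMap R S)) := by
      rw [← hT]
      simp only [ConstructibleSetData.toSet, Set.mem_iUnion]
      refine ⟨C, hC, ?_, ?_⟩
      · rw [mem_zeroLocus]
        intro x hx
        have h7 := (mem_zeroLocus _ _).1 h4 hx
        have h8 : x = 0 := by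
          have : x ∈ (⊥ : Ideal R) := h7
          simpa using this
        rw [h8]
        exact Ideal.zero_mem _
      · intro h
        exact hr ((mem_zeroLocus _ _).1 h rfl)
    obtain ⟨P, hP⟩ := h6
    exact ⟨P.asIdeal, P.isPrime, congrArg PrimeSpectrum.asIdeal hP⟩

end Pool.Agent.V7H34.NT
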