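import Mathlib

/-!
# Localizations as subrings of a field
-/

set_option autoImplicit false
set_option linter.all false

namespace Pool.Agent.V7H34.NT

section
variable {L : Type} [Field L]

/-- `A[1/u]` as a subring of `L` -/
def loc (A : Type) {L : Type} [CommRing A] [Field L] [Algebra A L] (u : A) : Subring L where
  carrier := {z | ∃ (n : ℕ) (a : A), algebraMap A L u ^ n * z = algebraMap A L a}
  mul_mem' := by
    rintro x y ⟨n, a, ha⟩ ⟨m, b, hb⟩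
    refine ⟨n + m, a * b, ?_⟩
    rw [map_mul, ← ha, ← hb, pow_add]
    ring
  one_mem' := ⟨0, 1, by simp⟩
  add_mem' := by
    rintro x y ⟨n, a, ha⟩ ⟨m, b, hb⟩
    refine ⟨n + m, u ^ m * a + u ^ n * b, ?_⟩
    rw [map_add, map_mul, map_mul, ← ha, ← hb, map_pow, map_pow, pow_add]
    ring
  zero_mem' := ⟨0, 0, by simp⟩
  neg_mem' := by
    rintro x ⟨n, a, ha⟩
    exact ⟨n, -a, by rw [map_neg, ← ha]; ring⟩

variable {A : Type} [CommRing A] [Algebra A L] {u : A}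

theorem mem_loc {z : L} : z ∈ loc A u ↔ ∃ (n : ℕ) (a : A), algebraMap A L u ^ n * z =
    algebraMap A L a := Iff.rfl

theorem base_mem (u a : A) : algebraMap A L a ∈ loc A (L := L) u := ⟨0, a, by simp⟩

theorem inv_mem_loc (hu : algebraMap A L u ≠ 0) : (algebraMap A L u)⁻¹ ∈ loc A (L := L) u :=
  ⟨1, 1, by rw [pow_one, map_one, mul_inv_cancel₀ hu]⟩

theorem loc_le (hu : algebraMap A L u ≠ 0) {S : Subring L} : loc A u ≤ S ↔
    (∀ a : A, algebraMap A L a ∈ S) ∧ (algebraMap A L u)⁻¹ ∈ S := by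
  constructor
  · intro h
    exact ⟨fun a => h (base_mem u a), h (inv_mem_loc hu)⟩
  · rintro ⟨h1, h2⟩ z ⟨n, a, ha⟩
    have h3 : z = ((algebraMap A L u)⁻¹) ^ n * algebraMap A L a := by
      rw [← ha, ← mul_assoc, ← mul_pow, inv_mul_cancel₀ hu, one_pow, one_mul]
    rw [h3]
    exact mul_mem (pow_mem h2 n) (h1 a)

theorem loc_mono {v : A} (h : u ∣ v) : loc A (L := L) u ≤ loc A v := by
  obtain ⟨c, rfl⟩ := h
  rintro z ⟨n, a, ha⟩
  refine ⟨n, c ^ n * a, ?_⟩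
  rw [map_mul, mul_pow, map_mul, map_pow, ← ha]
  ring

theorem inv_mem_of_dvd {v : A} (hv : algebraMap A L v ≠ 0) (h : u ∣ v) :
    (algebraMap A L u)⁻¹ ∈ loc A (L := L) v := by
  obtain ⟨c, rfl⟩ := h
  rw [map_mul] at hv
  refine ⟨1, c, ?_⟩
  have := left_ne_zero_of_mul hv
  rw [map_mul]
  field_simp

theorem loc_mul_dvd {v : A} (hv : algebraMap A L v ≠ 0) (h : u ∣ v) :
    loc A (L := L) (u * v) = loc A v := by
  have hu : algebraMap A L u ≠ 0 := by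
    obtain ⟨c, rfl⟩ := h
    rw [map_mul] at hv
    exact left_ne_zero_of_mul hv
  apply le_antisymm
  · rw [loc_le (by rw [map_mul]; exact mul_ne_zero hu hv)]
    refine ⟨fun a => base_mem v a, ?_⟩
    rw [map_mul, mul_inv]
    exact mul_mem (inv_mem_of_dvd hv h) (inv_mem_loc hv)
  · exact loc_mono (dvd_mul_left _ _)

/-- the map to the localization -/
def toLoc (u : A) : A →+* loc A (L := L) u := (algebraMap A L).codRestrict (loc A u) (base_mem u)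

theorem toLoc_val (u a : A) : ((toLoc u a : loc A (L := L) u) : L) = algebraMap A L a := rfl

/-- homomorphisms from the localization -/
theorem bij_loc (hinj : Function.Injective (algebraMap A L)) (hu : u ≠ 0) (F : Type) [Field F] :
    Function.Bijective (fun Φ : loc A (L := L) u →+* F =>
      (⟨Φ.comp (toLoc u), by
        have hu' : algebraMap A L u ≠ 0 := by rwa [Ne, map_eq_zero_iff _ hinj]
        intro h
        have h1 : Φ (toLoc u u) * Φ ⟨(algebraMap A L u)⁻¹, inv_mem_loc hu'⟩ = 1 := by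
          rw [← map_mul]
          have : toLoc u u * ⟨(algebraMap A L u)⁻¹, inv_mem_loc hu'⟩ = (1 : loc A (L := L) u) :=
            Subtype.ext (mul_inv_cancel₀ hu')
          rw [this, map_one]
        have h2 : Φ (toLoc u u) = 0 := h
        rw [h2, zero_mul] at h1
        exact zero_ne_one h1⟩ : {φ : A →+* F // φ u ≠ 0})) := by
  have hu' : algebraMap A L u ≠ 0 := by rwa [Ne, map_eq_zero_iff _ hinj]
  let _ : Algebra A (loc A (L := L) u) := (toLoc u).toAlgebra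
  have hal : ∀ a, ((algebraMap A (loc A (L := L) u) a : loc A (L := L) u) : L) = algebraMap A L a :=
    fun a => rfl
  have hloc : IsLocalization.Away u (loc A (L := L) u) := by
    refine { map_units := ?_, surj := ?_, exists_of_eq := ?_ }
    · rintro ⟨_, n, rfl⟩
      show IsUnit (algebraMap A (loc A (L := L) u) (u ^ n))
      rw [map_pow]
      refine IsUnit.pow n (IsUnit.of_mul_eq_one ⟨(algebraMap A L u)⁻¹, inv_mem_loc hu'⟩ ?_)
      exact Subtype.ext (mul_inv_cancel₀ hu')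
    · rintro ⟨z, n, a, ha⟩
      refine ⟨⟨a, ⟨u ^ n, n, rfl⟩⟩, ?_⟩
      apply Subtype.ext
      show z * algebraMap A L (u ^ n) = algebraMap A L a
      rw [map_pow, ← ha, mul_comm]
    · intro x y hxy
      refine ⟨1, ?_⟩
      have : algebraMap A L x = algebraMap A L y := congrArg Subtype.val hxy
      rw [hinj this]
  refine ⟨?_, ?_⟩
  · intro Φ Φ' h
    have h1 : Φ.comp (toLoc u) = Φ'.comp (toLoc u) := congrArg Subtype.val h
    exact IsLocalization.ringHom_ext (Submonoid.powers u) h1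
  · rintro ⟨φ, hφ⟩
    refine ⟨IsLocalization.Away.lift u (isUnit_iff_ne_zero.2 hφ), ?_⟩
    apply Subtype.ext
    exact IsLocalization.Away.lift_comp u (isUnit_iff_ne_zero.2 hφ)

end

section
variable {L : Type} [Field L] {A₁ A₂ : Type} [CommRing A₁] [CommRing A₂]
  [Algebra A₁ L] [Algebra A₂ L]

theorem hom_val_congr {S T : Subring L} (h : S = T) (F : Type) [Field F] :
    ∃ e : (S →+* F) ≃ (T →+* F), ∀ (Φ : S →+* F) (z : L) (hz : z ∈ S) (hz' : z ∈ T),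
      Φ ⟨z, hz⟩ = e Φ ⟨z, hz'⟩ := by
  subst h
  exact ⟨Equiv.refl _, fun _ _ _ _ => rfl⟩

/-- **Homomorphisms from two rings with a common localization.** -/
theorem transfer {u₁ : A₁} {u₂ : A₂} (hi₁ : Function.Injective (algebraMap A₁ L))
    (hi₂ : Function.Injective (algebraMap A₂ L)) (hu₁ : u₁ ≠ 0) (hu₂ : u₂ ≠ 0)
    (h : loc A₁ (L := L) u₁ = loc A₂ u₂) (F : Type) [Field F] :
    ∃ e : {φ : A₁ →+* F // φ u₁ ≠ 0} ≃ {φ : A₂ →+* F // φ u₂ ≠ 0},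
      ∀ φ a₁ a₂, algebraMap A₁ L a₁ = algebraMap A₂ L a₂ → φ.1 a₁ = (e φ).1 a₂ := by
  obtain ⟨e, he⟩ := hom_val_congr h F
  let e₁ := Equiv.ofBijective _ (bij_loc (L := L) hi₁ hu₁ F)
  let e₂ := Equiv.ofBijective _ (bij_loc (L := L) hi₂ hu₂ F)
  refine ⟨(e₁.symm.trans e).trans e₂, ?_⟩
  intro φ a₁ a₂ ha
  obtain ⟨Φ, rfl⟩ := e₁.surjective φ
  have h1 : ((e₁.symm.trans e).trans e₂) (e₁ Φ) = e₂ (e Φ) := by
    rw [Equiv.trans_apply, Equiv.trans_apply, e₁.symm_apply_apply]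
  rw [h1]
  show Φ (toLoc u₁ a₁) = (e Φ) (toLoc u₂ a₂)
  have h2 : algebraMap A₁ L a₁ ∈ loc A₂ (L := L) u₂ := by
    rw [ha]
    exact base_mem _ _
  rw [show toLoc (L := L) u₁ a₁ = ⟨algebraMap A₁ L a₁, base_mem u₁ a₁⟩ from rfl, he _ _ _ h2]
  congr 1
  exact Subtype.ext ha

/-- **Numerators.** -/
theorem num {r₁ : A₁} {r₂ : A₂} (hr₁ : algebraMap A₁ L r₁ ≠ 0) (hr₂ : algebraMap A₂ L r₂ ≠ 0)
    (h : loc A₁ (L := L) r₁ = loc A₂ r₂) (N : A₁) (hN : algebraMap A₁ L N ≠ 0) :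
    ∃ n : A₂, algebraMap A₂ L n ≠ 0 ∧ r₂ ∣ n ∧ loc A₁ (L := L) (r₁ * N) = loc A₂ n := by
  have h1 : algebraMap A₁ L N ∈ loc A₂ (L := L) r₂ := by
    rw [← h]
    exact base_mem _ _
  obtain ⟨j, ν, hν⟩ := h1
  have hν0 : algebraMap A₂ L ν ≠ 0 := by
    rw [← hν]
    exact mul_ne_zero (pow_ne_zero _ hr₂) hN
  have hn : algebraMap A₂ L (r₂ * ν) ≠ 0 := by
    rw [map_mul]
    exact mul_ne_zero hr₂ hν0
  have hrN : algebraMap A₁ L (r₁ * N) ≠ 0 := by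
    rw [map_mul]
    exact mul_ne_zero hr₁ hN
  refine ⟨r₂ * ν, hn, dvd_mul_right _ _, le_antisymm ?_ ?_⟩
  · rw [loc_le hrN]
    have h2 : loc A₁ (L := L) r₁ ≤ loc A₂ (r₂ * ν) := by
      rw [h]
      exact loc_mono (dvd_mul_right _ _)
    refine ⟨fun a => h2 (base_mem _ a), ?_⟩
    rw [map_mul, mul_inv]
    refine mul_mem (h2 (inv_mem_loc hr₁)) ?_
    have h3 : (algebraMap A₁ L N)⁻¹ = algebraMap A₂ L r₂ ^ j * (algebraMap A₂ L ν)⁻¹ := by
      rw [← hν, mul_inv]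
      field_simp
    rw [h3, ← map_pow]
    exact mul_mem (base_mem _ _) (inv_mem_of_dvd hn (dvd_mul_left _ _))
  · rw [loc_le hn]
    have h2 : loc A₂ (L := L) r₂ ≤ loc A₁ (r₁ * N) := by
      rw [← h]
      exact loc_mono (dvd_mul_right _ _)
    refine ⟨fun a => h2 (base_mem _ a), ?_⟩
    rw [map_mul, mul_inv]
    refine mul_mem (h2 (inv_mem_loc hr₂)) ?_
    rw [← hν, mul_inv, ← inv_pow]
    exact mul_mem (pow_mem (h2 (inv_mem_loc hr₂)) j) (inv_mem_of_dvd hrN (dvd_mul_left _ _))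

end

section
variable {L : Type} [Field L] {A₁ A₂ : Type} [CommRing A₁] [IsDomain A₁] [CommRing A₂] [IsDomain A₂]
  [Algebra A₁ L] [Algebra A₂ L] [IsFractionRing A₁ L] [IsFractionRing A₂ L]

theorem exists_loc (A : Type) [CommRing A] [IsDomain A] [Algebra A L] [IsFractionRing A L] (z : L) :
    ∃ r : A, r ≠ 0 ∧ z ∈ loc A (L := L) r := by
  obtain ⟨x, y, hy, hxy⟩ := IsFractionRing.div_surjective (A := A) z
  have hy0 : y ≠ 0 := nonZeroDivisors.ne_zero hy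
  have hy1 : algebraMap A L y ≠ 0 := by rwa [Ne, IsFractionRing.to_map_eq_zero_iff]
  refine ⟨y, hy0, 1, x, ?_⟩
  rw [← hxy]
  field_simp

theorem exists_loc_fg [Algebra.FiniteType ℤ A₂] : ∃ r : A₁, r ≠ 0 ∧
    ∀ a : A₂, algebraMap A₂ L a ∈ loc A₁ (L := L) r := by
  classical
  obtain ⟨G, hG⟩ := (inferInstance : Algebra.FiniteType ℤ A₂).out
  choose! r hr hr' using fun z : L => exists_loc A₁ z
  refine ⟨∏ g ∈ G, r (algebraMap A₂ L g), Finset.prod_ne_zero_iff.2 fun g _ => hr _, fun a => ?_⟩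
  have ha : a ∈ Algebra.adjoin ℤ (G : Set A₂) := by rw [hG]; trivial
  induction ha using Algebra.adjoin_induction with
  | mem x hx => exact loc_mono (Finset.dvd_prod_of_mem _ hx) (hr' _)
  | algebraMap n =>
    have : algebraMap A₂ L (algebraMap ℤ A₂ n) = (n : L) := by simp
    rw [this]
    exact intCast_mem _ n
  | add x y _ _ h1 h2 => rw [map_add]; exact add_mem h1 h2
  | mul x y _ _ h1 h2 => rw [map_mul]; exact mul_mem h1 h2

/-- **A common localization.** -/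
theorem common [Algebra.FiniteType ℤ A₁] [Algebra.FiniteType ℤ A₂] {u₀ : A₁} (hu₀ : u₀ ≠ 0)
    {v₀ : A₂} (hv₀ : v₀ ≠ 0) : ∃ (r₁ : A₁) (r₂ : A₂), r₁ ≠ 0 ∧ r₂ ≠ 0 ∧ u₀ ∣ r₁ ∧ v₀ ∣ r₂ ∧
      loc A₁ (L := L) r₁ = loc A₂ r₂ := by
  have inj₁ : ∀ {x : A₁}, x ≠ 0 → algebraMap A₁ L x ≠ 0 := fun {x} h => by
    rwa [Ne, IsFractionRing.to_map_eq_zero_iff]
  have inj₂ : ∀ {x : A₂}, x ≠ 0 → algebraMap A₂ L x ≠ 0 := fun {x} h => by
    rwa [Ne, IsFractionRing.to_map_eq_zero_iff]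
  obtain ⟨b, hb0, hb⟩ := exists_loc_fg (L := L) (A₁ := A₂) (A₂ := A₁)
  obtain ⟨a, ha0, ha⟩ := exists_loc_fg (L := L) (A₁ := A₁) (A₂ := A₂)
  obtain ⟨c, hc0, hc⟩ := exists_loc A₁ ((algebraMap A₂ L b)⁻¹)
  obtain ⟨d, hd0, hd⟩ := exists_loc A₁ ((algebraMap A₂ L v₀)⁻¹)
  obtain ⟨r, hr⟩ : ∃ r, r = a * c * d * u₀ := ⟨_, rfl⟩
  have hr0 : r ≠ 0 := by
    rw [hr]
    exact mul_ne_zero (mul_ne_zero (mul_ne_zero ha0 hc0) hd0) hu₀
  have ha' : ∀ x : A₂, algebraMap A₂ L x ∈ loc A₁ (L := L) r := fun x =>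
    loc_mono ⟨c * d * u₀, by rw [hr]; ring⟩ (ha x)
  have hc' : (algebraMap A₂ L b)⁻¹ ∈ loc A₁ (L := L) r := loc_mono ⟨a * d * u₀, by rw [hr]; ring⟩ hc
  have hd' : (algebraMap A₂ L v₀)⁻¹ ∈ loc A₁ (L := L) r :=
    loc_mono ⟨a * c * u₀, by rw [hr]; ring⟩ hd
  obtain ⟨j, ρ, hρ⟩ := hb r
  have hρ0 : algebraMap A₂ L ρ ≠ 0 := by
    rw [← hρ]
    exact mul_ne_zero (pow_ne_zero _ (inj₂ hb0)) (inj₁ hr0)
  have hρ1 : ρ ≠ 0 := fun h => hρ0 (by rw [h, map_zero])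
  have hs0 : b * ρ * v₀ ≠ 0 := mul_ne_zero (mul_ne_zero hb0 hρ1) hv₀
  refine ⟨r, b * ρ * v₀, hr0, hs0, ⟨a * c * d, by rw [hr]; ring⟩, dvd_mul_left _ _, ?_⟩
  apply le_antisymm
  · rw [loc_le (inj₁ hr0)]
    refine ⟨fun x => loc_mono ⟨ρ * v₀, by ring⟩ (hb x), ?_⟩
    have h3 : (algebraMap A₁ L r)⁻¹ = algebraMap A₂ L b ^ j * (algebraMap A₂ L ρ)⁻¹ := by
      have := inj₂ hb0
      rw [← hρ, mul_inv]
      field_simp
    rw [h3, ← map_pow]
    exact mul_mem (base_mem _ _) (inv_mem_of_dvd (inj₂ hs0) ⟨b * v₀, by ring⟩)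
  · rw [loc_le (inj₂ hs0)]
    refine ⟨ha', ?_⟩
    rw [map_mul, map_mul, mul_inv, mul_inv]
    refine mul_mem (mul_mem hc' ?_) hd'
    rw [← hρ, mul_inv, ← inv_pow]
    exact mul_mem (pow_mem hc' j) (inv_mem_loc (inj₁ hr0))

end

end Pool.Agent.V7H34.NT
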