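import Pool.Agent.V7H34.NT.Hcnt

/-!
# The average of the traces and the rank of the class group
-/

set_option autoImplicit false
set_option linter.all false
set_option maxHeartbeats 1000000

namespace Pool.Agent.V7H34.NT

open NumberField IsDedekindDomain Filter Topology MvPolynomial
open Pool.Agent.R410.BS (good_le)

theorem ft_trans {A S : Type} [CommRing A] [CommRing S] [Algebra A S] [h : Algebra.FiniteType ℤ A]
    [h' : Algebra.FiniteType A S] : Algebra.FiniteType ℤ S := Algebra.FiniteType.trans h h'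

theorem small_le {A M : Type} [CommRing A] [IsDomain A] [Algebra.FiniteType ℤ A] [Field M] [CharZero M]
    [Algebra A M] [IsFractionRing A M] {e : ℕ} (he : Algebra.trdeg ℚ M = (e + 1 : ℕ)) {u : A}
    (hu : u ≠ 0) : ∃ (C : ℝ) (n : ℕ), 0 ≤ C ∧ n ≠ 0 ∧ ∀ (F : Type) [Field F] [Finite F],
      ((n : ℕ) : F) ≠ 0 → (Nat.card {φ : A →+* F // φ u = 0} : ℝ) ≤ C * (Nat.card F : ℝ) ^ e := by
  obtain ⟨C, n, hC, hn, h⟩ := good_le (R := A) (K := M) (IsFractionRing.injective A M) he.le hu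
  refine ⟨C, n, hC, hn, fun F _ _ hF => ?_⟩
  have h1 := (h F hF).2
  have hq := one_le_card F
  have hq0 : (0 : ℝ) < Nat.card F := by linarith
  rw [pow_succ, ← mul_assoc] at h1
  exact le_of_mul_le_mul_right h1 hq0

section
variable {k : Type} [Field k] [NumberField k]
  {A M R B D K L : Type} {b d : ℕ}
  [CommRing A] [IsDomain A] [Algebra.FiniteType ℤ A] [Field M] [CharZero M] [Algebra A M]
  [IsFractionRing A M]
  [Field K] [Field L] [CharZero K] [CharZero L] [Algebra K L]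
  [Algebra (MvPolynomial (Fin (b + 1)) M) K] [IsFractionRing (MvPolynomial (Fin (b + 1)) M) K]
  [Algebra (MvPolynomial (Fin (b + 1)) A) K]
  [Algebra (MvPolynomial (Fin (b + 2)) M) L] [IsFractionRing (MvPolynomial (Fin (b + 2)) M) L]
  [Algebra (MvPolynomial (Fin (b + 2)) A) L]
  [CommRing R] [IsDomain R] [Algebra.FiniteType ℤ R] [Algebra R K] [IsFractionRing R K]
  [CommRing B] [IsDomain B] [Algebra.FiniteType ℤ B] [Algebra B L] [IsFractionRing B L] [Algebra R B]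
  [Algebra (𝓞 k) R]

/-- **The sum over the fibre.** -/
theorem sum_fibre (hY : Comp A M (b + 1) K) (hL : Comp A M (b + 2) L) (hc : Cst M K L b)
    (hRB : ∀ r : R, algebraMap B L (algebraMap R B r) = algebraMap K L (algebraMap R K r))
    (ρ : 𝓞 k →+* A) (hρ : ∀ z, algebraMap R K (algebraMap (𝓞 k) R z) =
      algebraMap (MvPolynomial (Fin (b + 1)) A) K (C (ρ z)))
    {g : B} (hg : g ≠ 0) {N : R} (hN : N ≠ 0) {nY : MvPolynomial (Fin (b + 1)) A}
    {nΛ : MvPolynomial (Fin (b + 2)) A} (hnY : nY ≠ 0) (hnΛ : nΛ ≠ 0)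
    (e₁ : loc B (L := L) (g * algebraMap R B N) = loc _ nΛ) (e₂ : loc R (L := K) N = loc _ nY)
    (F : Type) [Field F] [Finite F] (ψ : 𝓞 k →+* F) :
    sF B N F ψ = nP ((C (σ := Fin (b + 2))).comp ρ) ψ (fun φ => φ nΛ = 0) -
      (Nat.card F : ℝ) * nP ((C (σ := Fin (b + 1))).comp ρ) ψ (fun φ => φ nY = 0) -
      nP ((algebraMap R B).comp (algebraMap (𝓞 k) R)) ψ
        (fun χ => χ g = 0 ∧ χ (algebraMap R B N) ≠ 0) := by
  have hftY := ft_trans (A := A) (S := MvPolynomial (Fin (b + 1)) A)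
  have hftΛ := ft_trans (A := A) (S := MvPolynomial (Fin (b + 2)) A)
  have hinj : Function.Injective (algebraMap R B) := by
    intro a b h
    apply IsFractionRing.injective R K
    apply (algebraMap K L).injective
    rw [← hRB, ← hRB, h]
  have hNB : algebraMap R B N ≠ 0 := (map_ne_zero_iff _ hinj).2 hN
  have f1 : nP (algebraMap (𝓞 k) R) ψ (fun φ => φ N ≠ 0) =
      nP ((C (σ := Fin (b + 1))).comp ρ) ψ (fun φ => φ nY ≠ 0) :=
    nP_transfer (IsFractionRing.injective R K) hY.inj hN hnY e₂ _ _ hρ ψ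
  have f2 : nP ((algebraMap R B).comp (algebraMap (𝓞 k) R)) ψ
      (fun φ => φ (g * algebraMap R B N) ≠ 0) =
      nP ((C (σ := Fin (b + 2))).comp ρ) ψ (fun φ => φ nΛ ≠ 0) := by
    refine nP_transfer (IsFractionRing.injective B L) hL.inj (mul_ne_zero hg hNB) hnΛ e₁ _ _
      (fun z => ?_) ψ
    show algebraMap B L (algebraMap R B (algebraMap (𝓞 k) R z)) = _
    rw [hRB, hρ]
    exact cst_A hc hY hL _
  have f3 : ∀ n : ℕ, nP ((C (σ := Fin n)).comp ρ) ψ (fun _ => True) =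
      nP ρ ψ (fun _ => True) * (Nat.card F : ℝ) ^ n := fun n => nP_mv ρ ψ n
  have f4 := nP_split ((C (σ := Fin (b + 1))).comp ρ) ψ (fun _ => True) (fun φ => φ nY = 0)
  have f5 := nP_split ((C (σ := Fin (b + 2))).comp ρ) ψ (fun _ => True) (fun φ => φ nΛ = 0)
  simp only [true_and] at f4 f5
  rw [f3] at f4 f5
  have f6 := nP_split ((algebraMap R B).comp (algebraMap (𝓞 k) R)) ψ
    (fun χ => χ (algebraMap R B N) ≠ 0) (fun χ => χ g = 0)
  have f7 : nP ((algebraMap R B).comp (algebraMap (𝓞 k) R)) ψ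
      (fun χ => χ (algebraMap R B N) ≠ 0 ∧ χ g = 0) =
      nP ((algebraMap R B).comp (algebraMap (𝓞 k) R)) ψ
        (fun χ => χ g = 0 ∧ χ (algebraMap R B N) ≠ 0) := nP_congr _ _ fun χ => and_comm
  have f8 : nP ((algebraMap R B).comp (algebraMap (𝓞 k) R)) ψ
      (fun χ => χ (algebraMap R B N) ≠ 0 ∧ ¬ χ g = 0) =
      nP ((algebraMap R B).comp (algebraMap (𝓞 k) R)) ψ
        (fun φ => φ (g * algebraMap R B N) ≠ 0) := nP_congr _ _ fun χ => by
    rw [map_mul, mul_ne_zero_iff, and_comm]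
  rw [sF_eq, f6, f7, f8, f1, f2]
  have f9 : (Nat.card F : ℝ) ^ (b + 2) = (Nat.card F : ℝ) ^ (b + 1) * (Nat.card F : ℝ) := pow_succ _ _
  rw [f9] at f5
  linear_combination (-(Nat.card F : ℝ)) * f4 + f5

open Classical in
/-- **The average of the traces.** -/
theorem tau_main (hY : Comp A M (b + 1) K) (hL : Comp A M (b + 2) L) (hc : Cst M K L b)
    (hd : Algebra.trdeg ℚ M = d)
    (hRB : ∀ r : R, algebraMap B L (algebraMap R B r) = algebraMap K L (algebraMap R K r))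
    (ρ : 𝓞 k →+* A) (hρ : ∀ z, algebraMap R K (algebraMap (𝓞 k) R z) =
      algebraMap (MvPolynomial (Fin (b + 1)) A) K (C (ρ z)))
    {g : B} (hg : g ≠ 0) {N : R} (hN : N ≠ 0) {nY : MvPolynomial (Fin (b + 1)) A}
    {nΛ : MvPolynomial (Fin (b + 2)) A} (hnY : nY ≠ 0) (hnΛ : nΛ ≠ 0)
    (e₁ : loc B (L := L) (g * algebraMap R B N) = loc _ nΛ) (e₂ : loc R (L := K) N = loc _ nY)
    (S : Finset (HeightOneSpectrum (𝓞 k))) :
    Tendsto (fun T : ℝ => sumT S (avg (fun F _ ψ => sF B N F ψ) (d + b + 1)) T / T) atTop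
      (𝓝 ((Nat.card (Vt (MvPolynomial (Fin (b + 2)) A) nΛ (d + b + 1)) : ℝ) -
        Nat.card (Vt (MvPolynomial (Fin (b + 1)) A) nY (d + b)) -
        Nat.card (Vn B g (algebraMap R B N) (d + b + 1)))) := by
  have hftY := ft_trans (A := A) (S := MvPolynomial (Fin (b + 1)) A)
  have hftΛ := ft_trans (A := A) (S := MvPolynomial (Fin (b + 2)) A)
  have hfrY : IsFractionRing (MvPolynomial (Fin (b + 1)) A) K := hY.frac
  have hfrΛ : IsFractionRing (MvPolynomial (Fin (b + 2)) A) L := hL.frac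
  have hdK : Algebra.trdeg ℚ K = (d + b + 1 : ℕ) := by
    rw [trdeg_mv (M := M) (n := b + 1) hd]
    rfl
  have hdL : Algebra.trdeg ℚ L = (d + b + 1 + 1 : ℕ) := by
    rw [trdeg_mv (M := M) (n := b + 2) hd]
    rfl
  have hsum := sum_fibre (B := B) hY hL hc hRB ρ hρ hg hN hnY hnΛ e₁ e₂
  have hO : ∀ (F : Type) [Field F] [Finite F], Finite (𝓞 k →+* F) := fun F _ _ =>
    (Pool.Agent.W385.CP.hom_int k F).1
  refine tau (fun F _ ψ => sF B N F ψ) (fun F F' _ _ e ψ => sF_iso N F F' e ψ) ?_ ?_ S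
  · obtain ⟨C1, n1, hC1, hn1, g1⟩ := small_le (A := MvPolynomial (Fin (b + 2)) A) (M := L) hdL hnΛ
    obtain ⟨C2, n2, hC2, hn2, g2⟩ := small_le (A := MvPolynomial (Fin (b + 1)) A) (M := K) hdK hnY
    obtain ⟨C3, n3, hC3, hn3, g3⟩ := small_le (A := B) (M := L) hdL hg
    refine ⟨C1 + C2 + C3, n1 * n2 * n3, by positivity, mul_ne_zero (mul_ne_zero hn1 hn2) hn3,
      fun F _ _ hF ψ => ?_⟩
    rw [Nat.cast_mul, Nat.cast_mul] at hF
    have k1 := g1 F (left_ne_zero_of_mul (left_ne_zero_of_mul hF))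
    have k2 := g2 F (right_ne_zero_of_mul (left_ne_zero_of_mul hF))
    have k3 := g3 F (right_ne_zero_of_mul hF)
    have l1 := nP_le ((C (σ := Fin (b + 2))).comp ρ) ψ (fun φ => φ nΛ = 0) (fun φ => φ nΛ = 0)
      fun _ h => h
    have l2 := nP_le ((C (σ := Fin (b + 1))).comp ρ) ψ (fun φ => φ nY = 0) (fun φ => φ nY = 0)
      fun _ h => h
    have l3 := nP_le ((algebraMap R B).comp (algebraMap (𝓞 k) R)) ψ
      (fun χ => χ g = 0 ∧ χ (algebraMap R B N) ≠ 0) (fun χ => χ g = 0) fun _ h => h.1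
    have m1 := nP_nonneg ((C (σ := Fin (b + 2))).comp ρ) ψ (fun φ => φ nΛ = 0)
    have m2 := nP_nonneg ((C (σ := Fin (b + 1))).comp ρ) ψ (fun φ => φ nY = 0)
    have m3 := nP_nonneg ((algebraMap R B).comp (algebraMap (𝓞 k) R)) ψ
      (fun χ => χ g = 0 ∧ χ (algebraMap R B N) ≠ 0)
    show |sF B N F ψ| ≤ _
    rw [hsum F ψ]
    have hq : (0 : ℝ) ≤ Nat.card F := Nat.cast_nonneg _
    have k2' : (Nat.card F : ℝ) * nP ((C (σ := Fin (b + 1))).comp ρ) ψ (fun φ => φ nY = 0) ≤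
        C2 * (Nat.card F : ℝ) ^ (d + b + 1) := by
      calc _ ≤ (Nat.card F : ℝ) * (C2 * (Nat.card F : ℝ) ^ (d + b)) :=
            mul_le_mul_of_nonneg_left (l2.trans k2) hq
        _ = _ := by ring
    have k2'' := mul_nonneg hq m2
    have k1' := l1.trans k1
    have k3' := l3.trans k3
    rw [abs_le]
    constructor
    · nlinarith [mul_nonneg hC1 (pow_nonneg hq (d + b + 1))]
    · nlinarith [mul_nonneg hC2 (pow_nonneg hq (d + b + 1)),
        mul_nonneg hC3 (pow_nonneg hq (d + b + 1))]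
  · have hbΛ : ¬ Big (MvPolynomial (Fin (b + 2)) A) (d + b + 1 + 2) := by
      rw [big_frac L hdL]
      omega
    have hbY : ¬ Big (MvPolynomial (Fin (b + 1)) A) (d + b + 2) := by
      rw [big_frac K hdK]
      omega
    have hbB : ¬ Big B (d + b + 1 + 2) := by
      rw [big_frac L hdL]
      omega
    have a1 := gdl hbΛ hnΛ 1
    have a2 := (gdl hbY hnY 1).mulq.neg
    have a3 := (gdl hbB hg (algebraMap R B N)).neg
    rw [card_Vn_one] at a1 a2
    have a4 := (a1.add a2).add a3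
    rw [← sub_eq_add_neg, ← sub_eq_add_neg] at a4
    refine a4.congr 1 one_ne_zero fun F _ _ _ => ?_
    have := hO F
    let _ := Fintype.ofFinite (𝓞 k →+* F)
    have h1 : ∑ᶠ ψ : 𝓞 k →+* F, sF B N F ψ =
        ∑ᶠ ψ : 𝓞 k →+* F, nP ((C (σ := Fin (b + 2))).comp ρ) ψ (fun φ => φ nΛ = 0) -
        (Nat.card F : ℝ) * ∑ᶠ ψ : 𝓞 k →+* F,
          nP ((C (σ := Fin (b + 1))).comp ρ) ψ (fun φ => φ nY = 0) -
        ∑ᶠ ψ : 𝓞 k →+* F, nP ((algebraMap R B).comp (algebraMap (𝓞 k) R)) ψ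
          (fun χ => χ g = 0 ∧ χ (algebraMap R B N) ≠ 0) := by
      rw [finsum_eq_sum_of_fintype, finsum_eq_sum_of_fintype, finsum_eq_sum_of_fintype,
        finsum_eq_sum_of_fintype, Finset.mul_sum, ← Finset.sum_sub_distrib,
        ← Finset.sum_sub_distrib]
      exact Finset.sum_congr rfl fun ψ _ => hsum F ψ
    have h2 : ∀ {X : Type} [CommRing X] [Algebra.FiniteType ℤ X] (f : X),
        Nat.card {φ : X →+* F // φ f = 0 ∧ φ 1 ≠ 0} = Nat.card {φ : X →+* F // φ f = 0} := by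
      intro X _ _ f
      refine Nat.card_congr (Equiv.subtypeEquivRight fun φ => ?_)
      rw [map_one]
      exact ⟨fun h => h.1, fun h => ⟨h, one_ne_zero⟩⟩
    show ∑ᶠ ψ : 𝓞 k →+* F, sF B N F ψ = _
    rw [h1, nP_sum, nP_sum, nP_sum, h2, h2]
    ring

end

end Pool.Agent.V7H34.NT
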