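import Pool.Agent.H126V.Taub
import Pool.Agent.W385.TT.Gram
import Pool.Agent.V7H34.NT.Asy

/-!
# Averages over the primes of norm at most `T`
-/

set_option autoImplicit false
set_option linter.all false
set_option maxHeartbeats 1000000

namespace Pool.Agent.V7H34.NT

open NumberField IsDedekindDomain Filter Topology
open Pool.Agent.H341R2 (low)
open Pool.Agent.H921R2.TatePole (nm two_le_nm kerPrime)
open Pool.Agent.H126U (VX mem_VX)
open Pool.Agent.H126U.ST Pool.Agent.H126U.JT Pool.Agent.H126V.Taub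
open Pool.Agent.W385.TT (PA PA_low PA_hc PA_finite PA_sub PA_mul PA_sum PA_add pc pc_nonneg)

/-- the mean of a null sequence -/
theorem PA_null {a : Nat.Primes → ℝ} (h : ∀ ε : ℝ, 0 < ε → ∀ᶠ p in cofinite, |a p| ≤ ε) :
    Tendsto (PA a) atTop (𝓝 0) := by
  classical
  rw [Metric.tendsto_nhds]
  intro ε hε
  have h1 := h (ε / 2) (by positivity)
  rw [Filter.eventually_cofinite] at h1
  have h2 : Tendsto (PA fun p => if |a p| ≤ ε / 2 then 0 else a p) atTop (𝓝 0) :=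
    PA_finite h1 fun p hp => by
      rw [Set.mem_ofPred_eq, not_not] at hp
      exact if_pos hp
  have h3 := (Metric.tendsto_nhds.1 h2) (ε / 2) (by positivity)
  filter_upwards [h3] with X hX
  rw [Real.dist_eq, sub_zero] at hX ⊢
  have e : PA a X = (PA (fun p => if |a p| ≤ ε / 2 then 0 else a p) X) +
      PA (fun p => if |a p| ≤ ε / 2 then a p else 0) X := by
    rw [← PA_add]
    congr 1
    funext p
    split_ifs <;> ring
  have h4 : |PA (fun p => if |a p| ≤ ε / 2 then a p else 0) X| ≤ ε / 2 := by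
    unfold PA
    rw [abs_div, abs_of_nonneg (pc_nonneg X)]
    refine div_le_of_le_mul₀ (pc_nonneg X) (by positivity) ?_
    refine (Finset.abs_sum_le_sum_abs _ _).trans ?_
    have h5 : ∀ p ∈ Pool.Agent.H126U.PX X, |if |a p| ≤ ε / 2 then a p else 0| ≤ ε / 2 := by
      intro p _
      split_ifs with h6
      · exact h6
      · rw [abs_zero]
        positivity
    refine (Finset.sum_le_card_nsmul _ _ _ h5).trans ?_
    rw [nsmul_eq_mul, Pool.Agent.H126U.card_PX, mul_comm]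
    exact le_refl _
  rw [e]
  refine (abs_add_le _ _).trans_lt ?_
  linarith

section
variable {k : Type} [Field k] [NumberField k]

/-- logarithmic weights -/
theorem LA_VX (S : Finset (HeightOneSpectrum (𝓞 k))) {ψ : HeightOneSpectrum (𝓞 k) → ℝ} {B : ℝ}
    (hB : ∀ v, |ψ v| ≤ B) :
    Tendsto (fun X : ℕ => LA S X ψ - (∑ v ∈ VX k X, ψ v) / pc X) atTop (𝓝 0) := by
  classical
  have hB' : ∀ v, |ψ v| ≤ |B| := fun v => (hB v).trans (le_abs_self B)
  have h1 := LA_mn S (φ := ψ) (B := |B|) (abs_nonneg B) fun v hv => hB' v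
  have h2 := mn_change' S ∅ (φ := ψ) (b := |B|) hB'
  have h5 : Tendsto (fun X : ℕ => mn (VS ∅ X) ψ - (∑ v ∈ VX k X, ψ v) / pc X) atTop (𝓝 0) := by
    have h6 : Tendsto (fun X : ℕ => |B| * |1 - ((VX k X).card : ℝ) / pc X|) atTop (𝓝 0) := by
      have h7 : Tendsto (fun X : ℕ => ((VX k X).card : ℝ) / pc X) atTop (𝓝 1) :=
        Pool.Agent.H126U.card_VX
      have h8 := ((h7.const_sub 1).abs).const_mul |B|
      simpa using h8
    refine squeeze_zero_norm' ?_ h6
    filter_upwards [(tendsto_card_VS (K := k) ∅).eventually_gt_atTop 0] with X hX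
    have e0 : VS (K := k) ∅ X = VX k X := by
      unfold VS
      simp
    rw [e0] at hX ⊢
    have e1 : mn (VX k X) ψ - (∑ v ∈ VX k X, ψ v) / pc X =
        mn (VX k X) ψ * (1 - ((VX k X).card : ℝ) / pc X) := by
      have e2 : ∑ v ∈ VX k X, ψ v = mn (VX k X) ψ * ((VX k X).card : ℝ) := by
        unfold mn
        exact (div_mul_cancel₀ _ hX.ne').symm
      rw [e2]
      ring
    rw [e1, Real.norm_eq_abs, abs_mul]
    exact mul_le_mul_of_nonneg_right (mn_abs_le _ (abs_nonneg B) fun v _ => hB' v) (abs_nonneg _)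
  have h7 := (h1.add h2).add h5
  simp only [add_zero] at h7
  refine h7.congr fun X => ?_
  ring

/-- `Σ_T(b) = ∑_{v ∉ S, q_v ≤ T} b(v) log q_v` -/
noncomputable def sumT (S : Finset (HeightOneSpectrum (𝓞 k))) (b : HeightOneSpectrum (𝓞 k) → ℝ)
    (T : ℝ) : ℝ :=
  ∑ᶠ v ∈ {v : HeightOneSpectrum (𝓞 k) | v ∉ S ∧ (Ideal.absNorm v.asIdeal : ℝ) ≤ T},
    b v * Real.log (Ideal.absNorm v.asIdeal : ℝ)

/-- the average as a finite sum -/
theorem sumT_eq (S : Finset (HeightOneSpectrum (𝓞 k))) (b : HeightOneSpectrum (𝓞 k) → ℝ)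
    {T : ℝ} (hT : 0 ≤ T) : sumT S b T = ∑ v ∈ VS S ⌊T⌋₊, b v * Real.log (nm v) := by
  classical
  unfold sumT
  have h1 : {v : HeightOneSpectrum (𝓞 k) | v ∉ S ∧ (Ideal.absNorm v.asIdeal : ℝ) ≤ T} =
      ((VS S ⌊T⌋₊ : Finset (HeightOneSpectrum (𝓞 k))) : Set (HeightOneSpectrum (𝓞 k))) := by
    ext v
    rw [Set.mem_ofPred_eq, Finset.mem_coe]
    unfold VS
    rw [Finset.mem_filter, mem_VX, Nat.le_floor_iff hT]
    exact ⟨fun h => ⟨h.2, h.1⟩, fun h => ⟨h.2, h.1⟩⟩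
  rw [h1, finsum_mem_coe_finset]
  rfl

/-- **The natural average of a bounded function** with given sums over the primes of degree one. -/
theorem natural_fun {b : HeightOneSpectrum (𝓞 k) → ℝ} {B : ℝ} (hb : ∀ v, |b v| ≤ B)
    {κ : Type} [Fintype κ] (L : κ → Type) [∀ j, Field (L j)] [∀ j, NumberField (L j)] (a : κ → ℝ)
    {r : ℝ} (hr : ∑ j, a j = r) {D : ℝ}
    (h : ∀ᶠ p : Nat.Primes in cofinite, |∑ᶠ ψ : 𝓞 k →+* ZMod (p : ℕ), b (kerPrime p ψ).1.1 -
      cF L a (ZMod (p : ℕ))| ≤ D * ((p : ℕ) : ℝ) ^ (-(1 / 2) : ℝ))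
    (S : Finset (HeightOneSpectrum (𝓞 k))) :
    Tendsto (fun T : ℝ => sumT S b T / T) atTop (𝓝 r) := by
  classical
  have h1 := LA_VX S hb
  have h2 := PA_low b hb
  have h3 : Tendsto (PA fun p => ∑ j, a j * (Pool.Agent.H921R2.TatePole.hc (𝓞 (L j)) (p : ℕ) : ℝ))
      atTop (𝓝 (∑ j : κ, a j * 1)) := by
    have h4 := tendsto_finset_sum (Finset.univ : Finset κ) fun j _ =>
      (PA_hc (K := L j)).const_mul (a j)
    refine h4.congr fun X => ?_
    rw [PA_sum]
    exact Finset.sum_congr rfl fun j _ => (PA_mul _ _ _).symm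
  have h5 : Tendsto (PA fun p => low b p -
      ∑ j, a j * (Pool.Agent.H921R2.TatePole.hc (𝓞 (L j)) (p : ℕ) : ℝ)) atTop (𝓝 0) := by
    refine PA_null fun ε hε => ?_
    have hsmall : ∀ᶠ p : Nat.Primes in cofinite, |D| < ε * Real.sqrt (p : ℕ) := by
      have h6 : Tendsto (fun p : Nat.Primes => ε * Real.sqrt (p : ℕ)) cofinite atTop := by
        refine Tendsto.const_mul_atTop hε (Real.tendsto_sqrt_atTop.comp
          (tendsto_natCast_atTop_atTop.comp ?_))
        rw [← Nat.cofinite_eq_atTop]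
        exact Subtype.val_injective.tendsto_cofinite
      exact h6.eventually_gt_atTop _
    filter_upwards [h, hsmall] with p h7 h9
    have : Fact (p : ℕ).Prime := ⟨p.2⟩
    have hfin := Pool.Agent.H921R2.TatePole.hom_finite (K := k) p
    let _ := Fintype.ofFinite (𝓞 k →+* ZMod (p : ℕ))
    have hp0 : (0 : ℝ) < ((p : ℕ) : ℝ) := by exact_mod_cast p.2.pos
    have hsq : 0 < Real.sqrt (p : ℕ) := Real.sqrt_pos.2 hp0
    have e1 : low b p = ∑ᶠ ψ : 𝓞 k →+* ZMod (p : ℕ), b (kerPrime p ψ).1.1 := by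
      rw [Pool.Agent.W353.TP.low_kerPrime, finsum_eq_sum_of_fintype]
    have e2 : ∑ j, a j * (Pool.Agent.H921R2.TatePole.hc (𝓞 (L j)) (p : ℕ) : ℝ) =
        cF L a (ZMod (p : ℕ)) := rfl
    rw [e1, e2]
    refine h7.trans ?_
    rw [Real.rpow_neg hp0.le, ← Real.sqrt_eq_rpow, ← div_eq_mul_inv, div_le_iff₀ hsq]
    exact (le_abs_self D).trans h9.le
  have h6 := ((h1.add h2).add h5).add h3
  have e : (0 : ℝ) + 0 + 0 + (∑ j : κ, a j * 1) = r := by
    simp only [mul_one]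
    rw [hr]
    ring
  rw [e] at h6
  have h7 : Tendsto (fun X : ℕ => LA S X b) atTop (𝓝 r) := by
    refine h6.congr fun X => ?_
    rw [PA_sub]
    ring
  have g1 : Tendsto (fun T : ℝ => LA S ⌊T⌋₊ b) atTop (𝓝 r) := h7.comp tendsto_nat_floor_atTop
  have g2 : Tendsto (fun T : ℝ => (⌊T⌋₊ : ℝ) / T) atTop (𝓝 1) := tendsto_nat_floor_div_atTop
  have g3 := g1.mul g2
  rw [mul_one] at g3
  refine g3.congr' ?_
  filter_upwards [eventually_ge_atTop (1 : ℝ)] with T hT
  have hT0 : 0 ≤ T := by linarith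
  have hf : (⌊T⌋₊ : ℝ) ≠ 0 := by
    have : 1 ≤ ⌊T⌋₊ := Nat.le_floor (by exact_mod_cast hT)
    exact_mod_cast (by omega : ⌊T⌋₊ ≠ 0)
  rw [sumT_eq S b hT0]
  unfold LA
  field_simp

/-- a bound for almost all primes gives one for all primes -/
theorem bound_fin {e : HeightOneSpectrum (𝓞 k) → ℝ} {B : ℝ} (h : ∀ᶠ v in cofinite, |e v| ≤ B) :
    ∃ B' : ℝ, ∀ v, |e v| ≤ B' := by
  rw [Filter.eventually_cofinite] at h
  refine ⟨|B| + ∑ v ∈ h.toFinset, |e v|, fun v => ?_⟩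
  have h0 : 0 ≤ ∑ v ∈ h.toFinset, |e v| := Finset.sum_nonneg fun v _ => abs_nonneg _
  by_cases hv : |e v| ≤ B
  · linarith [le_abs_self B]
  · have h2 : |e v| ≤ ∑ v ∈ h.toFinset, |e v| :=
      Finset.single_le_sum (f := fun v => |e v|) (fun v _ => abs_nonneg _)
        (h.mem_toFinset.2 hv)
    linarith [abs_nonneg B]

theorem ae_notMem {x : 𝓞 k} (hx : x ≠ 0) :
    ∀ᶠ v : HeightOneSpectrum (𝓞 k) in cofinite, x ∉ v.asIdeal := by
  rw [Filter.eventually_cofinite]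
  have h1 : Ideal.span {x} ≠ ⊥ := by rwa [Ne, Ideal.span_singleton_eq_bot]
  refine (Ideal.finite_factors h1).subset fun v hv => ?_
  rw [Set.mem_ofPred_eq, not_not] at hv
  rw [Set.mem_ofPred_eq, Ideal.dvd_span_singleton]
  exact hv

end

end Pool.Agent.V7H34.NT
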