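import Pool.Agent.V7H34.NT.Big

/-!
# The divisors of a polynomial ring over a domain
-/

set_option autoImplicit false
set_option linter.all false

namespace Pool.Agent.V7H34.NT

open MvPolynomial

attribute [local instance] MvPolynomial.algebraMvPolynomial

/-- the irreducible factors, as ideals -/
def Jt (P : Type) [CommRing P] (n : P) : Type :=
  {I : Ideal P // ∃ π : P, Irreducible π ∧ π ∣ n ∧ I = Ideal.span {π}}

/-- the primes of dimension `e` which contain `f` -/
def Vt (Λ : Type) [CommRing Λ] (f : Λ) (e : ℕ) : Type :=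
  {p : Ideal Λ // p.IsPrime ∧ f ∈ p ∧ Big (Λ ⧸ p) e}

/-- the vertical primes -/
def Wt (A : Type) [CommRing A] {k : ℕ} (d : ℕ) (f : MvPolynomial (Fin k) A) : Type :=
  {q : Ideal A // q.IsPrime ∧ q ≠ ⊥ ∧ CharZero (A ⧸ q) ∧
    (d : Cardinal.{0}) ≤ tdim (A ⧸ q) + 1 ∧ f ∈ q.map (C (σ := Fin k))}

theorem big_bot {Λ : Type} [CommRing Λ] {e : ℕ} : Big (Λ ⧸ (⊥ : Ideal Λ)) e ↔ Big Λ e :=
  Big.congr (RingEquiv.quotientBot Λ)

theorem mem_minimal {Λ : Type} [CommRing Λ] [IsDomain Λ] {f : Λ} (hf : f ≠ 0) {e : ℕ}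
    (h : ¬ Big Λ (e + 2)) {p : Ideal Λ} (hp : p.IsPrime) (hfp : f ∈ p) (hb : Big (Λ ⧸ p) e) :
    p ∈ (Ideal.span {f}).minimalPrimes := by
  refine ⟨⟨hp, ?_⟩, ?_⟩
  · rw [Ideal.span_singleton_le_iff_mem]
    exact hfp
  · rintro q ⟨hq, hfq⟩ hqp
    by_contra hcon
    have hlt : q < p := lt_of_le_not_ge hqp hcon
    have h1 := drop hq hlt hb
    have hfq' : f ∈ q := hfq (Ideal.mem_span_singleton_self f)
    have h2 : (⊥ : Ideal Λ) < q := by
      rw [bot_lt_iff_ne_bot]
      rintro rfl
      exact hf (by simpa using hfq')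
    have h3 := drop Ideal.isPrime_bot h2 h1
    exact h (big_bot.1 h3)

theorem finite_Vt {Λ : Type} [CommRing Λ] [IsDomain Λ] [IsNoetherianRing Λ] {f : Λ} (hf : f ≠ 0)
    {e : ℕ} (h : ¬ Big Λ (e + 2)) : Finite (Vt Λ f e) := by
  have h1 : {p : Ideal Λ | p.IsPrime ∧ f ∈ p ∧ Big (Λ ⧸ p) e}.Finite :=
    (Ideal.finite_minimalPrimes_of_isNoetherianRing Λ (Ideal.span {f})).subset fun p hp =>
      mem_minimal hf h hp.1 hp.2.1 hp.2.2
  exact h1.to_subtype

theorem exists_factor {P : Type} [CommRing P] [IsDomain P] [UniqueFactorizationMonoid P] {n : P}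
    (hn : n ≠ 0) {I : Ideal P} (hI : I.IsPrime) (h : n ∈ I) :
    ∃ π : P, Irreducible π ∧ π ∣ n ∧ π ∈ I := by
  have h1 := UniqueFactorizationMonoid.factors_prod hn
  have h2 : (UniqueFactorizationMonoid.factors n).prod ∈ I := by
    obtain ⟨u, hu⟩ := h1.symm
    rw [← hu]
    exact I.mul_mem_right _ h
  obtain ⟨π, h3, h4⟩ := (hI.multiset_prod_mem_iff_exists_mem _).1 h2
  exact ⟨π, UniqueFactorizationMonoid.irreducible_of_factor π h3,
    UniqueFactorizationMonoid.dvd_of_mem_factors h3, h4⟩

section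
variable {A M : Type} [CommRing A] [IsDomain A] [Field M] [Algebra A M] [IsFractionRing A M]

theorem comap_map_C {k : ℕ} (q : Ideal A) :
    (q.map (C (σ := Fin k))).comap (C (σ := Fin k)) = q := by
  ext a
  rw [Ideal.mem_comap, MvPolynomial.mem_map_C_iff]
  constructor
  · intro h
    have h1 := h 0
    rwa [coeff_zero_C] at h1
  · intro h m
    rw [coeff_C]
    split_ifs
    · exact h
    · exact q.zero_mem

theorem prime_map_C {k : ℕ} {q : Ideal A} (hq : q.IsPrime) :
    (q.map (C (σ := Fin k))).IsPrime := by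
  have e := (MvPolynomial.quotientEquivQuotientMvPolynomial (σ := Fin k) q).toRingEquiv
  have h1 : IsDomain (MvPolynomial (Fin k) (A ⧸ q)) := inferInstance
  have h2 : IsDomain (MvPolynomial (Fin k) A ⧸ q.map (C (σ := Fin k))) := MulEquiv.isDomain (MvPolynomial (Fin k) (A ⧸ q)) e.symm.toMulEquiv
  exact (Ideal.Quotient.isDomain_iff_prime _).1 h2

theorem big_map_C {k d : ℕ} {q : Ideal A} (hq : q.IsPrime) :
    Big (MvPolynomial (Fin (k + 1)) A ⧸ q.map (C (σ := Fin (k + 1)))) (d + k) ↔
      CharZero (A ⧸ q) ∧ (d : Cardinal.{0}) ≤ tdim (A ⧸ q) + 1 := by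
  have e := (MvPolynomial.quotientEquivQuotientMvPolynomial (σ := Fin (k + 1)) q).toRingEquiv
  rw [← Big.congr e, big_shift]

theorem degreeOf_zero_of {R : Type} [CommRing R] {k : ℕ} {j : Fin k} {p : MvPolynomial (Fin k) R}
    (h : j ∉ p.vars) : degreeOf j p = 0 := by
  classical
  rw [degreeOf_def, Multiset.count_eq_zero]
  rwa [vars_def, Multiset.mem_toFinset] at h

/-- A polynomial which is not constant divides no polynomial in the other variables. -/
theorem exists_var {k : ℕ} {π : MvPolynomial (Fin (k + 1)) M} (hπ : Irreducible π) :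
    ∃ j : Fin (k + 1), ∀ Q : MvPolynomial (Fin k) M, π ∣ rename (Fin.succAbove j) Q → Q = 0 := by
  classical
  obtain ⟨j, hj⟩ : ∃ j, degreeOf j π ≠ 0 := by
    by_contra hcon
    push Not at hcon
    have h1 : π.vars = ∅ := by
      rw [Finset.eq_empty_iff_forall_notMem]
      intro j hj
      rw [vars_def, Multiset.mem_toFinset, ← Multiset.count_pos] at hj
      have := hcon j
      rw [degreeOf_def] at this
      omega
    rw [vars_eq_empty_iff_eq_C] at h1
    have h2 : π ≠ 0 := hπ.ne_zero
    apply hπ.not_isUnit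
    rw [h1]
    refine IsUnit.map C (isUnit_iff_ne_zero.2 ?_)
    intro h3
    rw [h3, map_zero] at h1
    exact h2 h1
  refine ⟨j, fun Q hQ => ?_⟩
  by_contra hQ0
  obtain ⟨c, hc⟩ := hQ
  have hinj : Function.Injective (rename (R := M) (Fin.succAbove j)) :=
    rename_injective _ Fin.succAbove_right_injective
  have h0 : rename (Fin.succAbove j) Q ≠ 0 := by
    intro h
    exact hQ0 (hinj (h.trans (map_zero _).symm))
  have hc0 : c ≠ 0 := by
    rintro rfl
    rw [mul_zero] at hc
    exact h0 hc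
  have h1 : degreeOf j (rename (Fin.succAbove j) Q) = 0 := by
    apply degreeOf_zero_of
    intro h
    have h2 := vars_rename (Fin.succAbove j) Q h
    rw [Finset.mem_image] at h2
    obtain ⟨i, -, hi⟩ := h2
    exact Fin.succAbove_ne j i hi
  rw [hc, degreeOf_mul_eq hπ.ne_zero hc0] at h1
  omega

theorem alg_eq {k : ℕ} : algebraMap (MvPolynomial (Fin k) A) (MvPolynomial (Fin k) M) =
    MvPolynomial.map (algebraMap A M) := rfl

variable {d k : ℕ}

theorem big_comap (hA : Big A d) {π : MvPolynomial (Fin (k + 1)) M} (hπ : Irreducible π) :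
    Big (MvPolynomial (Fin (k + 1)) A ⧸ (Ideal.span {π}).comap
      (MvPolynomial.map (algebraMap A M))) (d + k) := by
  classical
  obtain ⟨j, hj⟩ := exists_var hπ
  have hc := hA.charZero
  have h1 : Big (MvPolynomial (Fin k) A) (d + k) := by
    rw [big_iff, tdim_mv]
    push_cast
    gcongr
    exact big_iff.1 hA
  let f : MvPolynomial (Fin k) A →+* MvPolynomial (Fin (k + 1)) A ⧸ (Ideal.span {π}).comap
      (MvPolynomial.map (algebraMap A M)) := (Ideal.Quotient.mk _).comp
        (rename (Fin.succAbove j) : MvPolynomial (Fin k) A →ₐ[A] _).toRingHom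
  refine h1.map f ?_
  rw [injective_iff_map_eq_zero]
  intro Q hQ
  have h2 : (rename (Fin.succAbove j) Q : MvPolynomial (Fin (k + 1)) A) ∈ (Ideal.span {π}).comap
      (MvPolynomial.map (algebraMap A M)) := Ideal.Quotient.eq_zero_iff_mem.1 hQ
  rw [Ideal.mem_comap, Ideal.mem_span_singleton, map_rename] at h2
  have h3 := hj _ h2
  have hinj : Function.Injective (MvPolynomial.map (σ := Fin k) (algebraMap A M)) :=
    map_injective _ (IsFractionRing.injective A M)
  exact hinj (h3.trans (map_zero _).symm)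

open Classical in
/-- **The divisors of a polynomial.** -/
theorem card_Vt [IsNoetherianRing A] (hA : Big A d) (hA' : ¬ Big A (d + 1))
    {f : MvPolynomial (Fin (k + 1)) A} (hf : f ≠ 0) :
    Finite (Vt (MvPolynomial (Fin (k + 1)) A) f (d + k)) ∧
    Finite (Jt (MvPolynomial (Fin (k + 1)) M) (MvPolynomial.map (algebraMap A M) f)) ∧
    Nat.card (Vt (MvPolynomial (Fin (k + 1)) A) f (d + k)) =
      Nat.card (Jt (MvPolynomial (Fin (k + 1)) M) (MvPolynomial.map (algebraMap A M) f)) +
        Nat.card (Wt A d f) := by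
  classical
  have hc := hA.charZero
  set mp : MvPolynomial (Fin (k + 1)) A →+* MvPolynomial (Fin (k + 1)) M :=
    MvPolynomial.map (algebraMap A M) with hmp
  have hmpinj : Function.Injective mp := map_injective _ (IsFractionRing.injective A M)
  have hf0 : mp f ≠ 0 := (map_ne_zero_iff _ hmpinj).2 hf
  have hbig : ¬ Big (MvPolynomial (Fin (k + 1)) A) (d + k + 2) := by
    intro h
    apply hA'
    rw [big_iff, tdim_mv] at h
    rw [big_iff]
    push_cast at h ⊢
    have h1 : ((d : Cardinal.{0}) + 1) + (k + 1 : ℕ) ≤ tdim A + (k + 1 : ℕ) := by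
      push_cast
      refine le_trans (le_of_eq ?_) h
      ring
    exact (Cardinal.add_le_add_iff_of_lt_aleph0 (Cardinal.natCast_lt_aleph0)).1 h1
  have hfin : Finite (Vt (MvPolynomial (Fin (k + 1)) A) f (d + k)) := finite_Vt hf hbig
  -- the horizontal primes
  have hloc : IsLocalization ((nonZeroDivisors A).map (C (σ := Fin (k + 1))))
      (MvPolynomial (Fin (k + 1)) M) := MvPolynomial.isLocalization (nonZeroDivisors A) M
  have hmc : ∀ I : Ideal (MvPolynomial (Fin (k + 1)) M), (I.comap mp).map mp = I :=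
    fun I => IsLocalization.map_under ((nonZeroDivisors A).map (C (σ := Fin (k + 1)))) _ I
  let f2 : Jt (MvPolynomial (Fin (k + 1)) M) (mp f) →
      {x : Vt (MvPolynomial (Fin (k + 1)) A) f (d + k) // x.1.comap C = ⊥} := fun I =>
    ⟨⟨I.1.comap mp, by
      obtain ⟨π, h1, h2, h3⟩ := I.2
      have hIp : I.1.IsPrime := by
        rw [h3, Ideal.span_singleton_prime h1.ne_zero]
        exact h1.prime
      refine ⟨Ideal.comap_isPrime mp I.1, ?_, ?_⟩
      · rw [Ideal.mem_comap, h3, Ideal.mem_span_singleton]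
        exact h2
      · rw [h3]
        exact big_comap hA h1⟩, by
      obtain ⟨π, h1, h2, h3⟩ := I.2
      rw [eq_bot_iff]
      intro a ha
      have h4 : mp (C a) ∈ I.1 := ha
      by_contra ha0
      have ha1 : a ≠ 0 := fun h => ha0 (by rw [h]; exact Ideal.zero_mem _)
      have h5 : IsUnit (mp (C a)) := by
        rw [hmp, map_C]
        exact IsUnit.map C (isUnit_iff_ne_zero.2
          ((map_ne_zero_iff _ (IsFractionRing.injective A M)).2 ha1))
      rw [h3, Ideal.mem_span_singleton] at h4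
      exact h1.not_isUnit (isUnit_of_dvd_unit h4 h5)⟩
  have hf2 : Function.Bijective f2 := by
    refine ⟨?_, ?_⟩
    · intro I I' h
      have h1 : I.1.comap mp = I'.1.comap mp := congrArg (fun x => x.1.1) h
      apply Subtype.ext
      rw [← hmc I.1, ← hmc I'.1, h1]
    · rintro ⟨⟨p, hp, hfp, hb⟩, hbot⟩
      have hbot' : p.comap C = ⊥ := hbot
      have hdis : Disjoint (((nonZeroDivisors A).map (C (σ := Fin (k + 1))) :
          Submonoid (MvPolynomial (Fin (k + 1)) A)) : Set (MvPolynomial (Fin (k + 1)) A)) p := by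
        rw [Set.disjoint_left]
        rintro _ ⟨a, ha, rfl⟩ h
        have h1 : a ∈ p.comap C := h
        rw [hbot'] at h1
        exact nonZeroDivisors.ne_zero ha (by simpa using h1)
      have hP : (p.map mp).IsPrime := IsLocalization.isPrime_of_isPrime_disjoint
        ((nonZeroDivisors A).map (C (σ := Fin (k + 1)))) _ p hp hdis
      obtain ⟨π, h1, h2, h3⟩ := exists_factor hf0 hP (Ideal.mem_map_of_mem mp hfp)
      have hpc : (p.map mp).comap mp = p := IsLocalization.under_map_of_isPrime_disjoint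
        ((nonZeroDivisors A).map (C (σ := Fin (k + 1)))) _ hp hdis
      let p' := (Ideal.span {π}).comap mp
      have hIp : (Ideal.span {π}).IsPrime := by
        rw [Ideal.span_singleton_prime h1.ne_zero]
        exact h1.prime
      have hp' : p'.IsPrime := Ideal.comap_isPrime mp (Ideal.span {π})
      have hle : p' ≤ p := by
        rw [← hpc]
        refine Ideal.comap_mono ?_
        rw [Ideal.span_singleton_le_iff_mem]
        exact h3
      have hfp' : f ∈ p' := by
        rw [Ideal.mem_comap, Ideal.mem_span_singleton]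
        exact h2
      have heq : p' = p := by
        by_contra hne
        have h4 := drop hp' (lt_of_le_of_ne hle hne) hb
        have h5 : (⊥ : Ideal (MvPolynomial (Fin (k + 1)) A)) < p' := by
          rw [bot_lt_iff_ne_bot]
          intro h
          rw [h] at hfp'
          exact hf (by simpa using hfp')
        exact hbig (big_bot.1 (drop Ideal.isPrime_bot h5 h4))
      exact ⟨⟨Ideal.span {π}, π, h1, h2, rfl⟩, Subtype.ext (Subtype.ext heq)⟩
  -- the vertical primes
  let f1 : Wt A d f → {x : Vt (MvPolynomial (Fin (k + 1)) A) f (d + k) // ¬ x.1.comap C = ⊥} :=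
    fun q => ⟨⟨q.1.map C, prime_map_C q.2.1, q.2.2.2.2.2,
      (big_map_C q.2.1).2 ⟨q.2.2.2.1, q.2.2.2.2.1⟩⟩, by
        show ¬ (q.1.map C).comap C = ⊥
        rw [comap_map_C]
        exact q.2.2.1⟩
  have hf1 : Function.Bijective f1 := by
    refine ⟨?_, ?_⟩
    · intro q q' h
      have h1 : q.1.map (C (σ := Fin (k + 1))) = q'.1.map C := congrArg (fun x => x.1.1) h
      apply Subtype.ext
      rw [← comap_map_C (k := k + 1) q.1, ← comap_map_C (k := k + 1) q'.1, h1]
    · rintro ⟨⟨p, hp, hfp, hb⟩, hbot⟩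
      have hbot' : p.comap C ≠ ⊥ := hbot
      set q := p.comap (C (σ := Fin (k + 1))) with hq
      have hqp : q.IsPrime := Ideal.comap_isPrime C p
      have hle : q.map C ≤ p := Ideal.map_comap_le
      have heq : q.map C = p := by
        by_contra hne
        have h4 := drop (prime_map_C hqp) (lt_of_le_of_ne hle hne) hb
        rw [show d + k + 1 = (d + 1) + k by ring, big_map_C hqp] at h4
        obtain ⟨h5, h6⟩ := h4
        push_cast at h6
        have h7 : (d : Cardinal.{0}) ≤ tdim (A ⧸ q) :=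
          (Cardinal.add_le_add_iff_of_lt_aleph0 (Cardinal.one_lt_aleph0)).1 h6
        have h8 : Big (A ⧸ q) d := big_iff.2 h7
        exact hA' (big_bot.1 (drop Ideal.isPrime_bot (bot_lt_iff_ne_bot.2 hbot') h8))
      have hb' := hb
      rw [← heq, big_map_C hqp] at hb'
      refine ⟨⟨q, hqp, hbot', hb'.1, hb'.2, ?_⟩, Subtype.ext (Subtype.ext heq)⟩
      rw [heq]
      exact hfp
  have c2 := Nat.card_eq_of_bijective f2 hf2
  have c1 := Nat.card_eq_of_bijective f1 hf1
  have hfJ : Finite (Jt (MvPolynomial (Fin (k + 1)) M) (mp f)) := Finite.of_injective f2 hf2.1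
  refine ⟨hfin, hfJ, ?_⟩
  rw [c2, c1, ← Nat.card_sum]
  exact Nat.card_congr (Equiv.sumCompl _).symm

end

end Pool.Agent.V7H34.NT
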