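import Pool.Agent.V7H34.NT.Ept

/-!
# The residue field of a place of a function field of one variable
-/

set_option autoImplicit false
set_option linter.all false
set_option maxHeartbeats 1000000

namespace Pool.Agent.V7H34.NT

open Polynomial

section
variable {K L : Type} [Field K] [Field L] [Algebra K L]

/-- the map to the residue field -/
noncomputable def toRes (O : ValuationSubring L) (hK : ∀ c : K, algebraMap K L c ∈ O) :
    K →+* IsLocalRing.ResidueField O :=
  (IsLocalRing.residue O).comp ((algebraMap K L).codRestrict O.toSubring hK)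

/-- an element whose residue is not zero is a unit -/
theorem inv_mem_of_res (O : ValuationSubring L) {z : L} (hz : z ∈ O)
    (h : IsLocalRing.residue O ⟨z, hz⟩ ≠ 0) : z⁻¹ ∈ O := by
  rw [Ne, IsLocalRing.residue_eq_zero_iff, IsLocalRing.mem_maximalIdeal, mem_nonunits_iff,
    not_not] at h
  obtain ⟨u, hu⟩ := h
  have h1 : ((u : O) : L) * ((u⁻¹ : Oˣ) : O) = 1 := by
    have := congrArg Subtype.val (Units.mul_inv u)
    exact this
  have h2 : ((u : O) : L) = z := congrArg Subtype.val hu
  rw [h2] at h1
  have h3 : z⁻¹ = (((u⁻¹ : Oˣ) : O) : L) := inv_eq_of_mul_eq_one_right h1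
  rw [h3]
  exact ((u⁻¹ : Oˣ) : O).2

/-- **The residue field is algebraic over the field of constants.** -/
theorem res_alg (O : ValuationSubring L) (hK : ∀ c : K, algebraMap K L c ∈ O)
    (htr : Algebra.trdeg K L = 1) (hne : ∃ z : L, z ∉ O) :
    ∀ t : IsLocalRing.ResidueField O, ∃ p : K[X], p ≠ 0 ∧ eval₂ (toRes O hK) t p = 0 := by
  intro t
  by_contra hcon
  push Not at hcon
  obtain ⟨⟨τ, hτ⟩, rfl⟩ := IsLocalRing.residue_surjective t
  have hmem : ∀ p : K[X], eval₂ (algebraMap K L) τ p ∈ O := by
    intro p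
    rw [eval₂_eq_sum_range]
    exact sum_mem fun i _ => mul_mem (hK _) (pow_mem hτ i)
  have hres : ∀ p : K[X], IsLocalRing.residue O ⟨_, hmem p⟩ =
      eval₂ (toRes O hK) (IsLocalRing.residue O ⟨τ, hτ⟩) p := by
    intro p
    have h1 : (⟨_, hmem p⟩ : O) = eval₂ ((algebraMap K L).codRestrict O.toSubring hK) ⟨τ, hτ⟩ p := by
      apply Subtype.ext
      have h2 := hom_eval₂ p ((algebraMap K L).codRestrict O.toSubring hK) O.subtype ⟨τ, hτ⟩
      exact h2.symm
    rw [h1]
    exact hom_eval₂ p ((algebraMap K L).codRestrict O.toSubring hK) (IsLocalRing.residue O) ⟨τ, hτ⟩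
  have htrans : Transcendental K τ := by
    rintro ⟨p, hp, h0⟩
    apply hcon p hp
    rw [← hres]
    have h1 : (⟨_, hmem p⟩ : O) = 0 := Subtype.ext h0
    rw [h1, map_zero]
  have hbasis : IsTranscendenceBasis K (fun _ : Unit => τ) := by
    refine AlgebraicIndependent.isTranscendenceBasis_of_trdeg_le_of_finite
      (algebraicIndependent_unique_type_iff.2 htrans) ?_
    rw [htr]
    simp
  have hle : ∀ z ∈ IntermediateField.adjoin K (Set.range fun _ : Unit => τ), z ∈ O := by
    intro z hz
    have hr : (Set.range fun _ : Unit => τ) = {τ} := by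
      ext y
      simp [eq_comm]
    rw [hr, IntermediateField.mem_adjoin_simple_iff] at hz
    obtain ⟨r, s, rfl⟩ := hz
    rw [div_eq_mul_inv]
    refine mul_mem (hmem r) ?_
    by_cases hs : s = 0
    · rw [hs, map_zero, inv_zero]
      exact zero_mem _
    · exact inv_mem_of_res O (z := aeval τ s) (hmem s) fun h0 => hcon s hs ((hres s).symm.trans h0)
  have halg := hbasis.isAlgebraic_field
  obtain ⟨z, hz⟩ := hne
  apply hz
  set K' := IntermediateField.adjoin K (Set.range fun _ : Unit => τ) with hK'
  have h1 : IsIntegral K' z := (halg.isAlgebraic z).isIntegral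
  let _ : Algebra K' O := ((algebraMap K' L).codRestrict O.toSubring fun y => hle _ y.2).toAlgebra
  have _ : IsScalarTower K' O L := IsScalarTower.of_algebraMap_eq fun y => rfl
  have h2 : IsIntegral O z := h1.tower_top
  obtain ⟨y, hy⟩ := IsIntegrallyClosed.isIntegral_iff.1 h2
  rw [← hy]
  exact y.2

end

section
variable {K L : Type} [Field K] [Field L] [CharZero K] [CharZero L] [Algebra K L]

theorem charZero_res (O : ValuationSubring L) (hK : ∀ c : K, algebraMap K L c ∈ O) :
    CharZero (IsLocalRing.ResidueField O) := charZero_of_injective_ringHom (toRes O hK).injective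

theorem trdeg_res (O : ValuationSubring L) (hK : ∀ c : K, algebraMap K L c ∈ O) {e : ℕ}
    (hdK : Algebra.trdeg ℚ K = e) (hdL : Algebra.trdeg ℚ L = (e + 1 : ℕ)) (hne : ∃ z : L, z ∉ O)
    [CharZero (IsLocalRing.ResidueField O)] :
    Algebra.trdeg ℚ (IsLocalRing.ResidueField O) = e := by
  have h0 : Algebra.trdeg K L = 1 := by
    have h1 := trdeg_add_eq ℚ K (A := L)
    rw [hdK, hdL] at h1
    push_cast at h1
    exact Cardinal.eq_of_add_eq_add_left h1 (Cardinal.natCast_lt_aleph0)
  let _ : Algebra K (IsLocalRing.ResidueField O) := (toRes O hK).toAlgebra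
  have halg : Algebra.IsAlgebraic K (IsLocalRing.ResidueField O) := by
    refine ⟨fun t => ?_⟩
    obtain ⟨p, hp, h⟩ := res_alg O hK h0 hne t
    exact ⟨p, hp, h⟩
  have h1 := trdeg_add_eq ℚ K (A := IsLocalRing.ResidueField O)
  rw [trdeg_eq_zero (R := K) (A := IsLocalRing.ResidueField O), add_zero, hdK] at h1
  exact h1.symm

end

end Pool.Agent.V7H34.NT
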