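import Pool.Agent.V7H34.NT.Cls

/-!
# Principal primes in a localization which is factorial
-/

set_option autoImplicit false
set_option linter.all false

namespace Pool.Agent.V7H34.NT

open IsDedekindDomain FractionalIdeal
open scoped nonZeroDivisors

section
variable {D L : Type} [CommRing D] [IsDedekindDomain D] [Field L] [Algebra D L] [IsFractionRing D L]

theorem mem_of_dv_pos {v : HeightOneSpectrum D} {x : Additive Lˣ} {z : D}
    (h : (x.toMul : L) = algebraMap D L z) (hx : 0 < dv v x) : z ∈ v.asIdeal := by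
  by_contra hz
  rw [dv_zero_of_notMem hz h] at hx
  exact lt_irrefl _ hx

/-- a uniformizer -/
theorem exists_unif (v : HeightOneSpectrum D) : ∃ (x : Additive Lˣ) (z : D),
    (x.toMul : L) = algebraMap D L z ∧ z ∈ v.asIdeal ∧ dv v x ≤ 1 := by
  classical
  have h1 : v.asIdeal ^ 2 < v.asIdeal ^ 1 :=
    Ideal.pow_right_strictAnti v.asIdeal v.ne_bot v.isPrime.ne_top (by norm_num)
  rw [pow_one] at h1
  obtain ⟨z, hz, hz2⟩ := SetLike.exists_of_lt h1
  have hz0 : z ≠ 0 := by
    rintro rfl
    exact hz2 (Ideal.zero_mem _)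
  have hz' : algebraMap D L z ≠ 0 := by rwa [Ne, IsFractionRing.to_map_eq_zero_iff]
  refine ⟨Additive.ofMul (Units.mk0 _ hz'), z, rfl, hz, ?_⟩
  by_contra hcon
  push Not at hcon
  have hs0 : Ideal.span {z} ≠ 0 := by
    rw [Ideal.zero_eq_bot, Ne, Ideal.span_singleton_eq_bot]
    exact hz0
  rw [dv_apply] at hcon
  have h2 : ((Additive.ofMul (Units.mk0 _ hz') : Additive Lˣ).toMul : L) = algebraMap D L z := rfl
  rw [h2, ← coeIdeal_span_singleton, count_coe L v hs0] at hcon
  have h3 : 2 ≤ (Associates.mk v.asIdeal).count (Associates.mk (Ideal.span {z})).factors := by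
    exact_mod_cast hcon
  rw [← Associates.prime_pow_dvd_iff_le (Associates.mk_ne_zero.2 hs0) v.associates_irreducible,
    ← Associates.mk_pow, Associates.mk_le_mk_iff_dvd, Ideal.dvd_span_singleton] at h3
  exact hz2 h3

variable {P : Type} [CommRing P] [IsDomain P] [UniqueFactorizationMonoid P] [Algebra P L]
  [IsFractionRing P L]

/-- **The primes outside a localization which is factorial are principal.** -/
theorem sat {g : D} (hg : g ≠ 0) (h1 : ∀ a : P, algebraMap P L a ∈ loc D (L := L) g)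
    (h2 : ∀ z ∈ loc D (L := L) g, ∃ a s : P, algebraMap P L s ≠ 0 ∧
      (algebraMap P L s)⁻¹ ∈ loc D (L := L) g ∧ z * algebraMap P L s = algebraMap P L a)
    (v : HeightOneSpectrum D) (hv : g ∉ v.asIdeal) :
    ∃ x : Additive Lˣ, ∀ w : HeightOneSpectrum D, g ∉ w.asIdeal → ∀ [Decidable (v = w)],
      dv w x = if v = w then 1 else 0 := by
  classical
  have hg' : algebraMap D L g ≠ 0 := by rwa [Ne, IsFractionRing.to_map_eq_zero_iff]
  -- elements of the localization
  have hnn : ∀ (x : Additive Lˣ), (x.toMul : L) ∈ loc D (L := L) g →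
      ∀ w : HeightOneSpectrum D, g ∉ w.asIdeal → 0 ≤ dv w x := by
    rintro x ⟨n, a, ha⟩ w hw
    let γ : Additive Lˣ := Additive.ofMul (Units.mk0 _ hg')
    have hγ : (γ.toMul : L) = algebraMap D L g := rfl
    have h3 : 0 ≤ dv w (n • γ + x) := by
      refine dv_nonneg (a := a) ?_
      rw [toMul_add, toMul_nsmul, Units.val_mul, Units.val_pow_eq_pow_val, hγ, ha]
    rw [map_add, map_nsmul, dv_zero_of_notMem hw hγ, smul_zero, zero_add] at h3
    exact h3
  have toU : ∀ a : P, a ≠ 0 → ∃ x : Additive Lˣ, (x.toMul : L) = algebraMap P L a := by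
    intro a ha
    exact ⟨Additive.ofMul (Units.mk0 _ (by rwa [Ne, IsFractionRing.to_map_eq_zero_iff])), rfl⟩
  have ext : ∀ x y : Additive Lˣ, (x.toMul : L) = (y.toMul : L) → x = y := fun x y h =>
    Additive.toMul.injective (Units.ext h)
  -- an irreducible element with a zero at `v`
  obtain ⟨x₀, z₀, hx₀, hz₀, -⟩ := exists_unif (L := L) v
  obtain ⟨a₀, s₀, hs₀, hs₀', has₀⟩ := h2 (x₀.toMul : L) (by rw [hx₀]; exact base_mem _ _)
  have hfac : ∀ a : P, a ≠ 0 → ∀ x : Additive Lˣ, (x.toMul : L) = algebraMap P L a → 0 < dv v x →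
      ∃ (π : P) (y : Additive Lˣ), Irreducible π ∧ (y.toMul : L) = algebraMap P L π ∧ 0 < dv v y := by
    intro a
    induction a using WfDvdMonoid.induction_on_irreducible with
    | zero => intro h; exact absurd rfl h
    | unit u hu =>
      intro _ x hx hpos
      obtain ⟨u', rfl⟩ := hu
      have h4 : x ∈ unitsIn (loc D (L := L) g) := by
        refine ⟨by rw [hx]; exact h1 _, ?_⟩
        rw [hx, ← alg_inv]
        exact h1 _
      rw [mem_units_iff hg] at h4
      rw [h4 v hv] at hpos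
      exact absurd hpos (lt_irrefl _)
    | mul a π ha hπ ih =>
      intro _ x hx hpos
      obtain ⟨xa, hxa⟩ := toU a ha
      obtain ⟨xπ, hxπ⟩ := toU π hπ.ne_zero
      have h5 : x = xπ + xa := ext _ _ (by rw [hx, toMul_add, Units.val_mul, hxa, hxπ, map_mul])
      rw [h5, map_add] at hpos
      by_cases h6 : 0 < dv v xπ
      · exact ⟨π, xπ, hπ, hxπ, h6⟩
      · exact ih ha xa hxa (by omega)
  have ha₀ : a₀ ≠ 0 := by
    rintro rfl
    rw [map_zero] at has₀
    exact mul_ne_zero (Units.ne_zero _) hs₀ has₀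
  obtain ⟨xa, hxa⟩ := toU a₀ ha₀
  have hs0 : s₀ ≠ 0 := fun h => hs₀ (by rw [h, map_zero])
  obtain ⟨xs, hxs⟩ := toU s₀ hs0
  have hus : xs ∈ unitsIn (loc D (L := L) g) := ⟨by rw [hxs]; exact h1 _, by rw [hxs]; exact hs₀'⟩
  have hdx : 0 < dv v xa := by
    have h7 : xa = x₀ + xs := ext _ _ (by rw [hxa, toMul_add, Units.val_mul, hxs, has₀])
    rw [h7, map_add, (mem_units_iff hg).1 hus v hv, add_zero]
    exact dv_pos_of_mem hz₀ hx₀
  obtain ⟨π, y, hπ, hy, hdy⟩ := hfac a₀ ha₀ xa hxa hdx
  have hπ' : algebraMap P L π ≠ 0 := by rw [← hy]; exact Units.ne_zero _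
  -- the ideal of the multiples
  let r : Ideal D :=
    { carrier := {z | algebraMap D L z / algebraMap P L π ∈ loc D (L := L) g}
      add_mem' := by
        intro a b ha hb
        show algebraMap D L (a + b) / algebraMap P L π ∈ loc D (L := L) g
        rw [map_add, add_div]
        exact add_mem ha hb
      zero_mem' := by
        show algebraMap D L 0 / algebraMap P L π ∈ loc D (L := L) g
        rw [map_zero, zero_div]
        exact zero_mem _
      smul_mem' := by
        intro c a ha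
        show algebraMap D L (c * a) / algebraMap P L π ∈ loc D (L := L) g
        rw [map_mul, mul_div_assoc]
        exact mul_mem (base_mem _ _) ha }
  have hr : ∀ z : D, z ∈ r ↔ algebraMap D L z / algebraMap P L π ∈ loc D (L := L) g := fun z => Iff.rfl
  have hnu : ∀ t : P, t ≠ 0 → π ∣ t → (algebraMap P L t)⁻¹ ∉ loc D (L := L) g := by
    rintro t ht ⟨t', rfl⟩ hmem
    obtain ⟨xt, hxt⟩ := toU _ ht
    obtain ⟨xt', hxt'⟩ := toU t' (right_ne_zero_of_mul ht)
    have h8 : xt ∈ unitsIn (loc D (L := L) g) := ⟨by rw [hxt]; exact h1 _, by rw [hxt]; exact hmem⟩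
    have h9 := (mem_units_iff hg).1 h8 v hv
    have h10 : xt = y + xt' := ext _ _ (by rw [hxt, toMul_add, Units.val_mul, hy, hxt', map_mul])
    rw [h10, map_add] at h9
    have h11 := hnn xt' (by rw [hxt']; exact h1 _) v hv
    omega
  have hrp : r.IsPrime := by
    refine ⟨?_, ?_⟩
    · rw [Ideal.ne_top_iff_one, hr, map_one, one_div]
      exact hnu π hπ.ne_zero dvd_rfl
    · intro z₁ z₂ hz
      rw [hr] at hz
      obtain ⟨a₁, s₁, hs₁, hs₁', e₁⟩ := h2 _ (base_mem g z₁)
      obtain ⟨a₂, s₂, hs₂, hs₂', e₂⟩ := h2 _ (base_mem g z₂)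
      obtain ⟨c, s, hs, hs', e⟩ := h2 _ hz
      have h12 : a₁ * a₂ * s = π * (c * s₁ * s₂) := by
        apply IsFractionRing.injective P L
        simp only [map_mul]
        rw [← e₁, ← e₂, ← e, map_mul]
        field_simp
      have h13 : π ∣ a₁ * a₂ * s := ⟨_, h12⟩
      have key : ∀ (z : D) (a s : P), algebraMap P L s ≠ 0 → (algebraMap P L s)⁻¹ ∈ loc D (L := L) g →
          algebraMap D L z * algebraMap P L s = algebraMap P L a → π ∣ a → z ∈ r := by
        rintro z a s hs hs' he ⟨t, rfl⟩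
        rw [hr]
        have : algebraMap D L z / algebraMap P L π = algebraMap P L t * (algebraMap P L s)⁻¹ := by
          rw [map_mul] at he
          field_simp
          exact he
        rw [this]
        exact mul_mem (h1 _) hs'
      rcases hπ.prime.dvd_or_dvd h13 with h14 | h14
      · rcases hπ.prime.dvd_or_dvd h14 with h15 | h15
        · exact Or.inl (key z₁ a₁ s₁ hs₁ hs₁' e₁ h15)
        · exact Or.inr (key z₂ a₂ s₂ hs₂ hs₂' e₂ h15)
      · exact absurd hs' (hnu s (fun h => hs (by rw [h, map_zero])) h14)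
  have hr0 : r ≠ ⊥ := by
    obtain ⟨n, d, hd⟩ := h1 π
    have hdr : d ∈ r := by
      rw [hr, ← hd, mul_div_assoc, div_self hπ', mul_one, ← map_pow]
      exact base_mem _ _
    intro h
    rw [h] at hdr
    have hd0 : d = 0 := by simpa using hdr
    rw [hd0, map_zero] at hd
    exact mul_ne_zero (pow_ne_zero _ hg') hπ' hd
  have hrv : r ≤ v.asIdeal := by
    intro z hz
    rw [hr] at hz
    by_cases hz0 : z = 0
    · rw [hz0]
      exact Ideal.zero_mem _
    have hz' : algebraMap D L z ≠ 0 := by rwa [Ne, IsFractionRing.to_map_eq_zero_iff]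
    let x : Additive Lˣ := Additive.ofMul (Units.mk0 _ hz')
    have hx : (x.toMul : L) = algebraMap D L z := rfl
    apply mem_of_dv_pos hx
    have h16 := hnn (x - y) (by rw [toMul_sub, Units.val_div_eq_div_val, hx, hy]; exact hz) v hv
    rw [map_sub] at h16
    omega
  have hrmax : r.IsMaximal := hrp.isMaximal hr0
  have hrv' : r = v.asIdeal := hrmax.eq_of_le v.isPrime.ne_top hrv
  have hle : ∀ (x : Additive Lˣ) (z : D), (x.toMul : L) = algebraMap D L z → z ∈ v.asIdeal →
      ∀ w : HeightOneSpectrum D, g ∉ w.asIdeal → dv w y ≤ dv w x := by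
    intro x z hx hz w hw
    rw [← hrv', hr, ← hx, ← hy] at hz
    have h17 := hnn (x - y) (by rw [toMul_sub, Units.val_div_eq_div_val]; exact hz) w hw
    rw [map_sub] at h17
    omega
  refine ⟨y, fun w hw => ?_⟩
  intro _
  have h18 : 0 ≤ dv w y := hnn y (by rw [hy]; exact h1 _) w hw
  split_ifs with h
  · subst h
    obtain ⟨x₁, z₁, hx₁, hz₁, hd₁⟩ := exists_unif (L := L) v
    have h19 := hle x₁ z₁ hx₁ hz₁ v hw
    omega
  · obtain ⟨z, hz, hzw⟩ : ∃ z ∈ v.asIdeal, z ∉ w.asIdeal := by
      by_contra hcon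
      push Not at hcon
      have hvm : v.asIdeal.IsMaximal := v.isMaximal
      exact h (HeightOneSpectrum.ext (hvm.eq_of_le w.isPrime.ne_top hcon))
    have hz0 : z ≠ 0 := by
      rintro rfl
      exact hzw (Ideal.zero_mem _)
    have hz' : algebraMap D L z ≠ 0 := by rwa [Ne, IsFractionRing.to_map_eq_zero_iff]
    have h20 := hle (Additive.ofMul (Units.mk0 _ hz')) z rfl hz w hw
    have h21 : dv w (Additive.ofMul (Units.mk0 _ hz') : Additive Lˣ) = 0 :=
      dv_zero_of_notMem hzw rfl
    rw [h21] at h20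
    omega

end

end Pool.Agent.V7H34.NT
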