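import Pool.Agent.V7H34.NT.Poly
import Pool.Agent.V7H34.NT.Loc

/-!
# The units of a localization of a factorial ring
-/

set_option autoImplicit false
set_option linter.all false

namespace Pool.Agent.V7H34.NT

section
variable {P L : Type} [CommRing P] [IsDomain P] [UniqueFactorizationMonoid P] [Field L]
  [Algebra P L] [IsFractionRing P L] {n : P}

/-- a generator -/
noncomputable def gen (I : Jt P n) : P := I.2.choose

theorem gen_irr (I : Jt P n) : Irreducible (gen I) := I.2.choose_spec.1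
theorem gen_dvd (I : Jt P n) : gen I ∣ n := I.2.choose_spec.2.1
theorem gen_span (I : Jt P n) : I.1 = Ideal.span {gen I} := I.2.choose_spec.2.2

variable (L) in
/-- a generator as a unit of the field of fractions -/
noncomputable def gu (I : Jt P n) : Lˣ := Units.mk0 (algebraMap P L (gen I)) (by
  rw [Ne, IsFractionRing.to_map_eq_zero_iff]
  exact (gen_irr I).ne_zero)

theorem alg_inv (a : Pˣ) : algebraMap P L ((a⁻¹ : Pˣ) : P) = (algebraMap P L a)⁻¹ :=
  eq_inv_of_mul_eq_one_left (by rw [← map_mul]; simp)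

variable (P L) in
/-- the units of `P` in the multiplicative group of the field -/
def unitsOf : Submodule ℤ (Additive Lˣ) := AddSubgroup.toIntSubmodule
  { carrier := {x | ∃ ε : Pˣ, algebraMap P L ε = (x.toMul : L)}
    add_mem' := by
      rintro x y ⟨a, ha⟩ ⟨b, hb⟩
      exact ⟨a * b, by rw [Units.val_mul, map_mul, ha, hb, toMul_add, Units.val_mul]⟩
    zero_mem' := ⟨1, by simp⟩
    neg_mem' := by
      rintro x ⟨a, ha⟩
      refine ⟨a⁻¹, ?_⟩
      rw [toMul_neg, Units.val_inv_eq_inv_val, ← ha]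
      exact alg_inv a }

theorem mem_unitsOf {x : Additive Lˣ} : x ∈ unitsOf P L ↔
    ∃ ε : Pˣ, algebraMap P L ε = (x.toMul : L) := Iff.rfl

/-- the units of a subring in the multiplicative group of the field -/
def unitsIn (S : Subring L) : Submodule ℤ (Additive Lˣ) := AddSubgroup.toIntSubmodule
  { carrier := {x | (x.toMul : L) ∈ S ∧ ((x.toMul : L))⁻¹ ∈ S}
    add_mem' := by
      rintro x y ⟨a, ha⟩ ⟨b, hb⟩
      refine ⟨?_, ?_⟩
      · rw [toMul_add, Units.val_mul]
        exact mul_mem a b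
      · rw [toMul_add, Units.val_mul, mul_inv]
        exact mul_mem ha hb
    zero_mem' := ⟨by simp, by simp⟩
    neg_mem' := by
      rintro x ⟨a, ha⟩
      refine ⟨?_, ?_⟩
      · rw [toMul_neg, Units.val_inv_eq_inv_val]
        exact ha
      · rw [toMul_neg, Units.val_inv_eq_inv_val, inv_inv]
        exact a }

theorem mem_unitsIn {S : Subring L} {x : Additive Lˣ} : x ∈ unitsIn S ↔
    (x.toMul : L) ∈ S ∧ ((x.toMul : L))⁻¹ ∈ S := Iff.rfl

variable (L) in
/-- the products of powers of the generators -/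
noncomputable def psi (n : P) [Fintype (Jt P n)] : (Jt P n → ℤ) →ₗ[ℤ] Additive Lˣ :=
  Fintype.linearCombination ℤ fun I => Additive.ofMul (gu L I)

theorem psi_single [Fintype (Jt P n)] [DecidableEq (Jt P n)] (I : Jt P n) (m : ℤ) :
    psi L n (Pi.single I m) = m • Additive.ofMul (gu L I) := by
  unfold psi
  exact Fintype.linearCombination_apply_single ℤ _ _ _

theorem psi_val [Fintype (Jt P n)] (e : Jt P n → ℤ) :
    (((psi L n e).toMul : Lˣ) : L) = ∏ I, algebraMap P L (gen I) ^ e I := by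
  unfold psi
  rw [Fintype.linearCombination_apply]
  rw [toMul_sum, Units.coe_prod]
  refine Finset.prod_congr rfl fun I _ => ?_
  rw [toMul_zsmul, toMul_ofMul, Units.val_zpow_eq_zpow_val]
  rfl

theorem gu_mem (hn : n ≠ 0) (I : Jt P n) : Additive.ofMul (gu L I) ∈ unitsIn (loc P (L := L) n) := by
  refine ⟨base_mem _ _, ?_⟩
  exact inv_mem_of_dvd (by rwa [Ne, IsFractionRing.to_map_eq_zero_iff]) (gen_dvd I)

theorem psi_mem (hn : n ≠ 0) [Fintype (Jt P n)] (e : Jt P n → ℤ) :
    psi L n e ∈ unitsIn (loc P (L := L) n) := by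
  unfold psi
  rw [Fintype.linearCombination_apply]
  exact Submodule.sum_mem _ fun I _ => Submodule.smul_mem _ _ (gu_mem hn I)

theorem unitsOf_le (n : P) : unitsOf P L ≤ unitsIn (loc P (L := L) n) := by
  rintro x ⟨ε, hε⟩
  refine ⟨?_, ?_⟩
  · rw [← hε]
    exact base_mem _ _
  · rw [← hε]
    rw [← alg_inv]
    exact base_mem _ _

/-- divisors of powers -/
theorem divisor_form (hn : n ≠ 0) [Fintype (Jt P n)] (a : P) : ∀ m : ℕ, a ∣ n ^ m →
    ∃ (e : Jt P n → ℤ) (ε : Pˣ), algebraMap P L a = algebraMap P L ε *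
      (((psi L n e).toMul : Lˣ) : L) := by
  classical
  induction a using WfDvdMonoid.induction_on_irreducible with
  | zero =>
    intro m h
    exact absurd (zero_dvd_iff.1 h) (pow_ne_zero m hn)
  | unit u hu =>
    intro m h
    obtain ⟨u', rfl⟩ := hu
    exact ⟨0, u', by simp⟩
  | mul a π ha hπ ih =>
    intro m h
    obtain ⟨e, ε, he⟩ := ih m ((dvd_mul_left _ _).trans h)
    have h1 : π ∣ n := hπ.prime.dvd_of_dvd_pow ((dvd_mul_right _ _).trans h)
    let I : Jt P n := ⟨Ideal.span {π}, π, hπ, h1, rfl⟩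
    have h2 : Associated (gen I) π := by
      rw [← Ideal.span_singleton_eq_span_singleton, ← gen_span I]
    obtain ⟨v, hv⟩ := h2
    refine ⟨e + Pi.single I 1, ε * v, ?_⟩
    rw [map_add, psi_single, one_smul, toMul_add, toMul_ofMul, Units.val_mul, Units.val_mul, map_mul,
      map_mul, he, ← hv, map_mul]
    show _ = _ * (_ * algebraMap P L (gen I))
    ring

/-- **The units of a localization.** -/
theorem units_form (hn : n ≠ 0) [Fintype (Jt P n)] {x : Additive Lˣ}
    (hx : x ∈ unitsIn (loc P (L := L) n)) :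
    ∃ (e : Jt P n → ℤ), x - psi L n e ∈ unitsOf P L := by
  have hn' : algebraMap P L n ≠ 0 := by rwa [Ne, IsFractionRing.to_map_eq_zero_iff]
  obtain ⟨⟨i, a, ha⟩, ⟨j, b, hb⟩⟩ := hx
  have hx0 : (x.toMul : L) ≠ 0 := Units.ne_zero _
  have h1 : a * b = n ^ (i + j) := by
    apply IsFractionRing.injective P L
    rw [map_mul, ← ha, ← hb, map_pow, pow_add]
    field_simp
  obtain ⟨e, ε, he⟩ := divisor_form (L := L) hn a (i + j) ⟨b, h1.symm⟩
  obtain ⟨e', ε', he'⟩ := divisor_form (L := L) hn (n ^ i) i dvd_rfl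
  refine ⟨e - e', ε * ε'⁻¹, ?_⟩
  have h3 : (algebraMap P L ε' : L) ≠ 0 := by
    rw [Ne, IsFractionRing.to_map_eq_zero_iff]
    exact Units.ne_zero _
  have h2 : algebraMap P L ((ε * ε'⁻¹ : Pˣ) : P) = algebraMap P L ε * (algebraMap P L ε')⁻¹ := by
    rw [Units.val_mul, map_mul, alg_inv]
  rw [h2, LinearMap.map_sub (psi L n), toMul_sub, toMul_sub, Units.val_div_eq_div_val,
    Units.val_div_eq_div_val]
  rw [map_pow] at he'
  rw [he'] at ha
  have h4 : (((psi L n e).toMul : Lˣ) : L) ≠ 0 := Units.ne_zero _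
  have h5 : (((psi L n e').toMul : Lˣ) : L) ≠ 0 := Units.ne_zero _
  rw [he] at ha
  field_simp
  linear_combination -ha

theorem pos_part_false [Fintype (Jt P n)] (e : Jt P n → ℤ) (h : psi L n e ∈ unitsOf P L) (I : Jt P n) :
    ¬ 0 < e I := by
  classical
  intro hI
  obtain ⟨ε, hε⟩ := h
  rw [psi_val] at hε
  -- clear the denominators
  have h1 : ∏ J, gen J ^ (e J).toNat = ε * ∏ J, gen J ^ (-e J).toNat := by
    apply IsFractionRing.injective P L
    rw [map_mul, map_prod, map_prod, hε, ← Finset.prod_mul_distrib]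
    refine Finset.prod_congr rfl fun J _ => ?_
    have h2 : algebraMap P L (gen J) ≠ 0 := by
      rw [Ne, IsFractionRing.to_map_eq_zero_iff]
      exact (gen_irr J).ne_zero
    rw [map_pow, map_pow, ← zpow_natCast, ← zpow_natCast, ← zpow_add₀ h2]
    congr 1
    omega
  have h2 : gen I ∣ ∏ J, gen J ^ (e J).toNat :=
    (dvd_pow_self _ (by omega)).trans (Finset.dvd_prod_of_mem _ (Finset.mem_univ I))
  rw [h1] at h2
  have hp := (gen_irr I).prime
  rcases hp.dvd_or_dvd h2 with h3 | h3
  · exact hp.not_unit (isUnit_of_dvd_unit h3 ε.isUnit)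
  · obtain ⟨J, -, h4⟩ := hp.exists_mem_finset_dvd h3
    have h5 : I ≠ J := by
      rintro rfl
      have : (-e I).toNat = 0 := by omega
      rw [this, pow_zero] at h4
      exact hp.not_unit (isUnit_of_dvd_one h4)
    have h6 := hp.dvd_of_dvd_pow h4
    have h7 : Associated (gen I) (gen J) := (gen_irr I).associated_of_dvd (gen_irr J) h6
    apply h5
    apply Subtype.ext
    rw [gen_span I, gen_span J]
    exact Ideal.span_singleton_eq_span_singleton.2 h7

/-- the generators are independent -/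
theorem psi_inj [Fintype (Jt P n)] {e : Jt P n → ℤ} (h : psi L n e ∈ unitsOf P L) : e = 0 := by
  funext I
  have h1 := pos_part_false e h I
  have h2 := pos_part_false (L := L) (-e) (by rw [map_neg]; exact Submodule.neg_mem _ h) I
  simp only [Pi.neg_apply, Left.neg_pos_iff] at h2
  simp only [Pi.zero_apply]
  omega

end

end Pool.Agent.V7H34.NT
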